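import Pool.Agent.Y252.RA.FacU

/-!
Arbitrary maps of the circle preserving `Re A`, and the final equivalences.
-/

set_option autoImplicit false

namespace Pool.Agent.Y252.RA

open Complex MeasureTheory Set Filter Topology
open scoped Real ComplexConjugate ENNReal
open Pool.Agent.Helper649.ReDef (CondBV Cond Preserves reA IsDiscAlg)
open Pool.Agent.Helper649.ReE (Incl incl_iff preserves_iff cond_mono)

lemma reA_cont (u : Circle → ℝ) (h : u ∈ reA) : Continuous u := by
  obtain ⟨f, ⟨F, hF, -, hf⟩, hu⟩ := h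
  have h1 : Continuous (fun z : Circle => F z) := by
    refine hF.comp_continuous continuous_subtype_val fun z => ?_
    rw [mem_closedBall_zero_iff]
    exact (Circle.norm_coe z).le
  have h2 : u = fun z : Circle => (F z).re := by
    funext z
    rw [hu z, hf z]
  rw [h2]
  exact Complex.continuous_re.comp h1

lemma re_mem : (fun z : Circle => (z : ℂ).re) ∈ reA :=
  ⟨fun z => (z : ℂ), ⟨fun z => z, continuousOn_id, differentiableOn_id, fun _ => rfl⟩, fun _ => rfl⟩

lemma im_mem : (fun z : Circle => (z : ℂ).im) ∈ reA := by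
  refine ⟨fun z => -I * (z : ℂ), ⟨fun z => -I * z, ?_, ?_, fun _ => rfl⟩, fun z => ?_⟩
  · fun_prop
  · fun_prop
  · simp

/-- an injective continuous map of the circle into itself is surjective -/
lemma circ_surj (ψ : Circle → Circle) (hc : Continuous ψ) (hi : Function.Injective ψ) :
    Function.Surjective ψ := by
  intro p
  by_contra hp
  push Not at hp
  have hpi := Real.pi_pos
  -- the point `-ψ z / p` avoids `-1`
  have hne : ∀ z : Circle, -(((ψ z * p⁻¹ : Circle)) : ℂ) ∈ slitPlane := by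
    intro z
    rw [mem_slitPlane_iff_not_le_zero]
    intro hle
    have h1 : ((ψ z * p⁻¹ : Circle) : ℂ).im = 0 := by
      have := (Complex.le_def.mp hle).2
      rw [Complex.neg_im, Complex.zero_im] at this
      linarith
    have h2 : 0 ≤ ((ψ z * p⁻¹ : Circle) : ℂ).re := by
      have := (Complex.le_def.mp hle).1
      rw [Complex.neg_re, Complex.zero_re] at this
      linarith
    have h3 : ((ψ z * p⁻¹ : Circle) : ℂ) = 1 := by
      have h4 := Circle.norm_coe (ψ z * p⁻¹)
      have h5 : ((ψ z * p⁻¹ : Circle) : ℂ).re = 1 := by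
        have h6 : ‖((ψ z * p⁻¹ : Circle) : ℂ)‖ ^ 2 = 1 := by rw [h4]; norm_num
        rw [Complex.sq_norm, Complex.normSq_apply, h1] at h6
        nlinarith
      apply Complex.ext
      · rw [h5]; rfl
      · rw [h1]; rfl
    have h7 : ψ z * p⁻¹ = 1 := Subtype.ext h3
    exact hp z (by rw [mul_inv_eq_one] at h7; exact h7)
  have hθc : Continuous (fun z : Circle => Complex.arg (-(((ψ z * p⁻¹ : Circle)) : ℂ))) := by
    rw [continuous_iff_continuousAt]
    intro z
    refine ContinuousAt.comp (g := Complex.arg) (f := fun z : Circle => -(((ψ z * p⁻¹ : Circle)) : ℂ))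
      (Complex.continuousAt_arg (hne z)) ?_
    exact ((continuous_subtype_val.comp (hc.mul continuous_const)).neg).continuousAt
  set θ : Circle → ℝ := fun z => Complex.arg (-(((ψ z * p⁻¹ : Circle)) : ℂ)) with hθ
  have hθi : Function.Injective θ := by
    intro z w hzw
    apply hi
    have h1 : -(((ψ z * p⁻¹ : Circle)) : ℂ) = -(((ψ w * p⁻¹ : Circle)) : ℂ) := by
      refine Complex.ext_norm_arg ?_ hzw
      rw [norm_neg, norm_neg, Circle.norm_coe, Circle.norm_coe]
    have h2 : ψ z * p⁻¹ = ψ w * p⁻¹ := Subtype.ext (neg_injective h1)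
    exact mul_right_cancel h2
  have hexp : Continuous (fun s : ℝ => Circle.exp s) := Circle.exp.continuous
  have hg : Continuous (fun s : ℝ => θ (Circle.exp s) - θ (Circle.exp (s + π))) :=
    (hθc.comp hexp).sub (hθc.comp (hexp.comp (continuous_id.add continuous_const)))
  have hend : θ (Circle.exp (π + π)) = θ (Circle.exp 0) := by
    congr 1
    have := cexp_per 0
    rw [zero_add] at this
    rw [← this, two_mul]
  have hpne : ∀ s : ℝ, Circle.exp s ≠ Circle.exp (s + π) := by
    intro s h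
    rw [Circle.exp_add] at h
    have h1 : Circle.exp π = 1 := by
      have : Circle.exp s * 1 = Circle.exp s * Circle.exp π := by rw [mul_one]; exact h
      exact (mul_left_cancel this).symm
    have h2 : ((Circle.exp π : Circle) : ℂ) = 1 := by rw [h1]; rfl
    rw [Circle.coe_exp, Complex.exp_pi_mul_I] at h2
    norm_num at h2
  obtain ⟨s, -, hs⟩ : ∃ s ∈ uIcc 0 π, θ (Circle.exp s) - θ (Circle.exp (s + π)) = 0 := by
    refine intermediate_value_uIcc hg.continuousOn ?_
    rw [mem_uIcc]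
    rw [hend, zero_add]
    rcases le_total (θ (Circle.exp 0)) (θ (Circle.exp π)) with h | h
    · left; constructor <;> linarith
    · right; constructor <;> linarith
  exact hpne s (hθi (by linarith))

lemma map_homeo (ψ : Circle → Circle) (h : reA = {v | ∃ u ∈ reA, v = fun z => u (ψ z)}) :
    ∃ Φ : Circle ≃ₜ Circle, ∀ z, Φ z = ψ z := by
  have h1 : (fun z : Circle => ((ψ z : Circle) : ℂ).re) ∈ reA := by
    rw [h]
    exact ⟨_, re_mem, rfl⟩
  have h2 : (fun z : Circle => ((ψ z : Circle) : ℂ).im) ∈ reA := by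
    rw [h]
    exact ⟨_, im_mem, rfl⟩
  have hc : Continuous ψ := by
    have h3 : Continuous (fun z : Circle => ((ψ z : Circle) : ℂ)) := by
      have h4 : (fun z : Circle => ((ψ z : Circle) : ℂ)) = fun z : Circle =>
          ((((ψ z : Circle) : ℂ).re : ℝ) : ℂ) + ((((ψ z : Circle) : ℂ).im : ℝ) : ℂ) * I := by
        funext z
        exact (Complex.re_add_im _).symm
      rw [h4]
      exact (Complex.continuous_ofReal.comp (reA_cont _ h1)).add
        ((Complex.continuous_ofReal.comp (reA_cont _ h2)).mul continuous_const)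
    exact continuous_induced_rng.mpr h3
  have hi : Function.Injective ψ := by
    intro z w hzw
    have h3 : (fun z : Circle => (z : ℂ).re) ∈ {v | ∃ u ∈ reA, v = fun z => u (ψ z)} := by
      rw [← h]; exact re_mem
    have h4 : (fun z : Circle => (z : ℂ).im) ∈ {v | ∃ u ∈ reA, v = fun z => u (ψ z)} := by
      rw [← h]; exact im_mem
    obtain ⟨u, -, hu⟩ := h3
    obtain ⟨v, -, hv⟩ := h4
    apply Subtype.ext
    apply Complex.ext
    · have e1 : (z : ℂ).re = u (ψ z) := congrFun hu z
      have e2 : (w : ℂ).re = u (ψ w) := congrFun hu w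
      exact (e1.trans (by rw [hzw])).trans e2.symm
    · have e1 : (z : ℂ).im = v (ψ z) := congrFun hv z
      have e2 : (w : ℂ).im = v (ψ w) := congrFun hv w
      exact (e1.trans (by rw [hzw])).trans e2.symm
  have hs := circ_surj ψ hc hi
  exact ⟨Continuous.homeoOfEquivCompactToT2 (f := Equiv.ofBijective ψ ⟨hi, hs⟩) hc, fun _ => rfl⟩

theorem one_sided (ψ : Circle ≃ₜ Circle) :
    (∀ u ∈ reA, (fun z => u (ψ z)) ∈ reA) ↔ ∃ C : ℝ, Sharp ψ.symm 0 C := by
  rw [show (∀ u ∈ reA, (fun z => u (ψ z)) ∈ reA) ↔ Incl ψ from Iff.rfl, incl_iff]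
  constructor
  · rintro ⟨C, h⟩
    exact ⟨C, sharp_of_cond _ C h⟩
  · rintro ⟨C, h⟩
    exact ⟨_, cond_of_sharp _ C h⟩

theorem two_sided (Φ : Circle ≃ₜ Circle) :
    Preserves Φ ↔ ∃ C : ℝ, 0 < C ∧ Sharp Φ C⁻¹ C ∧ Sharp Φ.symm C⁻¹ C := by
  rw [preserves_iff, incl_iff, incl_iff, Homeomorph.symm_symm]
  constructor
  · rintro ⟨⟨C, h⟩, C', h'⟩
    have h1 := sharp_mono _ 0 0 _ (max C C') le_rfl (le_max_left _ _) (sharp_of_cond _ C h)
    have h2 := sharp_mono _ 0 0 _ (max C C') le_rfl (le_max_right _ _) (sharp_of_cond _ C' h')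
    obtain ⟨h3, h4, h5⟩ := sharp_pair Φ _ h2 h1
    exact ⟨_, h3, h4, h5⟩
  · rintro ⟨C, h0, h1, h2⟩
    exact ⟨⟨_, cond_of_sharp _ C (sharp_mono _ _ 0 C C (inv_nonneg.mpr h0.le) le_rfl h2)⟩,
      _, cond_of_sharp _ C (sharp_mono _ _ 0 C C (inv_nonneg.mpr h0.le) le_rfl h1)⟩

theorem any_map (ψ : Circle → Circle) :
    reA = {v | ∃ u ∈ reA, v = fun z => u (ψ z)} ↔
      ∃ Φ : Circle ≃ₜ Circle, (∀ z, Φ z = ψ z) ∧ ∃ C : ℝ, 0 < C ∧ Sharp Φ C⁻¹ C ∧ Sharp Φ.symm C⁻¹ C := by
  constructor
  · intro h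
    obtain ⟨Φ, hΦ⟩ := map_homeo ψ h
    refine ⟨Φ, hΦ, (two_sided Φ).mp ?_⟩
    unfold Preserves
    simp only [hΦ]
    exact h
  · rintro ⟨Φ, hΦ, hC⟩
    have h := (two_sided Φ).mpr hC
    unfold Preserves at h
    simp only [hΦ] at h
    exact h

end Pool.Agent.Y252.RA
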