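import Mathlib

/-!
Factorization of polynomials into a product of two functions of the disc algebra with
`|a|^2 = |b|^2 = |p|` on the circle.
-/

set_option autoImplicit false

namespace Pool.Agent.Y252.RA

open Complex MeasureTheory Set Filter Topology Metric
open scoped Real ComplexConjugate

/-- `p` is a product of two functions of the disc algebra whose squared moduli on the circle
are `|p|` -/
def HF (p : ℂ → ℂ) : Prop := ∃ a b : ℂ → ℂ, DiffContOnCl ℂ a (ball 0 1) ∧
  DiffContOnCl ℂ b (ball 0 1) ∧ (∀ z, ‖z‖ = 1 → p z = a z * b z) ∧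
  (∀ z, ‖z‖ = 1 → ‖a z‖ ^ 2 = ‖p z‖) ∧ (∀ z, ‖z‖ = 1 → ‖b z‖ ^ 2 = ‖p z‖)

lemma csqrt_sq (w : ℂ) : (w ^ (((2 : ℕ) : ℂ)⁻¹)) * (w ^ (((2 : ℕ) : ℂ)⁻¹)) = w := by
  have h := Complex.cpow_nat_inv_pow w (two_ne_zero)
  rw [pow_two] at h
  exact h

lemma hf_const (c : ℂ) : HF (fun _ => c) := by
  refine ⟨fun _ => c ^ (((2 : ℕ) : ℂ)⁻¹), fun _ => c ^ (((2 : ℕ) : ℂ)⁻¹), diffContOnCl_const,
    diffContOnCl_const, fun z _ => (csqrt_sq c).symm, ?_, ?_⟩ <;>
  · intro z _
    rw [← norm_pow, pow_two, csqrt_sq]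

lemma hf_mul {p q : ℂ → ℂ} (hp : HF p) (hq : HF q) : HF (fun z => p z * q z) := by
  obtain ⟨a, b, ha, hb, h1, h2, h3⟩ := hp
  obtain ⟨a', b', ha', hb', h1', h2', h3'⟩ := hq
  refine ⟨fun z => a z * a' z, fun z => b z * b' z, ha.smul ha', hb.smul hb', ?_, ?_, ?_⟩
  · intro z hz
    show p z * q z = _
    rw [h1 z hz, h1' z hz]; ring
  · intro z hz
    rw [norm_mul, norm_mul, mul_pow, h2 z hz, h2' z hz]
  · intro z hz
    rw [norm_mul, norm_mul, mul_pow, h3 z hz, h3' z hz]

lemma hf_sq (s p : ℂ → ℂ) (hs : DiffContOnCl ℂ s (ball 0 1)) (h : ∀ z, ‖z‖ = 1 → p z = s z * s z) :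
    HF p := by
  refine ⟨s, s, hs, hs, h, ?_, ?_⟩ <;>
  · intro z hz
    rw [h z hz, norm_mul, pow_two]

lemma hf_lin (α : ℂ) : HF (fun z => z - α) := by
  by_cases hα : ‖α‖ < 1
  · -- Blaschke factor times `1 - conj α z`
    have hre : ∀ z ∈ closedBall (0 : ℂ) 1, 0 < (1 - conj α * z).re := by
      intro z hz
      have h1 : ‖conj α * z‖ < 1 := by
        rw [norm_mul, Complex.norm_conj]
        have : ‖z‖ ≤ 1 := by simpa using hz
        nlinarith [norm_nonneg α, norm_nonneg z]
      have h2 := Complex.re_le_norm (conj α * z)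
      rw [Complex.sub_re, Complex.one_re]
      linarith
    have hs : DiffContOnCl ℂ (fun z => (1 - conj α * z) ^ (((2 : ℕ) : ℂ)⁻¹)) (ball (0 : ℂ) 1) := by
      apply DifferentiableOn.diffContOnCl
      rw [closure_ball _ one_ne_zero]
      intro z hz
      apply DifferentiableAt.differentiableWithinAt
      have hsl : (1 - conj α * z) ∈ slitPlane := Or.inl (hre z hz)
      exact DifferentiableAt.cpow (by fun_prop) (by fun_prop) hsl
    have hB : DiffContOnCl ℂ (fun z => (z - α) / (1 - conj α * z)) (ball (0 : ℂ) 1) := by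
      apply DifferentiableOn.diffContOnCl
      rw [closure_ball _ one_ne_zero]
      intro z hz
      apply DifferentiableAt.differentiableWithinAt
      have hne : (1 - conj α * z) ≠ 0 := by
        intro h0
        have := hre z hz
        rw [h0] at this
        simp at this
      exact DifferentiableAt.div (by fun_prop) (by fun_prop) hne
    have hnorm : ∀ z : ℂ, ‖z‖ = 1 → ‖z - α‖ = ‖1 - conj α * z‖ := by
      intro z hz
      have h1 : z * conj z = 1 := by
        rw [Complex.mul_conj, Complex.normSq_eq_norm_sq, hz]; simp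
      have h2 : (1 - conj α * z) = z * conj (z - α) := by
        rw [map_sub]
        linear_combination -h1
      rw [h2, norm_mul, hz, one_mul, Complex.norm_conj]
    have hne : ∀ z : ℂ, ‖z‖ = 1 → (1 - conj α * z) ≠ 0 := by
      intro z hz h0
      have := hre z (by simp [hz])
      rw [h0] at this
      simp at this
    refine ⟨fun z => ((z - α) / (1 - conj α * z)) * (1 - conj α * z) ^ (((2 : ℕ) : ℂ)⁻¹),
      fun z => (1 - conj α * z) ^ (((2 : ℕ) : ℂ)⁻¹), hB.smul hs, hs, ?_, ?_, ?_⟩
    · intro z hz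
      show z - α = _
      rw [mul_assoc, csqrt_sq, div_mul_cancel₀ _ (hne z hz)]
    · intro z hz
      show ‖_ * _‖ ^ 2 = ‖z - α‖
      rw [norm_mul, norm_div, hnorm z hz, div_self (by simpa using hne z hz), one_mul, ← norm_pow,
        pow_two, csqrt_sq]
    · intro z hz
      show _ = ‖z - α‖
      rw [hnorm z hz, ← norm_pow, pow_two, csqrt_sq]
  · push Not at hα
    have hα0 : α ≠ 0 := by
      intro h
      rw [h, norm_zero] at hα
      linarith
    have hle : ∀ z ∈ closedBall (0 : ℂ) 1, 0 ≤ (1 - z / α).re := by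
      intro z hz
      have h1 : ‖z / α‖ ≤ 1 := by
        rw [norm_div, div_le_one (by positivity)]
        have : ‖z‖ ≤ 1 := by simpa using hz
        linarith
      have h2 := Complex.re_le_norm (z / α)
      rw [Complex.sub_re, Complex.one_re]
      linarith
    have hlt : ∀ z ∈ ball (0 : ℂ) 1, 0 < (1 - z / α).re := by
      intro z hz
      have h1 : ‖z / α‖ < 1 := by
        rw [norm_div, div_lt_one (by positivity)]
        have : ‖z‖ < 1 := by simpa using hz
        linarith
      have h2 := Complex.re_le_norm (z / α)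
      rw [Complex.sub_re, Complex.one_re]
      linarith
    have hs : DiffContOnCl ℂ (fun z => (1 - z / α) ^ (((2 : ℕ) : ℂ)⁻¹)) (ball (0 : ℂ) 1) := by
      refine ⟨?_, ?_⟩
      · intro z hz
        apply DifferentiableAt.differentiableWithinAt
        have hsl : (1 - z / α) ∈ slitPlane := Or.inl (hlt z hz)
        exact DifferentiableAt.cpow (by fun_prop) (by fun_prop) hsl
      · rw [closure_ball _ one_ne_zero]
        intro z hz
        apply ContinuousAt.continuousWithinAt
        have h1 : ContinuousAt (fun w : ℂ => w ^ (((2 : ℕ) : ℂ)⁻¹)) (1 - z / α) :=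
          Complex.continuousAt_cpow_const_of_re_pos (Or.inl (hle z hz)) (by norm_num)
        exact ContinuousAt.comp (f := fun z : ℂ => 1 - z / α) h1 (by fun_prop)
    refine hf_sq (fun z => (-α) ^ (((2 : ℕ) : ℂ)⁻¹) * (1 - z / α) ^ (((2 : ℕ) : ℂ)⁻¹)) _
      ((diffContOnCl_const (c := (-α) ^ (((2 : ℕ) : ℂ)⁻¹))).smul hs) ?_
    intro z hz
    show z - α = _
    calc z - α = (-α) * (1 - z / α) := by field_simp; ring
      _ = ((-α) ^ (((2 : ℕ) : ℂ)⁻¹) * (-α) ^ (((2 : ℕ) : ℂ)⁻¹)) *
        ((1 - z / α) ^ (((2 : ℕ) : ℂ)⁻¹) * (1 - z / α) ^ (((2 : ℕ) : ℂ)⁻¹)) := by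
          rw [csqrt_sq, csqrt_sq]
      _ = _ := by ring

theorem hf_poly (p : Polynomial ℂ) : HF (fun z => p.eval z) := by
  have h := IsAlgClosed.splits p
  have e := h.eq_prod_roots
  have key : ∀ s : Multiset ℂ, HF (fun z => ((s.map (fun a => Polynomial.X - Polynomial.C a)).prod).eval z) := by
    intro s
    induction s using Multiset.induction with
    | empty => simpa using hf_const 1
    | cons a s ih =>
      have := hf_mul (hf_lin a) ih
      simpa using this
  have := hf_mul (hf_const p.leadingCoeff) (key p.roots)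
  rw [e]
  simpa using this

end Pool.Agent.Y252.RA
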