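import Mathlib

/-!
Fourier coefficients of a product of two square integrable functions on the circle.
-/

set_option autoImplicit false

namespace Pool.Agent.Y252.RA

open Complex MeasureTheory Set Filter Topology AddCircle
open scoped Real ComplexConjugate InnerProductSpace

instance factTwoPi : Fact (0 < 2 * π) := ⟨Real.two_pi_pos⟩

lemma fmul (m n : ℤ) (x : AddCircle (2 * π)) : fourier (m + n) x = fourier m x * fourier n x :=
  fourier_add

theorem coef_mul (f g : Lp ℂ 2 (@haarAddCircle (2 * π) _)) (n : ℤ) :
    HasSum (fun k : ℤ => fourierCoeff f (n - k) * fourierCoeff g k)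
      (fourierCoeff (fun x => f x * g x) n) := by
  have hF : MemLp (fun x => conj (f x) * fourier n x) 2 (@haarAddCircle (2 * π) _) := by
    refine (Lp.memLp f).congr_norm ?_ ?_
    · refine AEStronglyMeasurable.mul ?_ (map_continuous (fourier n)).aestronglyMeasurable
      exact Complex.continuous_conj.comp_aestronglyMeasurable (Lp.aestronglyMeasurable f)
    · refine Filter.Eventually.of_forall fun x => ?_
      rw [norm_mul, Complex.norm_conj, fourier_apply, Circle.norm_coe, mul_one]
  have h := HilbertBasis.hasSum_inner_mul_inner (@fourierBasis (2 * π) _) (hF.toLp _) g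
  have e1 : ∀ i : ℤ, ⟪(@fourierBasis (2 * π) _) i, g⟫_ℂ = fourierCoeff g i := by
    intro i
    rw [← fourierBasis_repr, HilbertBasis.repr_apply_apply]
  have e2 : ∀ i : ℤ, ⟪hF.toLp _, (@fourierBasis (2 * π) _) i⟫_ℂ = fourierCoeff f (n - i) := by
    intro i
    rw [← inner_conj_symm, ← HilbertBasis.repr_apply_apply, fourierBasis_repr]
    unfold fourierCoeff
    rw [← integral_conj]
    refine integral_congr_ae ?_
    filter_upwards [hF.coeFn_toLp] with x hx
    rw [hx]
    simp only [smul_eq_mul, map_mul, Complex.conj_conj]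
    rw [show (-(n - i)) = i + (-n) by ring, fmul, fourier_neg, fourier_neg, Complex.conj_conj]
    ring
  have e3 : ⟪hF.toLp _, g⟫_ℂ = fourierCoeff (fun x => f x * g x) n := by
    rw [L2.inner_def]
    unfold fourierCoeff
    refine integral_congr_ae ?_
    filter_upwards [hF.coeFn_toLp] with x hx
    rw [hx]
    simp only [smul_eq_mul, RCLike.inner_apply, map_mul, Complex.conj_conj]
    rw [fourier_neg]
    ring
  rw [e3] at h
  have e4 : (fun k : ℤ => fourierCoeff f (n - k) * fourierCoeff g k) =
      fun i => ⟪hF.toLp _, (@fourierBasis (2 * π) _) i⟫_ℂ * ⟪(@fourierBasis (2 * π) _) i, g⟫_ℂ := by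
    funext i
    rw [e1, e2]
  rw [e4]
  exact h

end Pool.Agent.Y252.RA
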