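import Pool.Agent.Y252.RA.FacA
import Pool.Agent.Y252.RA.FacB

/-!
Coefficients of the factors of a polynomial.
-/

set_option autoImplicit false

namespace Pool.Agent.Y252.RA

open Complex MeasureTheory Set Filter Topology AddCircle
open scoped Real ComplexConjugate InnerProductSpace

lemma toC (x : ℝ) : ((toCircle (x : AddCircle (2 * π)) : Circle) : ℂ) = exp (x * I) := by
  rw [toCircle_apply_mk, Circle.coe_exp]
  congr 1
  have : (2 * π / (2 * π)) = 1 := div_self (by positivity)
  rw [this, one_mul]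

lemma fou (n : ℤ) (x : ℝ) : (fourier n (x : AddCircle (2 * π)) : ℂ) = exp (n * x * I) := by
  rw [fourier_coe_apply]
  congr 1
  have : (π : ℂ) ≠ 0 := by exact_mod_cast Real.pi_ne_zero
  push_cast
  field_simp

/-- restriction of a function of the disc algebra to the circle -/
noncomputable def res (a : ℂ → ℂ) (ha : DiffContOnCl ℂ a (Metric.ball 0 1)) : C(AddCircle (2 * π), ℂ) where
  toFun x := a (toCircle x)
  continuous_toFun := by
    have h1 : ContinuousOn a (Metric.closedBall 0 1) := by
      have := ha.continuousOn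
      rwa [closure_ball _ one_ne_zero] at this
    refine h1.comp_continuous (by fun_prop) ?_
    intro x
    rw [mem_closedBall_zero_iff, Circle.norm_coe]

lemma coef_neg (a : ℂ → ℂ) (ha : DiffContOnCl ℂ a (Metric.ball 0 1)) (n : ℤ) (hn : n < 0) :
    fourierCoeff (res a ha) n = 0 := by
  rw [fourierCoeff_eq_intervalIntegral _ n 0]
  obtain ⟨k, hk⟩ : ∃ k : ℕ, n = -((k : ℤ) + 1) := ⟨(-n - 1).toNat, by omega⟩
  have hg : DiffContOnCl ℂ (fun z : ℂ => z ^ (k + 1) * a z) (Metric.ball 0 |1|) := by
    rw [abs_one]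
    have h1 : DiffContOnCl ℂ (fun z : ℂ => z ^ (k + 1)) (Metric.ball 0 1) :=
      (Differentiable.diffContOnCl (by fun_prop))
    exact h1.smul ha
  have h2 := hg.circleAverage
  rw [Real.circleAverage] at h2
  have e : ∀ x : ℝ, (fourier (-n) (x : AddCircle (2 * π)) : ℂ) • (res a ha) (x : AddCircle (2 * π)) =
      (fun z : ℂ => z ^ (k + 1) * a z) (circleMap 0 1 x) := by
    intro x
    show _ • a (toCircle (x : AddCircle (2 * π))) = _
    rw [toC, fou, circleMap_zero, hk]
    simp only [Complex.ofReal_one, one_mul, smul_eq_mul]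
    rw [← Complex.exp_nat_mul]
    congr 2
    push_cast
    ring
  have e2 : ∫ x in (0 : ℝ)..(0 + 2 * π), (fourier (-n) (x : AddCircle (2 * π)) : ℂ) •
      (res a ha) (x : AddCircle (2 * π)) =
      ∫ x in (0 : ℝ)..(2 * π), (fun z : ℂ => z ^ (k + 1) * a z) (circleMap 0 1 x) := by
    rw [zero_add]
    exact intervalIntegral.integral_congr fun x _ => e x
  rw [e2, one_div, h2]
  simp

lemma coef_toLp (a : C(AddCircle (2 * π), ℂ)) (n : ℤ) :
    fourierCoeff (ContinuousMap.toLp (E := ℂ) 2 (@haarAddCircle (2 * π) _) ℂ a) n = fourierCoeff a n :=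
  fourierCoeff_toLp a n

lemma bessel (a : C(AddCircle (2 * π), ℂ)) (A : ℝ) (hA : ∫ x, ‖a x‖ ^ 2 ∂haarAddCircle ≤ A)
    (s : Finset ℤ) : ∑ k ∈ s, ‖fourierCoeff a k‖ ^ 2 ≤ A := by
  have h := hasSum_sq_fourierCoeff (ContinuousMap.toLp (E := ℂ) 2 (@haarAddCircle (2 * π) _) ℂ a)
  have h1 := sum_le_hasSum s (fun i _ => by positivity) h
  simp only [coef_toLp] at h1
  refine h1.trans (le_trans (le_of_eq ?_) hA)
  refine integral_congr_ae ?_
  filter_upwards [ContinuousMap.coeFn_toLp (p := 2) (𝕜 := ℂ) (@haarAddCircle (2 * π) _) a] with x hx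
  rw [hx]

theorem poly_coef (p : Polynomial ℂ) : ∃ α β : ℤ → ℂ, (∀ k < 0, α k = 0) ∧ (∀ k < 0, β k = 0) ∧
    (∀ s : Finset ℤ, ∑ k ∈ s, ‖α k‖ ^ 2 ≤ ∫ x : AddCircle (2 * π), ‖p.eval (toCircle x : ℂ)‖ ∂haarAddCircle) ∧
    (∀ s : Finset ℤ, ∑ k ∈ s, ‖β k‖ ^ 2 ≤ ∫ x : AddCircle (2 * π), ‖p.eval (toCircle x : ℂ)‖ ∂haarAddCircle) ∧
    ∀ n : ℕ, p.coeff n = ∑ k ∈ Finset.range (n + 1), α (n - k) * β k := by
  obtain ⟨a, b, ha, hb, h1, h2, h3⟩ := hf_poly p
  have hc : ∀ x : AddCircle (2 * π), ‖((toCircle x : Circle) : ℂ)‖ = 1 := fun x => Circle.norm_coe _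
  refine ⟨fourierCoeff (res a ha), fourierCoeff (res b hb), fun k hk => coef_neg a ha k hk,
    fun k hk => coef_neg b hb k hk, fun s => bessel _ _ (le_of_eq ?_) s,
    fun s => bessel _ _ (le_of_eq ?_) s, ?_⟩
  · refine integral_congr_ae (Filter.Eventually.of_forall fun x => ?_)
    exact h2 _ (hc x)
  · refine integral_congr_ae (Filter.Eventually.of_forall fun x => ?_)
    exact h3 _ (hc x)
  · intro n
    have h := coef_mul (ContinuousMap.toLp (E := ℂ) 2 (@haarAddCircle (2 * π) _) ℂ (res a ha))
      (ContinuousMap.toLp (E := ℂ) 2 (@haarAddCircle (2 * π) _) ℂ (res b hb)) n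
    simp only [coef_toLp] at h
    have e1 : fourierCoeff (fun x => (ContinuousMap.toLp (E := ℂ) 2 (@haarAddCircle (2 * π) _) ℂ (res a ha)) x *
        (ContinuousMap.toLp (E := ℂ) 2 (@haarAddCircle (2 * π) _) ℂ (res b hb)) x) n = p.coeff n := by
      have e2 : fourierCoeff (fun x => (ContinuousMap.toLp (E := ℂ) 2 (@haarAddCircle (2 * π) _) ℂ (res a ha)) x *
        (ContinuousMap.toLp (E := ℂ) 2 (@haarAddCircle (2 * π) _) ℂ (res b hb)) x) n =
          fourierCoeff (fun x : AddCircle (2 * π) => p.eval (toCircle x : ℂ)) n := by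
        refine congrFun (fourierCoeff_congr_ae ?_) n
        filter_upwards [ContinuousMap.coeFn_toLp (p := 2) (𝕜 := ℂ) (@haarAddCircle (2 * π) _) (res a ha),
          ContinuousMap.coeFn_toLp (p := 2) (𝕜 := ℂ) (@haarAddCircle (2 * π) _) (res b hb)] with x hx hy
        rw [hx, hy]
        exact (h1 _ (hc x)).symm
      rw [e2]
      have e3 : (fun x : AddCircle (2 * π) => p.eval (toCircle x : ℂ)) =
          ∑ i ∈ Finset.range (p.natDegree + 1), (fun x => p.coeff i * (fourier (i : ℤ) x : ℂ)) := by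
        funext x
        rw [Polynomial.eval_eq_sum_range, Finset.sum_apply]
        refine Finset.sum_congr rfl fun i _ => ?_
        congr 1
        rw [fourier_apply, natCast_zsmul, toCircle_nsmul, Circle.coe_pow]
      rw [e3, fourierCoeff.sum]
      · have e4 : ∀ i ∈ Finset.range (p.natDegree + 1),
            fourierCoeff (fun x : AddCircle (2 * π) => p.coeff i * (fourier (i : ℤ) x : ℂ)) (n : ℤ) =
              if i = n then p.coeff i else 0 := by
          intro i _
          rw [fourierCoeff.const_mul, fourierCoeff_fourier]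
          by_cases hin : i = n
          · subst hin; simp
          · rw [if_neg hin, Pi.single_apply, if_neg, mul_zero]
            exact fun h => hin (by exact_mod_cast h.symm)
        rw [Finset.sum_apply, Finset.sum_congr rfl e4, Finset.sum_ite_eq']
        by_cases hn : n ∈ Finset.range (p.natDegree + 1)
        · rw [if_pos hn]
        · rw [if_neg hn, Polynomial.coeff_eq_zero_of_natDegree_lt]
          rw [Finset.mem_range] at hn
          omega
      · intro i _
        have hcn : Continuous (fun x : AddCircle (2 * π) => p.coeff i * (fourier (i : ℤ) x : ℂ)) := by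
          fun_prop
        exact hcn.integrable_of_hasCompactSupport (HasCompactSupport.of_compactSpace _)
    rw [e1] at h
    have hs : HasSum (fun k : ℤ => fourierCoeff (res a ha) (n - k) * fourierCoeff (res b hb) k)
        (∑ k ∈ (Finset.range (n + 1)).map Nat.castEmbedding,
          fourierCoeff (res a ha) (n - k) * fourierCoeff (res b hb) k) := by
      refine hasSum_sum_of_ne_finset_zero ?_
      intro k hk
      rcases lt_or_ge k 0 with h0 | h0
      · rw [coef_neg b hb k h0, mul_zero]
      · rw [coef_neg a ha (n - k), zero_mul]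
        by_contra h5
        apply hk
        rw [Finset.mem_map]
        refine ⟨k.toNat, ?_, ?_⟩
        · rw [Finset.mem_range]; omega
        · simp only [Nat.castEmbedding_apply]; omega
    rw [Finset.sum_map] at hs
    exact (h.unique hs)

end Pool.Agent.Y252.RA
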