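import Pool.Agent.Y252.RA.FacC

/-!
The theorem of F. and M. Riesz.
-/

set_option autoImplicit false

namespace Pool.Agent.Y252.RA

open Complex MeasureTheory Set Filter Topology AddCircle
open scoped Real ComplexConjugate InnerProductSpace

/-- the functional `z ^ n ↦ m n` on trigonometric polynomials is bounded by `C` times the
maximum norm -/
def Bd (m : ℤ → ℂ) (C : ℝ) : Prop := ∀ (J : ℕ) (e : ℕ → ℤ) (a : ℕ → ℂ) (M : ℝ),
  (∀ x : ℝ, ‖∑ j ∈ Finset.range J, a j * exp (e j * x * I)‖ ≤ M) →
    ‖∑ j ∈ Finset.range J, a j * m (e j)‖ ≤ C * M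

/-- normalized binomial coefficients -/
noncomputable def cc (N j : ℕ) : ℝ := ((2 * N).choose j : ℝ) / ((2 * N).choose N : ℝ)

lemma cc_nonneg (N j : ℕ) : 0 ≤ cc N j := by unfold cc; positivity

lemma cc_self (N : ℕ) : cc N N = 1 := by
  unfold cc
  have h : 0 < (2 * N).choose N := Nat.choose_pos (by omega)
  exact div_self (by positivity)

lemma cc_tendsto (k : ℕ) : Tendsto (fun N : ℕ => cc N (N - k)) atTop (𝓝 1) := by
  induction k with
  | zero =>
    simp only [Nat.sub_zero, cc_self]
    exact tendsto_const_nhds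
  | succ k ih =>
    have h1 : Tendsto (fun N : ℕ => ((N : ℝ) - k) / ((N : ℝ) + (k + 1))) atTop (𝓝 1) := by
      have h2 : Tendsto (fun N : ℕ => 1 - ((2 * k + 1 : ℕ) : ℝ) / ((N : ℝ) + (k + 1))) atTop (𝓝 (1 - 0)) := by
        refine Tendsto.sub tendsto_const_nhds ?_
        refine Tendsto.div_atTop tendsto_const_nhds ?_
        exact tendsto_atTop_add_const_right _ _ tendsto_natCast_atTop_atTop
      rw [sub_zero] at h2
      refine h2.congr' ?_
      filter_upwards [eventually_gt_atTop 0] with N hN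
      have : (0 : ℝ) < (N : ℝ) + (k + 1) := by positivity
      push_cast
      field_simp
      ring
    have h3 := h1.mul ih
    rw [one_mul] at h3
    refine h3.congr' ?_
    filter_upwards [eventually_gt_atTop (k + 1)] with N hN
    have e : ((2 * N).choose (N - k) : ℝ) * ((N : ℝ) - k) = ((2 * N).choose (N - (k + 1)) : ℝ) * ((N : ℝ) + (k + 1)) := by
      have h4 := Nat.choose_succ_right_eq (2 * N) (N - (k + 1))
      have h5 : N - (k + 1) + 1 = N - k := by omega
      have h6 : 2 * N - (N - (k + 1)) = N + (k + 1) := by omega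
      rw [h5, h6] at h4
      have h7 : (((2 * N).choose (N - k) * (N - k) : ℕ) : ℝ) =
        (((2 * N).choose (N - (k + 1)) * (N + (k + 1)) : ℕ) : ℝ) := by rw [h4]
      push_cast [Nat.cast_sub (show k ≤ N by omega)] at h7
      exact h7
    have hp : (0 : ℝ) < (N : ℝ) + (k + 1) := by positivity
    unfold cc
    have hq : (0 : ℝ) < ((2 * N).choose N : ℝ) := by
      have h : 0 < (2 * N).choose N := Nat.choose_pos (by omega)
      positivity
    field_simp
    linarith [e]

/-- the kernel -/
lemma kernel (N : ℕ) (z : ℂ) (hz : ‖z‖ = 1) :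
    ∑ j ∈ Finset.range (2 * N + 1), (cc N j : ℂ) * z ^ ((j : ℤ) - N) =
      ((‖1 + z‖ ^ (2 * N) / ((2 * N).choose N : ℝ) : ℝ) : ℂ) := by
  have hz0 : z ≠ 0 := by
    intro h
    rw [h] at hz
    simp at hz
  have h1 : ∑ j ∈ Finset.range (2 * N + 1), (cc N j : ℂ) * z ^ ((j : ℤ) - N) =
      (1 + z) ^ (2 * N) * (z ^ N)⁻¹ / ((2 * N).choose N : ℂ) := by
    rw [add_comm 1 z, add_pow, Finset.sum_mul, Finset.sum_div]
    refine Finset.sum_congr rfl fun j _ => ?_
    rw [zpow_sub₀ hz0, zpow_natCast, zpow_natCast]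
    unfold cc
    push_cast
    rw [one_pow]
    ring
  rw [h1]
  have h2 : (1 + z) * z⁻¹ = conj (1 + z) := by
    have h3 : z * conj z = 1 := by
      rw [Complex.mul_conj, Complex.normSq_eq_norm_sq, hz]; simp
    rw [map_add, map_one]
    field_simp
    linear_combination -h3
  have h4 : (1 + z) ^ (2 * N) * (z ^ N)⁻¹ = ((‖1 + z‖ ^ (2 * N) : ℝ) : ℂ) := by
    have h5 : (1 + z) ^ (2 * N) * (z ^ N)⁻¹ = ((1 + z) * ((1 + z) * z⁻¹)) ^ N := by
      rw [mul_pow, mul_pow, inv_pow, two_mul, pow_add]
      ring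
    rw [h5, h2, Complex.mul_conj, Complex.normSq_eq_norm_sq]
    push_cast
    rw [pow_mul]
  rw [h4]
  push_cast
  rfl

lemma int_fourier (n : ℤ) : ∫ x : AddCircle (2 * π), (fourier n x : ℂ) ∂haarAddCircle =
    if n = 0 then 1 else 0 := by
  have h := fourierCoeff_fourier (T := 2 * π) n
  have h1 := congrFun h 0
  unfold fourierCoeff at h1
  simp only [neg_zero, fourier_zero, one_smul] at h1
  rw [h1, Pi.single_apply]
  by_cases hn : n = 0
  · rw [if_pos hn, if_pos hn.symm]
  · rw [if_neg hn, if_neg (fun h => hn h.symm)]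

lemma fsub (n : ℤ) (y t : AddCircle (2 * π)) :
    (fourier n (y - t) : ℂ) = fourier n y * fourier (-n) t := by
  have h : n • (y - t) = n • y + (-n) • t := by
    rw [zsmul_sub, neg_zsmul]
    abel
  rw [fourier_apply, fourier_apply, fourier_apply, h, toCircle_add, Circle.coe_mul]

/-- `L¹` bound -/
lemma l1_bound (m : ℤ → ℂ) (C : ℝ) (h : Bd m C) (N : ℕ) :
    ∫ x : AddCircle (2 * π), ‖∑ j ∈ Finset.range (2 * N + 1),
      (cc N j : ℂ) * m ((j : ℤ) - N) * (fourier ((N : ℤ) - j) x : ℂ)‖ ∂haarAddCircle ≤ C := by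
  set P : AddCircle (2 * π) → ℂ := fun x => ∑ j ∈ Finset.range (2 * N + 1),
      (cc N j : ℂ) * m ((j : ℤ) - N) * (fourier ((N : ℤ) - j) x : ℂ) with hP
  have hPc : Continuous P := by
    rw [hP]
    fun_prop
  set u : AddCircle (2 * π) → ℂ := fun x => conj (P x) * ((‖P x‖⁻¹ : ℝ) : ℂ) with hu
  have hum : Measurable u := by
    have h1 : Measurable P := hPc.measurable
    have h2 : Measurable (fun x => conj (P x)) := (Complex.continuous_conj.comp hPc).measurable
    exact h2.mul (Complex.measurable_ofReal.comp h1.norm.inv)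
  have hu1 : ∀ x, ‖u x‖ ≤ 1 := by
    intro x
    rw [hu]
    simp only [norm_mul, Complex.norm_conj, Complex.norm_real, norm_inv, norm_norm]
    by_cases h0 : ‖P x‖ = 0
    · rw [h0]; simp
    · rw [mul_inv_cancel₀ h0]
  have hPu : ∀ x, P x * u x = ((‖P x‖ : ℝ) : ℂ) := by
    intro x
    rw [hu]
    by_cases h0 : ‖P x‖ = 0
    · have h1 : P x = 0 := norm_eq_zero.mp h0
      simp [h1]
    · show P x * (conj (P x) * ((‖P x‖⁻¹ : ℝ) : ℂ)) = _
      rw [← mul_assoc, Complex.mul_conj, Complex.normSq_eq_norm_sq, ← Complex.ofReal_mul]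
      congr 1
      field_simp
  have hui : Integrable u (@haarAddCircle (2 * π) _) := by
    refine Integrable.of_bound hum.aestronglyMeasurable 1 (Filter.Eventually.of_forall hu1)
  have hfi : ∀ n : ℤ, Integrable (fun x => (fourier n x : ℂ) * u x) (@haarAddCircle (2 * π) _) := by
    intro n
    have := hui.fourier_smul n
    simpa using this
  set U : ℕ → ℂ := fun j => ∫ x : AddCircle (2 * π), (fourier ((N : ℤ) - j) x : ℂ) * u x ∂haarAddCircle with hU
  have e1 : ((∫ x : AddCircle (2 * π), ‖P x‖ ∂haarAddCircle : ℝ) : ℂ) =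
      ∑ j ∈ Finset.range (2 * N + 1), (cc N j * U j) * m ((j : ℤ) - N) := by
    rw [← integral_complex_ofReal]
    have : ∀ x, ((‖P x‖ : ℝ) : ℂ) = ∑ j ∈ Finset.range (2 * N + 1),
        ((cc N j : ℂ) * m ((j : ℤ) - N)) * ((fourier ((N : ℤ) - j) x : ℂ) * u x) := by
      intro x
      rw [← hPu x, hP]
      show (∑ j ∈ Finset.range (2 * N + 1), _) * u x = _
      rw [Finset.sum_mul]
      exact Finset.sum_congr rfl fun j _ => by ring
    rw [integral_congr_ae (Filter.Eventually.of_forall this), integral_finsetSum]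
    · refine Finset.sum_congr rfl fun j _ => ?_
      rw [integral_const_mul, hU]
      ring
    · intro j _
      exact (hfi _).const_mul _
  have hb := h (2 * N + 1) (fun j => (j : ℤ) - N) (fun j => cc N j * U j) 1 ?_
  · rw [← e1, mul_one] at hb
    rw [Complex.norm_real] at hb
    exact (le_abs_self _).trans hb
  · intro x
    set y : AddCircle (2 * π) := (x : AddCircle (2 * π)) with hy
    have e2 : ∑ j ∈ Finset.range (2 * N + 1), (cc N j * U j) * exp ((((j : ℤ) - N : ℤ) : ℂ) * x * I) =
        ∫ t : AddCircle (2 * π), (∑ j ∈ Finset.range (2 * N + 1), (cc N j : ℂ) *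
          ((toCircle (y - t) : Circle) : ℂ) ^ ((j : ℤ) - N)) * u t ∂haarAddCircle := by
      have e3 : ∀ t : AddCircle (2 * π), (∑ j ∈ Finset.range (2 * N + 1), (cc N j : ℂ) *
          ((toCircle (y - t) : Circle) : ℂ) ^ ((j : ℤ) - N)) * u t =
          ∑ j ∈ Finset.range (2 * N + 1), ((cc N j : ℂ) * exp ((((j : ℤ) - N : ℤ) : ℂ) * x * I)) *
            ((fourier ((N : ℤ) - j) t : ℂ) * u t) := by
        intro t
        rw [Finset.sum_mul]
        refine Finset.sum_congr rfl fun j _ => ?_
        have e4 : ((toCircle (y - t) : Circle) : ℂ) ^ ((j : ℤ) - N) =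
            exp ((((j : ℤ) - N : ℤ) : ℂ) * x * I) * (fourier ((N : ℤ) - j) t : ℂ) := by
          have e5 : ((toCircle (y - t) : Circle) : ℂ) ^ ((j : ℤ) - N) = fourier ((j : ℤ) - N) (y - t) := by
            rw [fourier_apply, toCircle_zsmul, Circle.coe_zpow]
          rw [e5]
          rw [fsub, hy, fou, neg_sub]
        rw [e4]
        ring
      rw [integral_congr_ae (Filter.Eventually.of_forall e3), integral_finsetSum]
      · refine Finset.sum_congr rfl fun j _ => ?_
        rw [integral_const_mul, hU]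
        ring
      · intro j _
        exact (hfi _).const_mul _
    rw [e2]
    have hK : ∀ t : AddCircle (2 * π), (∑ j ∈ Finset.range (2 * N + 1), (cc N j : ℂ) *
        ((toCircle (y - t) : Circle) : ℂ) ^ ((j : ℤ) - N)) =
        ((‖1 + ((toCircle (y - t) : Circle) : ℂ)‖ ^ (2 * N) / ((2 * N).choose N : ℝ) : ℝ) : ℂ) :=
      fun t => kernel N _ (Circle.norm_coe _)
    set K : AddCircle (2 * π) → ℝ := fun t =>
      ‖1 + ((toCircle (y - t) : Circle) : ℂ)‖ ^ (2 * N) / ((2 * N).choose N : ℝ) with hKd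
    have hKc : Continuous K := by
      rw [hKd]
      fun_prop
    have hK0 : ∀ t, 0 ≤ K t := fun t => by rw [hKd]; positivity
    have hKi : Integrable K (@haarAddCircle (2 * π) _) :=
      hKc.integrable_of_hasCompactSupport (HasCompactSupport.of_compactSpace _)
    have hKint : ∫ t, K t ∂(@haarAddCircle (2 * π) _) = 1 := by
      have e7 : ((∫ t, K t ∂(@haarAddCircle (2 * π) _) : ℝ) : ℂ) = 1 := by
        rw [← integral_complex_ofReal]
        have e8 : ∀ t : AddCircle (2 * π), ((K t : ℝ) : ℂ) = ∑ j ∈ Finset.range (2 * N + 1),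
            ((cc N j : ℂ) * (fourier ((j : ℤ) - N) y : ℂ)) * (fourier ((N : ℤ) - j) t : ℂ) := by
          intro t
          rw [hKd]
          show ((‖1 + ((toCircle (y - t) : Circle) : ℂ)‖ ^ (2 * N) / ((2 * N).choose N : ℝ) : ℝ) : ℂ) = _
          rw [← kernel N _ (Circle.norm_coe _)]
          refine Finset.sum_congr rfl fun j _ => ?_
          rw [mul_assoc]
          congr 1
          have e5 : ((toCircle (y - t) : Circle) : ℂ) ^ ((j : ℤ) - N) = fourier ((j : ℤ) - N) (y - t) := by
            rw [fourier_apply, toCircle_zsmul, Circle.coe_zpow]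
          rw [e5, fsub, neg_sub]
        rw [integral_congr_ae (Filter.Eventually.of_forall e8), integral_finsetSum]
        · have e9 : ∀ j ∈ Finset.range (2 * N + 1), ∫ t : AddCircle (2 * π),
              ((cc N j : ℂ) * (fourier ((j : ℤ) - N) y : ℂ)) * (fourier ((N : ℤ) - j) t : ℂ) ∂haarAddCircle =
              if j = N then 1 else 0 := by
            intro j _
            rw [integral_const_mul, int_fourier]
            by_cases hj : j = N
            · subst hj
              simp [cc_self]
            · rw [if_neg (by omega), if_neg hj, mul_zero]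
          rw [Finset.sum_congr rfl e9, Finset.sum_ite_eq', if_pos]
          rw [Finset.mem_range]; omega
        · intro j _
          have hcn : Continuous (fun t : AddCircle (2 * π) =>
            ((cc N j : ℂ) * (fourier ((j : ℤ) - N) y : ℂ)) * (fourier ((N : ℤ) - j) t : ℂ)) := by
            fun_prop
          exact hcn.integrable_of_hasCompactSupport (HasCompactSupport.of_compactSpace _)
      exact_mod_cast e7
    calc ‖∫ t : AddCircle (2 * π), (∑ j ∈ Finset.range (2 * N + 1), (cc N j : ℂ) *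
          ((toCircle (y - t) : Circle) : ℂ) ^ ((j : ℤ) - N)) * u t ∂haarAddCircle‖
        ≤ ∫ t : AddCircle (2 * π), K t ∂haarAddCircle := by
          refine norm_integral_le_of_norm_le hKi (Filter.Eventually.of_forall fun t => ?_)
          rw [hK t, norm_mul, Complex.norm_real, Real.norm_of_nonneg (hK0 t)]
          exact mul_le_of_le_one_right (hK0 t) (hu1 t)
      _ = 1 := hKint

end Pool.Agent.Y252.RA
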