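import Pool.Agent.Y252.RA.FacD

/-!
The theorem of F. and M. Riesz, conclusion.
-/

set_option autoImplicit false

namespace Pool.Agent.Y252.RA

open Complex MeasureTheory Set Filter Topology AddCircle
open scoped Real ComplexConjugate InnerProductSpace

/-- the `N`-th smoothed sequence has factors with bounded square sums -/
lemma step (m : ℤ → ℂ) (C : ℝ) (h : Bd m C) (h0 : ∀ n : ℤ, 1 ≤ n → m n = 0) (N : ℕ) :
    ∃ α β : ℤ → ℂ, (∀ k < 0, α k = 0) ∧ (∀ k < 0, β k = 0) ∧
    (∀ s : Finset ℤ, ∑ k ∈ s, ‖α k‖ ^ 2 ≤ C) ∧ (∀ s : Finset ℤ, ∑ k ∈ s, ‖β k‖ ^ 2 ≤ C) ∧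
    ∀ n : ℕ, n ≤ N → (cc N (N - n) : ℂ) * m (-n) = ∑ k ∈ Finset.range (n + 1), α (n - k) * β k := by
  set p : Polynomial ℂ := ∑ k ∈ Finset.range (N + 1),
    Polynomial.C ((cc N (N - k) : ℂ) * m (-k)) * Polynomial.X ^ k with hp
  obtain ⟨α, β, hα, hβ, h1, h2, h3⟩ := poly_coef p
  have hle : ∫ x : AddCircle (2 * π), ‖p.eval (toCircle x : ℂ)‖ ∂haarAddCircle ≤ C := by
    refine le_trans (le_of_eq ?_) (l1_bound m C h N)
    refine integral_congr_ae (Filter.Eventually.of_forall fun x => ?_)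
    show ‖p.eval (toCircle x : ℂ)‖ = ‖_‖
    congr 1
    rw [hp, Polynomial.eval_finsetSum]
    have e1 : 2 * N + 1 = (N + 1) + N := by ring
    rw [e1]
    have esplit := Finset.sum_range_add (fun j : ℕ => (cc N j : ℂ) * m ((j : ℤ) - N) *
      (fourier ((N : ℤ) - j) x : ℂ)) (N + 1) N
    rw [esplit]
    have e2 : ∑ j ∈ Finset.range N, (cc N (N + 1 + j) : ℂ) * m (((N + 1 + j : ℕ) : ℤ) - N) *
        (fourier ((N : ℤ) - ((N + 1 + j : ℕ) : ℤ)) x : ℂ) = 0 := by
      refine Finset.sum_eq_zero fun j _ => ?_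
      rw [h0 _ (by push_cast; omega), mul_zero, zero_mul]
    rw [e2, add_zero, ← Finset.sum_range_reflect]
    refine Finset.sum_congr rfl fun j hj => ?_
    rw [Finset.mem_range] at hj
    have e3 : N + 1 - 1 - j = N - j := by omega
    rw [e3]
    have e4 : N - (N - j) = j := by omega
    have e5 : (-(((N - j : ℕ) : ℤ))) = (j : ℤ) - N := by omega
    have e6 : (N : ℤ) - j = ((N - j : ℕ) : ℤ) := by omega
    rw [Polynomial.eval_mul, Polynomial.eval_C, Polynomial.eval_pow, Polynomial.eval_X, e4, e5, e6]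
    congr 1
    rw [fourier_apply, natCast_zsmul, toCircle_nsmul, Circle.coe_pow]
  refine ⟨α, β, hα, hβ, fun s => (h1 s).trans hle, fun s => (h2 s).trans hle, ?_⟩
  intro n hn
  rw [← h3 n, hp, Polynomial.finsetSum_coeff]
  simp only [Polynomial.coeff_C_mul, Polynomial.coeff_X_pow]
  rw [Finset.sum_eq_single n]
  · simp
  · intro k _ hk
    rw [if_neg (fun h => hk h.symm), mul_zero]
  · intro hn'
    exact absurd (Finset.mem_range.mpr (by omega)) hn'

lemma ulim (𝒰 : Ultrafilter ℕ) (f : ℕ → ℂ) (R : ℝ) (hf : ∀ n, ‖f n‖ ≤ R) :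
    ∃ x : ℂ, Tendsto f 𝒰 (𝓝 x) := by
  have hK : IsCompact (Metric.closedBall (0 : ℂ) R) := isCompact_closedBall 0 R
  obtain ⟨x, _, hx⟩ := hK.ultrafilter_le_nhds (𝒰.map f) (by
    rw [le_principal_iff, Ultrafilter.coe_map, mem_map]
    exact Filter.Eventually.of_forall fun n => by simpa using hf n)
  exact ⟨x, hx⟩

theorem fmr_coef (m : ℤ → ℂ) (C : ℝ) (h : Bd m C) (h0 : ∀ n : ℤ, 1 ≤ n → m n = 0) :
    ∃ α β : ℤ → ℂ, (∀ k < 0, α k = 0) ∧ (∀ k < 0, β k = 0) ∧
    (∀ s : Finset ℤ, ∑ k ∈ s, ‖α k‖ ^ 2 ≤ C) ∧ (∀ s : Finset ℤ, ∑ k ∈ s, ‖β k‖ ^ 2 ≤ C) ∧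
    ∀ n : ℕ, m (-n) = ∑ k ∈ Finset.range (n + 1), α (n - k) * β k := by
  choose A B hA hB hA2 hB2 hAB using fun N => step m C h h0 N
  set 𝒰 : Ultrafilter ℕ := Filter.hyperfilter ℕ with h𝒰
  have hle : (𝒰 : Filter ℕ) ≤ atTop := by
    rw [← Nat.cofinite_eq_atTop]
    exact Filter.hyperfilter_le_cofinite
  have hbd : ∀ (D : ℕ → ℤ → ℂ), (∀ N, ∀ s : Finset ℤ, ∑ k ∈ s, ‖D N k‖ ^ 2 ≤ C) →
      ∀ k N, ‖D N k‖ ≤ Real.sqrt C := by
    intro D hD k N
    have := hD N {k}
    rw [Finset.sum_singleton] at this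
    exact Real.le_sqrt_of_sq_le this
  choose α hα using fun k : ℤ => ulim 𝒰 (fun N => A N k) _ (hbd A hA2 k)
  choose β hβ using fun k : ℤ => ulim 𝒰 (fun N => B N k) _ (hbd B hB2 k)
  refine ⟨α, β, ?_, ?_, ?_, ?_, ?_⟩
  · intro k hk
    refine tendsto_nhds_unique (hα k) ?_
    simp only [hA _ k hk]
    exact tendsto_const_nhds
  · intro k hk
    refine tendsto_nhds_unique (hβ k) ?_
    simp only [hB _ k hk]
    exact tendsto_const_nhds
  · intro s
    refine le_of_tendsto (tendsto_finsetSum s fun k _ => ((hα k).norm.pow 2)) ?_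
    exact Filter.Eventually.of_forall fun N => hA2 N s
  · intro s
    refine le_of_tendsto (tendsto_finsetSum s fun k _ => ((hβ k).norm.pow 2)) ?_
    exact Filter.Eventually.of_forall fun N => hB2 N s
  · intro n
    have h1 : Tendsto (fun N => (cc N (N - n) : ℂ) * m (-n)) 𝒰 (𝓝 (1 * m (-n))) := by
      refine Tendsto.mul_const _ ?_
      have := (Complex.continuous_ofReal.tendsto 1).comp ((cc_tendsto n).mono_left hle)
      rw [Complex.ofReal_one] at this
      exact this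
    rw [one_mul] at h1
    have h2 : Tendsto (fun N => ∑ k ∈ Finset.range (n + 1), A N (n - k) * B N k) 𝒰
        (𝓝 (∑ k ∈ Finset.range (n + 1), α (n - k) * β k)) :=
      tendsto_finsetSum _ fun k _ => (hα _).mul (hβ _)
    refine tendsto_nhds_unique h1 (h2.congr' ?_)
    have : ∀ᶠ N in (𝒰 : Filter ℕ), n ≤ N := hle (eventually_ge_atTop n)
    filter_upwards [this] with N hN
    exact (hAB N n hN).symm

lemma rf (α : ℤ → ℂ) (C : ℝ) (h : ∀ s : Finset ℤ, ∑ k ∈ s, ‖α k‖ ^ 2 ≤ C) :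
    ∃ f : Lp ℂ 2 (@haarAddCircle (2 * π) _), ∀ k, fourierCoeff f k = α k := by
  have hm : Memℓp α 2 := by
    refine memℓp_gen' (C := C) fun s => ?_
    have := h s
    simpa using this
  refine ⟨(@fourierBasis (2 * π) _).repr.symm ⟨α, hm⟩, fun k => ?_⟩
  rw [← fourierBasis_repr, LinearIsometryEquiv.apply_symm_apply]

theorem fmr (m : ℤ → ℂ) (C : ℝ) (h : Bd m C) (h0 : ∀ n : ℤ, 1 ≤ n → m n = 0) :
    ∃ g : ℝ → ℂ, IntervalIntegrable g volume (-π) π ∧
      ∀ n : ℤ, m n = ∫ x in (-π)..π, exp (n * x * I) * g x := by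
  obtain ⟨α, β, hα, hβ, hα2, hβ2, hab⟩ := fmr_coef m C h h0
  obtain ⟨f1, hf1⟩ := rf α C hα2
  obtain ⟨f2, hf2⟩ := rf β C hβ2
  have hco : ∀ n : ℤ, fourierCoeff (fun x => f1 x * f2 x) n = m (-n) := by
    intro n
    have h1 := coef_mul f1 f2 n
    simp only [hf1, hf2] at h1
    rcases lt_or_ge n 0 with hn | hn
    · have h2 : (fun k : ℤ => α (n - k) * β k) = fun _ => 0 := by
        funext k
        rcases lt_or_ge k 0 with hk | hk
        · rw [hβ k hk, mul_zero]
        · rw [hα (n - k) (by omega), zero_mul]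
      rw [h2] at h1
      rw [h0 (-n) (by omega)]
      exact h1.unique hasSum_zero
    · obtain ⟨n', rfl⟩ := Int.eq_ofNat_of_zero_le hn
      have hs : HasSum (fun k : ℤ => α (n' - k) * β k)
          (∑ k ∈ (Finset.range (n' + 1)).map Nat.castEmbedding, α (n' - k) * β k) := by
        refine hasSum_sum_of_ne_finset_zero ?_
        intro k hk
        rcases lt_or_ge k 0 with hk0 | hk0
        · rw [hβ k hk0, mul_zero]
        · rw [hα, zero_mul]
          by_contra h5
          apply hk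
          rw [Finset.mem_map]
          refine ⟨k.toNat, ?_, ?_⟩
          · rw [Finset.mem_range]; omega
          · simp only [Nat.castEmbedding_apply]; omega
      rw [Finset.sum_map] at hs
      rw [h1.unique hs, hab n']
      rfl
  have hint : Integrable (fun x => f1 x * f2 x) (@haarAddCircle (2 * π) _) :=
    (Lp.memLp f1).integrable_mul (Lp.memLp f2)
  have hint2 : Integrable (fun x => f1 x * f2 x) (volume : Measure (AddCircle (2 * π))) := by
    rw [volume_eq_smul_haarAddCircle]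
    exact hint.smul_measure ENNReal.ofReal_ne_top
  refine ⟨fun x => (f1 x * f2 x) * (1 / (2 * π) : ℝ), ?_, ?_⟩
  · have h1 := (AddCircle.measurePreserving_mk (2 * π) (-π)).integrable_comp_of_integrable hint2
    have h2 : IntervalIntegrable (fun x : ℝ => f1 (x : AddCircle (2 * π)) * f2 (x : AddCircle (2 * π)))
        volume (-π) π := by
      rw [intervalIntegrable_iff_integrableOn_Ioc_of_le (by linarith [Real.pi_pos])]
      have e : -π + 2 * π = π := by ring
      rw [e] at h1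
      exact h1
    exact h2.mul_const _
  · intro n
    have h1 := hco (-n)
    rw [neg_neg] at h1
    rw [← h1, fourierCoeff_eq_intervalIntegral _ _ (-π)]
    have e : -π + 2 * π = π := by ring
    rw [e, neg_neg, ← intervalIntegral.integral_smul]
    refine intervalIntegral.integral_congr fun x _ => ?_
    show _ = _
    rw [fou]
    simp only [smul_eq_mul, Complex.real_smul]
    push_cast
    ring

end Pool.Agent.Y252.RA
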