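import Mathlib

/-!
The logarithmic kernel `log |e^{is} - e^{it}|` and its Fourier coefficients.
-/

set_option autoImplicit false

namespace Pool.Agent.Y252.RA

open Complex MeasureTheory Set Filter Topology
open scoped Real ComplexConjugate

/-- the logarithmic kernel -/
noncomputable def lk (s t : ℝ) : ℝ := Real.log ‖exp (s * I) - exp (t * I)‖

lemma lk_shift (s t u : ℝ) : lk (s + u) (t + u) = lk s t := by
  unfold lk
  have h : exp (((s + u : ℝ) : ℂ) * I) - exp (((t + u : ℝ) : ℂ) * I) =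
      exp (u * I) * (exp (s * I) - exp (t * I)) := by
    push_cast
    rw [add_mul, add_mul, Complex.exp_add, Complex.exp_add]
    ring
  rw [h, norm_mul, Complex.norm_exp_ofReal_mul_I, one_mul]

lemma lk_symm (s t : ℝ) : lk s t = lk t s := by
  unfold lk
  rw [norm_sub_rev]

lemma exp_per (s : ℝ) : exp (((s + 2 * π : ℝ) : ℂ) * I) = exp (s * I) := by
  push_cast
  rw [add_mul, Complex.exp_add, Complex.exp_two_pi_mul_I, mul_one]

lemma lk_per (t : ℝ) : Function.Periodic (fun s => lk s t) (2 * π) := by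
  intro s
  unfold lk
  show Real.log _ = Real.log _
  rw [exp_per]

lemma lk_meas : Measurable (fun p : ℝ × ℝ => lk p.1 p.2) := by
  unfold lk
  have : Continuous (fun p : ℝ × ℝ => ‖exp (p.1 * I) - exp (p.2 * I)‖) := by fun_prop
  exact Real.measurable_log.comp this.measurable

lemma lk_int (t a b : ℝ) : IntervalIntegrable (fun s => lk s t) volume a b := by
  have h : CircleIntegrable (fun z : ℂ => Real.log ‖z - exp (t * I)‖) 0 1 :=
    circleIntegrable_log_norm_sub_const 1
  have h1 : IntervalIntegrable (fun s => lk s t) volume 0 (0 + 2 * π) := by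
    rw [zero_add]
    refine h.congr ?_
    intro s _
    show Real.log ‖circleMap 0 1 s - exp (t * I)‖ = _
    rw [circleMap_zero, Complex.ofReal_one, one_mul]
    rfl
  exact (lk_per t).intervalIntegrable (by positivity) h1 a b

lemma nrm (s : ℝ) (h0 : 0 ≤ s) (h1 : s ≤ 2 * π) : ‖exp (s * I) - 1‖ = 2 * Real.sin (s / 2) := by
  have h2 : exp (s * I) - 1 = exp ((s / 2 : ℝ) * I) * (2 * I * ((Real.sin (s / 2) : ℝ) : ℂ)) := by
    have e1 : ((Real.sin (s / 2) : ℝ) : ℂ) =
        (exp (-(((s / 2 : ℝ) : ℂ)) * I) - exp ((((s / 2 : ℝ) : ℂ)) * I)) * I / 2 := by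
      rw [Complex.ofReal_sin]
      rfl
    have e2 : exp (s * I) = exp ((s / 2 : ℝ) * I) * exp ((s / 2 : ℝ) * I) := by
      rw [← Complex.exp_add]; congr 1; push_cast; ring
    have e3 : exp ((s / 2 : ℝ) * I) * exp (-(((s / 2 : ℝ) : ℂ)) * I) = 1 := by
      rw [← Complex.exp_add]
      rw [show ((s / 2 : ℝ) : ℂ) * I + -(((s / 2 : ℝ) : ℂ)) * I = 0 by ring, Complex.exp_zero]
    rw [e1, e2]
    linear_combination (-(I ^ 2)) * e3 + (exp ((s / 2 : ℝ) * I) * exp ((s / 2 : ℝ) * I) - 1) * I_sq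
  rw [h2, norm_mul, Complex.norm_exp_ofReal_mul_I, one_mul, norm_mul, norm_mul, Complex.norm_I,
    Complex.norm_real, Real.norm_of_nonneg]
  · simp
  · exact Real.sin_nonneg_of_nonneg_of_le_pi (by linarith) (by linarith)

lemma int_exp (n : ℤ) : ∫ s in (0 : ℝ)..(2 * π), exp (n * s * I) = if n = 0 then 2 * π else 0 := by
  by_cases hn : n = 0
  · subst hn
    simp
  · rw [if_neg hn]
    have h1 : ((n : ℂ) * I) ≠ 0 := mul_ne_zero (by exact_mod_cast hn) I_ne_zero
    have h2 : (fun s : ℝ => exp (n * s * I)) = fun s : ℝ => exp (((n : ℂ) * I) * s) := by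
      funext s; congr 1; ring
    rw [h2, integral_exp_mul_complex h1]
    have h3 : ((n : ℂ) * I) * ((2 * π : ℝ) : ℂ) = n * (2 * π * I) := by push_cast; ring
    rw [h3, Complex.exp_int_mul_two_pi_mul_I]
    simp

/-- the smooth part of the integration by parts -/
noncomputable def Dn (n : ℕ) (s : ℝ) : ℂ :=
  (1 / (2 * n)) * ∑ k ∈ Finset.range n, (exp (((k : ℤ) : ℂ) * s * I) + exp ((((k : ℤ) + 1 : ℤ) : ℂ) * s * I))

lemma Dn_int (n : ℕ) (hn : 1 ≤ n) : ∫ s in (0 : ℝ)..(2 * π), Dn n s = π / n := by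
  unfold Dn
  rw [intervalIntegral.integral_const_mul, intervalIntegral.integral_finsetSum]
  · have h1 : ∀ k ∈ Finset.range n, ∫ s in (0 : ℝ)..(2 * π),
        (exp (((k : ℤ) : ℂ) * s * I) + exp ((((k : ℤ) + 1 : ℤ) : ℂ) * s * I)) =
          if k = 0 then 2 * (π : ℂ) else 0 := by
      intro k _
      rw [intervalIntegral.integral_add, int_exp, int_exp]
      · rw [if_neg (show ((k : ℤ) + 1) ≠ 0 by omega)]
        by_cases hk : k = 0
        · subst hk; simp
        · rw [if_neg (by exact_mod_cast hk), if_neg hk]; simp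
      · exact (by fun_prop : Continuous (fun s : ℝ => exp (((k : ℤ) : ℂ) * s * I))).intervalIntegrable _ _
      · exact (by fun_prop : Continuous (fun s : ℝ => exp ((((k : ℤ) + 1 : ℤ) : ℂ) * s * I))).intervalIntegrable _ _
    rw [Finset.sum_congr rfl h1, Finset.sum_ite_eq', if_pos (Finset.mem_range.mpr hn)]
    have : (n : ℂ) ≠ 0 := by exact_mod_cast (by omega : n ≠ 0)
    field_simp
  · intro k _
    exact (by fun_prop : Continuous (fun s : ℝ => (exp (((k : ℤ) : ℂ) * s * I) +
      exp ((((k : ℤ) + 1 : ℤ) : ℂ) * s * I)))).intervalIntegrable _ _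

lemma geo (n : ℕ) (z : ℂ) : (z - 1) * ∑ k ∈ Finset.range n, z ^ k = z ^ n - 1 := by
  rw [mul_comm]; exact geom_sum_mul z n

lemma ek (k : ℕ) (s : ℝ) : exp ((k : ℂ) * s * I) = exp (s * I) ^ k := by
  rw [← Complex.exp_nat_mul]; congr 1; ring

lemma base (n : ℕ) (hn : 1 ≤ n) :
    ∫ s in (0 : ℝ)..(2 * π), exp (n * s * I) * (lk s 0 : ℂ) = -(π / n) := by
  have hpi := Real.pi_pos
  have hn0 : (n : ℂ) ≠ 0 := by exact_mod_cast (by omega : n ≠ 0)
  set F : ℝ → ℂ := fun s => ((exp (n * s * I) - 1) / (n * I)) * ((Real.log (2 * Real.sin (s / 2)) : ℝ) : ℂ)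
    with hF
  have hlk : ∀ s ∈ Icc (0 : ℝ) (2 * π), lk s 0 = Real.log (2 * Real.sin (s / 2)) := by
    intro s hs
    unfold lk
    rw [Complex.ofReal_zero, zero_mul, Complex.exp_zero, nrm s hs.1 hs.2]
  have hsin : ∀ s ∈ Ioo (0 : ℝ) (2 * π), 0 < Real.sin (s / 2) := fun s hs =>
    Real.sin_pos_of_pos_of_lt_pi (by linarith [hs.1]) (by linarith [hs.2])
  have hder : ∀ s ∈ Ioo (0 : ℝ) (2 * π), HasDerivAt F (exp (n * s * I) * (lk s 0 : ℂ) + Dn n s) s := by
    intro s hs
    have hs0 := hsin s hs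
    have h1 : HasDerivAt (fun s : ℝ => (exp (n * s * I) - 1) / (n * I)) (exp (n * s * I)) s := by
      have h2 : HasDerivAt (fun s : ℝ => (n : ℂ) * s * I) (n * I) s := by
        have := (Complex.ofRealCLM.hasDerivAt (x := s)).const_mul (n : ℂ)
        have := this.mul_const I
        simpa using this
      have h3 := (h2.cexp.sub_const 1).div_const ((n : ℂ) * I)
      rw [mul_div_assoc, div_self (mul_ne_zero hn0 I_ne_zero), mul_one] at h3
      exact h3
    have h4 : HasDerivAt (fun s : ℝ => Real.log (2 * Real.sin (s / 2)))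
        ((2 * (Real.cos (s / 2) * (1 / 2))) / (2 * Real.sin (s / 2))) s := by
      have h5 : HasDerivAt (fun s : ℝ => Real.sin (s / 2)) (Real.cos (s / 2) * (1 / 2)) s := by
        have h6 : HasDerivAt (fun s : ℝ => s / 2) (1 / 2) s := by
          simpa using (hasDerivAt_id s).div_const 2
        exact h6.sin
      exact (h5.const_mul 2).log (by positivity)
    have h7 := h1.mul h4.ofReal_comp
    suffices hsm : Dn n s = (exp (n * s * I) - 1) / (n * I) *
        (((2 * (Real.cos (s / 2) * (1 / 2))) / (2 * Real.sin (s / 2)) : ℝ) : ℂ) by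
      rw [hlk s ⟨hs.1.le, hs.2.le⟩, hsm]
      exact h7
    -- the smooth part
    have e1 : exp (s * I) ≠ 1 := by
      intro h
      have := nrm s hs.1.le hs.2.le
      rw [h, sub_self, norm_zero] at this
      linarith
    have e2 : Dn n s = (1 / (2 * n)) * ((exp (s * I) + 1) * ∑ k ∈ Finset.range n, exp (s * I) ^ k) := by
      unfold Dn
      congr 1
      rw [Finset.mul_sum]
      refine Finset.sum_congr rfl fun k _ => ?_
      have e3 : exp ((((k : ℤ) + 1 : ℤ) : ℂ) * s * I) = exp (s * I) ^ (k + 1) := by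
        rw [← ek]; push_cast; ring_nf
      rw [e3]
      have e4 : exp (((k : ℤ) : ℂ) * s * I) = exp (s * I) ^ k := by
        rw [← ek]; push_cast; ring_nf
      rw [e4]; ring
    have e5 : (((2 * (Real.cos (s / 2) * (1 / 2))) / (2 * Real.sin (s / 2)) : ℝ) : ℂ) *
        (exp (s * I) - 1) = (I / 2) * (exp (s * I) + 1) := by
      have hsc : ((Real.sin (s / 2) : ℝ) : ℂ) ≠ 0 := by exact_mod_cast hs0.ne'
      have e6 : exp (s * I) = (((Real.cos (s / 2) : ℝ) : ℂ) + ((Real.sin (s / 2) : ℝ) : ℂ) * I) ^ 2 := by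
        have e7 : exp (s * I) = exp (((s / 2 : ℝ) : ℂ) * I) ^ 2 := by
          rw [← Complex.exp_nat_mul]; congr 1; push_cast; ring
        rw [e7, Complex.exp_mul_I, ← Complex.ofReal_cos, ← Complex.ofReal_sin]
      have e8 : ((Real.cos (s / 2) : ℝ) : ℂ) ^ 2 + ((Real.sin (s / 2) : ℝ) : ℂ) ^ 2 = 1 := by
        have := Real.cos_sq_add_sin_sq (s / 2)
        exact_mod_cast this
      rw [e6]
      push_cast
      push_cast at hsc e8
      have hq : (Complex.sin ((s : ℂ) / 2)) ≠ 0 := hsc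
      have e9 : (2 * (Complex.cos ((s : ℂ) / 2) * (1 / 2))) / (2 * Complex.sin ((s : ℂ) / 2)) =
          Complex.cos ((s : ℂ) / 2) / (2 * Complex.sin ((s : ℂ) / 2)) := by
        field_simp
      rw [e9, div_mul_eq_mul_div, div_eq_iff (mul_ne_zero two_ne_zero hq)]
      set c := Complex.cos ((s : ℂ) / 2)
      set d := Complex.sin ((s : ℂ) / 2)
      linear_combination (c + d * I) * e8 - (c + d * I) * d ^ 2 * I_sq
    rw [e2]
    have e10 : exp ((n : ℂ) * s * I) - 1 = (exp (s * I) - 1) * ∑ k ∈ Finset.range n, exp (s * I) ^ k := by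
      rw [geo, ek]
    rw [e10]
    have e11 : (I : ℂ)⁻¹ = -I := Complex.inv_I
    have e12 : ((exp (s * I) - 1) * ∑ k ∈ Finset.range n, exp (s * I) ^ k) / (n * I) *
        (((2 * (Real.cos (s / 2) * (1 / 2))) / (2 * Real.sin (s / 2)) : ℝ) : ℂ) =
        ((((2 * (Real.cos (s / 2) * (1 / 2))) / (2 * Real.sin (s / 2)) : ℝ) : ℂ) *
        (exp (s * I) - 1)) * (∑ k ∈ Finset.range n, exp (s * I) ^ k) / (n * I) := by ring
    rw [e12, e5]
    field_simp
  have hlim : ∀ l : Filter ℝ, (∀ᶠ s in l, s ∈ Ioo (0 : ℝ) (2 * π)) →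
      Tendsto (fun s : ℝ => 2 * Real.sin (s / 2)) l (𝓝 0) → Tendsto F l (𝓝 0) := by
    intro l h1 h2
    have h3 : Tendsto (fun s : ℝ => |(2 * Real.sin (s / 2)) * Real.log (2 * Real.sin (s / 2))|) l (𝓝 0) := by
      have h4 := (Real.continuous_mul_log.tendsto 0).comp h2
      rw [zero_mul] at h4
      have h5 := h4.abs
      rw [abs_zero] at h5
      exact h5
    refine squeeze_zero_norm' ?_ h3
    filter_upwards [h1] with s hs
    have hs0 := hsin s hs
    have e10 : exp ((n : ℂ) * s * I) - 1 = (exp (s * I) - 1) * ∑ k ∈ Finset.range n, exp (s * I) ^ k := by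
      rw [geo, ek]
    have h5 : ‖∑ k ∈ Finset.range n, exp (s * I) ^ k‖ ≤ n := by
      refine (norm_sum_le _ _).trans (le_of_eq ?_)
      have : ∀ k ∈ Finset.range n, ‖exp ((s : ℂ) * I) ^ k‖ = 1 := by
        intro k _
        rw [norm_pow, Complex.norm_exp_ofReal_mul_I, one_pow]
      rw [Finset.sum_congr rfl this]
      simp
    rw [hF]
    show ‖(exp (n * s * I) - 1) / (n * I) * ((Real.log (2 * Real.sin (s / 2)) : ℝ) : ℂ)‖ ≤ _
    rw [norm_mul, norm_div, e10, norm_mul, norm_mul, Complex.norm_I, mul_one, Complex.norm_natCast,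
      nrm s hs.1.le hs.2.le, Complex.norm_real, Real.norm_eq_abs, abs_mul, abs_of_pos (by linarith :
        0 < 2 * Real.sin (s / 2))]
    refine mul_le_mul_of_nonneg_right ?_ (abs_nonneg _)
    have hn1 : (0 : ℝ) < n := by exact_mod_cast (by omega : 0 < n)
    rw [div_le_iff₀ hn1]
    exact mul_le_mul_of_nonneg_left h5 (by linarith)
  have hDc : Continuous (Dn n) := by
    unfold Dn
    fun_prop
  have hi1 : IntervalIntegrable (fun s : ℝ => exp (n * s * I) * (lk s 0 : ℂ)) volume 0 (2 * π) := by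
    have h1 : IntervalIntegrable (fun s : ℝ => ((lk s 0 : ℝ) : ℂ)) volume 0 (2 * π) := by
      have := lk_int 0 0 (2 * π)
      exact ⟨this.1.ofReal, this.2.ofReal⟩
    exact h1.continuousOn_mul (by fun_prop : Continuous (fun s : ℝ => exp (n * s * I))).continuousOn
  have hi2 : IntervalIntegrable (Dn n) volume 0 (2 * π) := hDc.intervalIntegrable _ _
  have hmain := intervalIntegral.integral_eq_sub_of_hasDerivAt_of_tendsto (a := 0) (b := 2 * π)
    (by positivity) hder (hi1.add hi2) (fa := 0) (fb := 0) ?_ ?_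
  · rw [intervalIntegral.integral_add hi1 hi2, Dn_int n hn, sub_zero] at hmain
    linear_combination hmain
  · refine hlim _ ?_ ?_
    · exact Ioo_mem_nhdsGT (by positivity)
    · have : Tendsto (fun s : ℝ => 2 * Real.sin (s / 2)) (𝓝 0) (𝓝 (2 * Real.sin (0 / 2))) :=
        (by fun_prop : Continuous (fun s : ℝ => 2 * Real.sin (s / 2))).tendsto 0
      rw [zero_div, Real.sin_zero, mul_zero] at this
      exact this.mono_left nhdsWithin_le_nhds
  · refine hlim _ ?_ ?_
    · exact Ioo_mem_nhdsLT (by positivity)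
    · have : Tendsto (fun s : ℝ => 2 * Real.sin (s / 2)) (𝓝 (2 * π)) (𝓝 (2 * Real.sin (2 * π / 2))) :=
        (by fun_prop : Continuous (fun s : ℝ => 2 * Real.sin (s / 2))).tendsto (2 * π)
      rw [mul_div_cancel_left₀ _ (two_ne_zero), Real.sin_pi, mul_zero] at this
      exact this.mono_left nhdsWithin_le_nhds

/-- Fourier coefficients of the logarithmic kernel -/
theorem lk_fourier (n : ℕ) (hn : 1 ≤ n) (t : ℝ) :
    ∫ s in (-π)..π, exp (n * s * I) * (lk s t : ℂ) = -(π / n) * exp (n * t * I) := by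
  have hper : Function.Periodic (fun s : ℝ => exp (n * s * I) * (lk s t : ℂ)) (2 * π) := by
    intro s
    show exp (n * ((s + 2 * π : ℝ) : ℂ) * I) * _ = _
    rw [ek, exp_per, ← ek, show lk (s + 2 * π) t = lk s t from lk_per t s]
  have h1 := hper.intervalIntegral_add_eq (-π) t
  rw [show -π + 2 * π = π by ring] at h1
  rw [h1]
  have h2 : ∫ s in t..(t + 2 * π), exp (n * s * I) * (lk s t : ℂ) =
      ∫ s in (0 : ℝ)..(2 * π), exp (n * t * I) * (exp (n * s * I) * (lk s 0 : ℂ)) := by
    have h3 := intervalIntegral.integral_comp_add_right (a := 0) (b := 2 * π)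
      (fun s : ℝ => exp (n * s * I) * (lk s t : ℂ)) t
    rw [zero_add, add_comm (2 * π) t] at h3
    rw [← h3]
    refine intervalIntegral.integral_congr fun s _ => ?_
    show exp (n * ((s + t : ℝ) : ℂ) * I) * (lk (s + t) t : ℂ) = _
    have h4 := lk_shift s 0 t
    rw [zero_add] at h4
    rw [h4, ← mul_assoc]
    congr 1
    rw [← Complex.exp_add]
    congr 1
    push_cast; ring
  rw [h2, intervalIntegral.integral_const_mul, base n hn]
  ring

/-- the common value of the integrals of `|log|` -/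
noncomputable def K0 : ℝ := ∫ s in (-π)..π, |lk s 0|

lemma lk_abs (t : ℝ) : ∫ s in (-π)..π, |lk s t| = K0 := by
  have hper : Function.Periodic (fun s : ℝ => |lk s t|) (2 * π) := by
    intro s
    show |lk (s + 2 * π) t| = _
    rw [show lk (s + 2 * π) t = lk s t from lk_per t s]
  have h1 := hper.intervalIntegral_add_eq (-π) (-π + t)
  rw [show -π + 2 * π = π by ring] at h1
  rw [h1]
  have h3 := intervalIntegral.integral_comp_add_right (a := -π) (b := π) (fun s : ℝ => |lk s t|) t
  rw [show π + t = -π + t + 2 * π by ring] at h3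
  rw [← h3]
  unfold K0
  refine intervalIntegral.integral_congr fun s _ => ?_
  show |lk (s + t) t| = |lk s 0|
  have h4 := lk_shift s 0 t
  rw [zero_add] at h4
  rw [h4]

end Pool.Agent.Y252.RA
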