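import Pool.Agent.Y252.RA.FacG

/-!
Logarithmic potentials of integrable functions.
-/

set_option autoImplicit false

namespace Pool.Agent.Y252.RA

open Complex MeasureTheory Set Filter Topology
open scoped Real ComplexConjugate

/-- the logarithmic potential of `h` -/
noncomputable def pot (h : ℝ → ℝ) (s : ℝ) : ℝ := ∫ t in (-π)..π, lk s t * h t

lemma mpi : -π ≤ π := by linarith [Real.pi_pos]

lemma pot_prod (h : ℝ → ℝ) (hh : IntervalIntegrable h volume (-π) π) :
    Integrable (fun p : ℝ × ℝ => lk p.1 p.2 * h p.2)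
      ((volume.restrict (Ioc (-π) π)).prod (volume.restrict (Ioc (-π) π))) := by
  have hI : Integrable h (volume.restrict (Ioc (-π) π)) := by
    rwa [intervalIntegrable_iff_integrableOn_Ioc_of_le mpi] at hh
  have hm : AEStronglyMeasurable (fun p : ℝ × ℝ => lk p.1 p.2 * h p.2)
      ((volume.restrict (Ioc (-π) π)).prod (volume.restrict (Ioc (-π) π))) :=
    lk_meas.aestronglyMeasurable.mul hI.aestronglyMeasurable.comp_snd
  rw [integrable_prod_iff' hm]
  refine ⟨?_, ?_⟩
  · refine Filter.Eventually.of_forall fun t => ?_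
    have h1 := lk_int t (-π) π
    rw [intervalIntegrable_iff_integrableOn_Ioc_of_le mpi] at h1
    show Integrable (fun s : ℝ => lk s t * h t) _
    exact Integrable.mul_const h1 (h t)
  · have h1 : (fun t : ℝ => ∫ s in Ioc (-π) π, ‖lk s t * h t‖) = fun t => K0 * ‖h t‖ := by
      funext t
      have h2 := lk_abs t
      rw [intervalIntegral.integral_of_le mpi] at h2
      rw [← h2, ← integral_mul_const]
      refine integral_congr_ae (Filter.Eventually.of_forall fun s => ?_)
      show ‖_ * _‖ = _
      rw [norm_mul, Real.norm_eq_abs, Real.norm_eq_abs]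
    show Integrable (fun t : ℝ => ∫ s in Ioc (-π) π, ‖lk s t * h t‖) _
    rw [h1]
    exact hI.norm.const_mul _

lemma pot_ae (h : ℝ → ℝ) (hh : IntervalIntegrable h volume (-π) π) :
    ∀ᵐ s ∂(volume.restrict (Ioc (-π) π)), IntervalIntegrable (fun t => lk s t * h t) volume (-π) π := by
  have h1 := (pot_prod h hh).prod_right_ae
  filter_upwards [h1] with s hs
  rw [intervalIntegrable_iff_integrableOn_Ioc_of_le mpi]
  exact hs

lemma pot_int (h : ℝ → ℝ) (hh : IntervalIntegrable h volume (-π) π) :
    IntervalIntegrable (pot h) volume (-π) π := by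
  have h1 := (pot_prod h hh).integral_prod_left
  rw [intervalIntegrable_iff_integrableOn_Ioc_of_le mpi]
  refine h1.congr (Filter.Eventually.of_forall fun s => ?_)
  unfold pot
  rw [intervalIntegral.integral_of_le mpi]

lemma pot_swap (h : ℝ → ℝ) (hh : IntervalIntegrable h volume (-π) π) (e : ℝ → ℂ) (he : Continuous e)
    (M : ℝ) (hM : ∀ s, ‖e s‖ ≤ M) :
    ∫ s in (-π)..π, e s * (pot h s : ℂ) =
      ∫ t in (-π)..π, (∫ s in (-π)..π, e s * (lk s t : ℂ)) * (h t : ℂ) := by
  have h0 : Integrable (fun p : ℝ × ℝ => e p.1 * ((lk p.1 p.2 * h p.2 : ℝ) : ℂ))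
      ((volume.restrict (Ioc (-π) π)).prod (volume.restrict (Ioc (-π) π))) := by
    refine (pot_prod h hh).ofReal.bdd_mul (c := M) ?_ (Filter.Eventually.of_forall fun p => hM p.1)
    exact (he.comp continuous_fst).aestronglyMeasurable
  rw [intervalIntegral.integral_of_le mpi, intervalIntegral.integral_of_le mpi]
  have h1 : ∫ s in Ioc (-π) π, e s * (pot h s : ℂ) =
      ∫ s in Ioc (-π) π, ∫ t in Ioc (-π) π, e s * ((lk s t * h t : ℝ) : ℂ) := by
    refine integral_congr_ae (Filter.Eventually.of_forall fun s => ?_)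
    show e s * (pot h s : ℂ) = ∫ t in Ioc (-π) π, e s * ((lk s t * h t : ℝ) : ℂ)
    rw [integral_const_mul]
    congr 1
    unfold pot
    rw [intervalIntegral.integral_of_le mpi, integral_complex_ofReal]
  rw [h1, integral_integral_swap h0]
  refine integral_congr_ae (Filter.Eventually.of_forall fun t => ?_)
  show ∫ s in Ioc (-π) π, e s * ((lk s t * h t : ℝ) : ℂ) = (∫ s in (-π)..π, e s * (lk s t : ℂ)) * (h t : ℂ)
  rw [intervalIntegral.integral_of_le mpi, ← integral_mul_const]
  refine integral_congr_ae (Filter.Eventually.of_forall fun s => ?_)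
  show _ = _
  push_cast
  ring

lemma pot_fourier (h : ℝ → ℝ) (hh : IntervalIntegrable h volume (-π) π) (n : ℕ) (hn : 1 ≤ n) :
    ∫ s in (-π)..π, exp (n * s * I) * (pot h s : ℂ) =
      -(π / n) * ∫ t in (-π)..π, exp (n * t * I) * (h t : ℂ) := by
  rw [pot_swap h hh (fun s => exp (n * s * I)) (by fun_prop) 1 ?_, ← intervalIntegral.integral_const_mul]
  · refine intervalIntegral.integral_congr fun t _ => ?_
    show (∫ s in (-π)..π, exp (n * s * I) * (lk s t : ℂ)) * (h t : ℂ) = _
    rw [lk_fourier n hn t]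
    ring
  · intro s
    rw [ek, norm_pow, Complex.norm_exp_ofReal_mul_I, one_pow]

end Pool.Agent.Y252.RA
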