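import Pool.Agent.Y252.RA.FacC
import Pool.Agent.Y252.RA.FacH

/-!
An integrable function on the circle with vanishing Fourier coefficients vanishes.
-/

set_option autoImplicit false

namespace Pool.Agent.Y252.RA

open Complex MeasureTheory Set Filter Topology
open scoped Real ComplexConjugate

lemma lam_zero (f : ℝ → ℂ) (hf : IntervalIntegrable f volume (-π) π)
    (h : ∀ n : ℤ, ∫ x in (-π)..π, exp (n * x * I) * f x = 0) (G : C(AddCircle (2 * π), ℂ)) :
    ∫ x in (-π)..π, G (x : AddCircle (2 * π)) * f x = 0 := by
  have hc : ∀ G : C(AddCircle (2 * π), ℂ), Continuous (fun x : ℝ => G (x : AddCircle (2 * π))) := by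
    intro G
    exact G.continuous.comp (AddCircle.continuous_mk' _)
  set Λ : C(AddCircle (2 * π), ℂ) →ₗ[ℂ] ℂ :=
    { toFun := fun G => ∫ x in (-π)..π, G (x : AddCircle (2 * π)) * f x
      map_add' := by
        intro G H
        rw [← intervalIntegral.integral_add]
        · refine intervalIntegral.integral_congr fun x _ => ?_
          show (G x + H x) * f x = _
          ring
        · exact hf.continuousOn_mul (hc G).continuousOn
        · exact hf.continuousOn_mul (hc H).continuousOn
      map_smul' := by
        intro c G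
        rw [RingHom.id_apply, smul_eq_mul, ← intervalIntegral.integral_const_mul]
        refine intervalIntegral.integral_congr fun x _ => ?_
        show (c * G x) * f x = _
        ring } with hΛ
  have hb : ∀ G, ‖Λ G‖ ≤ (∫ x in (-π)..π, ‖f x‖) * ‖G‖ := by
    intro G
    show ‖∫ x in (-π)..π, G (x : AddCircle (2 * π)) * f x‖ ≤ _
    refine (intervalIntegral.norm_integral_le_integral_norm mpi).trans ?_
    rw [← intervalIntegral.integral_mul_const]
    refine intervalIntegral.integral_mono_on mpi ?_ ?_ ?_
    · exact (hf.continuousOn_mul (hc G).continuousOn).norm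
    · exact hf.norm.mul_const _
    · intro x _
      rw [norm_mul, mul_comm]
      exact mul_le_mul_of_nonneg_left (G.norm_coe_le_norm _) (norm_nonneg _)
  set Λ' : C(AddCircle (2 * π), ℂ) →L[ℂ] ℂ := Λ.mkContinuous _ hb
  have h1 : (⊤ : Submodule ℂ C(AddCircle (2 * π), ℂ)) ≤ Λ'.ker := by
    rw [← span_fourier_closure_eq_top]
    refine Submodule.topologicalClosure_minimal _ ?_ Λ'.isClosed_ker
    rw [Submodule.span_le]
    rintro _ ⟨n, rfl⟩
    show ∫ x in (-π)..π, (fourier n (x : AddCircle (2 * π)) : ℂ) * f x = 0
    rw [← h n]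
    refine intervalIntegral.integral_congr fun x _ => ?_
    show _ = _
    rw [fou]
  exact h1 (Submodule.mem_top : G ∈ _)

theorem fu (f : ℝ → ℂ) (hf : IntervalIntegrable f volume (-π) π)
    (h : ∀ n : ℤ, ∫ x in (-π)..π, exp (n * x * I) * f x = 0) :
    ∀ᵐ x ∂(volume.restrict (Ioc (-π) π)), f x = 0 := by
  have hloc : LocallyIntegrableOn f (Ioo (-π) π) volume := by
    have h1 : IntegrableOn f (Ioc (-π) π) volume := by
      rwa [intervalIntegrable_iff_integrableOn_Ioc_of_le mpi] at hf
    exact (h1.mono_set Ioo_subset_Ioc_self).locallyIntegrableOn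
  have key := isOpen_Ioo.ae_eq_zero_of_integral_contDiff_smul_eq_zero (μ := volume)
    (U := Ioo (-π) π) hloc ?_
  · have h2 : ∀ᵐ x ∂(volume.restrict (Ioo (-π) π)), f x = 0 := by
      rw [ae_restrict_iff' measurableSet_Ioo]
      exact key
    rwa [← restrict_Ioo_eq_restrict_Ioc]
  · intro g hg hgc hgs
    have hgp : ∀ x, x ∉ Ioo (-π) π → g x = 0 := by
      intro x hx
      by_contra h0
      exact hx (hgs (subset_tsupport g h0))
    set G0 : ℝ → ℂ := fun x => (g x : ℂ) with hG0
    have hcont : ContinuousOn G0 (Icc (-π) (-π + 2 * π)) :=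
      (Complex.continuous_ofReal.comp hg.continuous).continuousOn
    have hend : G0 (-π) = G0 (-π + 2 * π) := by
      rw [hG0]
      show ((g (-π) : ℝ) : ℂ) = ((g (-π + 2 * π) : ℝ) : ℂ)
      rw [hgp (-π) (by simp), hgp (-π + 2 * π) (by
        intro hh
        have := hh.2
        linarith)]
    set G : C(AddCircle (2 * π), ℂ) := ⟨AddCircle.liftIco (2 * π) (-π) G0,
      AddCircle.liftIco_continuous hend hcont⟩ with hG
    have h1 := lam_zero f hf h G
    have h2 : ∀ x ∈ Ico (-π) π, G (x : AddCircle (2 * π)) = (g x : ℂ) := by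
      intro x hx
      rw [hG]
      show AddCircle.liftIco (2 * π) (-π) G0 x = _
      rw [AddCircle.liftIco_coe_apply]
      rw [show -π + 2 * π = π by ring]
      exact hx
    have h3 : ∫ x, g x • f x = ∫ x in Ioo (-π) π, g x • f x := by
      rw [setIntegral_eq_integral_of_forall_compl_eq_zero]
      intro x hx
      rw [hgp x hx, zero_smul]
    rw [h3, ← integral_Ioc_eq_integral_Ioo, ← intervalIntegral.integral_of_le mpi, ← h1]
    rw [intervalIntegral.integral_of_le mpi, intervalIntegral.integral_of_le mpi,
      integral_Ioc_eq_integral_Ioo, integral_Ioc_eq_integral_Ioo]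
    refine setIntegral_congr_fun measurableSet_Ioo fun x hx => ?_
    show g x • f x = G x * f x
    rw [h2 x ⟨hx.1.le, hx.2⟩, Complex.real_smul]

/-- equality of the nonzero Fourier coefficients gives equality up to a constant -/
theorem fu_const (f : ℝ → ℂ) (hf : IntervalIntegrable f volume (-π) π)
    (h : ∀ n : ℤ, n ≠ 0 → ∫ x in (-π)..π, exp (n * x * I) * f x = 0) :
    ∃ c : ℂ, ∀ᵐ x ∂(volume.restrict (Ioc (-π) π)), f x = c := by
  set c : ℂ := (∫ x in (-π)..π, f x) / (2 * π) with hc
  refine ⟨c, ?_⟩
  have h1 := fu (fun x => f x - c) (hf.sub intervalIntegrable_const) ?_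
  · filter_upwards [h1] with x hx
    exact sub_eq_zero.mp hx
  · intro n
    have e1 : ∫ x in (-π)..π, exp (n * x * I) * (f x - c) =
        (∫ x in (-π)..π, exp (n * x * I) * f x) - (∫ x in (-π)..π, exp (n * x * I)) * c := by
      rw [← intervalIntegral.integral_mul_const, ← intervalIntegral.integral_sub]
      · refine intervalIntegral.integral_congr fun x _ => ?_
        show _ = _
        ring
      · exact hf.continuousOn_mul (by fun_prop : Continuous (fun x : ℝ => exp (n * x * I))).continuousOn
      · exact (by fun_prop : Continuous (fun x : ℝ => exp (n * x * I) * c)).intervalIntegrable _ _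
    rw [e1]
    by_cases hn : n = 0
    · subst hn
      have hpi : (π : ℂ) ≠ 0 := by exact_mod_cast Real.pi_ne_zero
      simp only [Int.cast_zero, zero_mul, Complex.exp_zero, one_mul]
      rw [intervalIntegral.integral_const, hc]
      simp only [sub_neg_eq_add, Complex.real_smul]
      push_cast
      field_simp
      ring
    · rw [h n hn]
      have h2 : ∫ x in (-π)..π, exp (n * x * I) = 0 := by
        have hper : Function.Periodic (fun s : ℝ => exp (n * s * I)) (2 * π) := by
          intro s
          show exp (n * ((s + 2 * π : ℝ) : ℂ) * I) = exp (n * s * I)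
          have e : (n : ℂ) * ((s + 2 * π : ℝ) : ℂ) * I = n * s * I + n * (2 * π * I) := by
            push_cast; ring
          rw [e, Complex.exp_add, Complex.exp_int_mul_two_pi_mul_I, mul_one]
        have h3 := hper.intervalIntegral_add_eq (-π) 0
        rw [show -π + 2 * π = π by ring, zero_add] at h3
        rw [h3, int_exp, if_neg hn]
        norm_num
      rw [h2, zero_mul, sub_zero]

end Pool.Agent.Y252.RA
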