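import Pool.Agent.Y252.RA.FacI

/-!
Tools: integration by parts for primitives, variation of a continuous function known almost
everywhere, the total variation bounds the `L¹` norm of the derivative.
-/

set_option autoImplicit false

namespace Pool.Agent.Y252.RA

open Complex MeasureTheory Set Filter Topology
open scoped Real ComplexConjugate ENNReal

lemma parts (e e' : ℝ → ℂ) (he : ∀ s, HasDerivAt e (e' s) s) (hc : Continuous e') (M : ℝ)
    (hM : ∀ s, ‖e' s‖ ≤ M) (F : ℝ → ℂ) (hF : IntervalIntegrable F volume (-π) π) :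
    ∫ s in (-π)..π, e' s * (∫ u in (-π)..s, F u) =
      e π * (∫ u in (-π)..π, F u) - ∫ s in (-π)..π, e s * F s := by
  have hFI : Integrable F (volume.restrict (Ioc (-π) π)) := by
    rwa [intervalIntegrable_iff_integrableOn_Ioc_of_le mpi] at hF
  have hec : Continuous e := continuous_iff_continuousAt.mpr fun s => (he s).continuousAt
  have hprod : Integrable (fun p : ℝ × ℝ => (e' p.1 * (if p.2 ≤ p.1 then 1 else 0)) * F p.2)
      ((volume.restrict (Ioc (-π) π)).prod (volume.restrict (Ioc (-π) π))) := by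
    refine Integrable.bdd_mul (c := M) (hFI.comp_snd _) ?_ ?_
    · refine Measurable.aestronglyMeasurable ?_
      refine (hc.measurable.comp measurable_fst).mul ?_
      exact Measurable.ite (measurableSet_le measurable_snd measurable_fst) measurable_const
        measurable_const
    · refine Filter.Eventually.of_forall fun p => ?_
      rw [norm_mul]
      have : ‖(if p.2 ≤ p.1 then (1 : ℂ) else 0)‖ ≤ 1 := by
        split_ifs <;> simp
      calc ‖e' p.1‖ * ‖(if p.2 ≤ p.1 then (1 : ℂ) else 0)‖ ≤ ‖e' p.1‖ * 1 :=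
            mul_le_mul_of_nonneg_left this (norm_nonneg _)
        _ ≤ M := by rw [mul_one]; exact hM _
  have hL : ∫ s in (-π)..π, e' s * (∫ u in (-π)..s, F u) =
      ∫ s in Ioc (-π) π, ∫ u in Ioc (-π) π, (e' s * (if u ≤ s then 1 else 0)) * F u := by
    rw [intervalIntegral.integral_of_le mpi]
    refine setIntegral_congr_fun measurableSet_Ioc fun s hs => ?_
    show e' s * (∫ u in (-π)..s, F u) = ∫ u in Ioc (-π) π, (e' s * (if u ≤ s then 1 else 0)) * F u
    have h1 : ∫ u in Ioc (-π) π, (e' s * (if u ≤ s then 1 else 0)) * F u =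
        ∫ u in Ioc (-π) π, e' s * (Iic s).indicator F u := by
      refine integral_congr_ae (Filter.Eventually.of_forall fun u => ?_)
      show (e' s * (if u ≤ s then 1 else 0)) * F u = e' s * (Iic s).indicator F u
      by_cases hu : u ≤ s
      · rw [if_pos hu, indicator_of_mem (show u ∈ Iic s from hu), mul_one]
      · rw [if_neg hu, indicator_of_notMem (show u ∉ Iic s from hu)]; ring
    rw [h1, integral_const_mul, setIntegral_indicator measurableSet_Iic, Ioc_inter_Iic,
      min_eq_right hs.2, intervalIntegral.integral_of_le hs.1.le]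
  have hR : e π * (∫ u in (-π)..π, F u) - ∫ s in (-π)..π, e s * F s =
      ∫ u in Ioc (-π) π, ∫ s in Ioc (-π) π, (e' s * (if u ≤ s then 1 else 0)) * F u := by
    rw [← intervalIntegral.integral_const_mul, ← intervalIntegral.integral_sub,
      intervalIntegral.integral_of_le mpi]
    · refine setIntegral_congr_fun measurableSet_Ioc fun u hu => ?_
      show e π * F u - e u * F u = ∫ s in Ioc (-π) π, (e' s * (if u ≤ s then 1 else 0)) * F u
      have h1 : ∫ s in Ioc (-π) π, (e' s * (if u ≤ s then 1 else 0)) * F u =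
          ∫ s in Ioc (-π) π, ((Ici u).indicator e' s) * F u := by
        refine integral_congr_ae (Filter.Eventually.of_forall fun s => ?_)
        show (e' s * (if u ≤ s then 1 else 0)) * F u = ((Ici u).indicator e' s) * F u
        by_cases hs : u ≤ s
        · rw [if_pos hs, indicator_of_mem (show s ∈ Ici u from hs), mul_one]
        · rw [if_neg hs, indicator_of_notMem (show s ∉ Ici u from hs)]; ring
      rw [h1, integral_mul_const, setIntegral_indicator measurableSet_Ici]
      have h2 : Ioc (-π) π ∩ Ici u = Icc u π := by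
        ext x
        simp only [mem_inter_iff, mem_Ioc, mem_Ici, mem_Icc]
        constructor
        · rintro ⟨⟨_, h4⟩, h5⟩
          exact ⟨h5, h4⟩
        · rintro ⟨h4, h5⟩
          exact ⟨⟨lt_of_lt_of_le hu.1 h4, h5⟩, h4⟩
      rw [h2, integral_Icc_eq_integral_Ioc, ← intervalIntegral.integral_of_le hu.2,
        intervalIntegral.integral_eq_sub_of_hasDerivAt (fun s _ => he s) (hc.intervalIntegrable _ _)]
      ring
    · exact hF.const_mul _
    · exact hF.continuousOn_mul hec.continuousOn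
  rw [hL, hR]
  exact integral_integral_swap hprod

/-- a continuous function that is almost everywhere equal to a function of bounded variation -/
lemma var_ae (b f : ℝ → ℝ) (V : ℝ≥0∞) (hV : eVariationOn f (Icc (-π) π) ≤ V)
    (hb : ContinuousOn b (Ioo (-π) π)) (hae : ∀ᵐ s ∂(volume.restrict (Ioc (-π) π)), b s = f s) :
    eVariationOn b (Ioo (-π) π) ≤ V := by
  have hae' : ∀ᵐ s : ℝ, s ∈ Ioc (-π) π → b s = f s := by
    rwa [ae_restrict_iff' measurableSet_Ioc] at hae
  unfold eVariationOn
  refine iSup_le fun p => ?_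
  obtain ⟨n, ⟨u, hu, hus⟩⟩ := p
  have h1 : ∀ᵐ δ : ℝ, ∀ i ∈ Finset.range (n + 1), u i + δ ∈ Ioc (-π) π → b (u i + δ) = f (u i + δ) := by
    rw [Finset.eventually_all]
    intro i _
    have hq := (measurePreserving_add_left volume (u i)).quasiMeasurePreserving
    exact hq.ae hae'
  have h2 : ∃ᶠ δ in 𝓝[>] (0 : ℝ), ∀ i ∈ Finset.range (n + 1), u i + δ ∈ Ioc (-π) π →
      b (u i + δ) = f (u i + δ) := by
    rw [frequently_iff]
    intro U hU
    obtain ⟨ε, hε, hεU⟩ := mem_nhdsGT_iff_exists_Ioo_subset.mp hU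
    have hpos : volume (Ioo 0 ε) ≠ 0 := by
      rw [Real.volume_Ioo]
      simpa using hε
    obtain ⟨δ, hδ2, hδ1⟩ : ∃ δ ∈ Ioo 0 ε, ∀ i ∈ Finset.range (n + 1), u i + δ ∈ Ioc (-π) π →
        b (u i + δ) = f (u i + δ) := by
      by_contra hcon
      push Not at hcon
      apply hpos
      refine measure_mono_null ?_ (ae_iff.mp h1)
      intro δ hδ
      obtain ⟨i, hi1, hi2, hi3⟩ := hcon δ hδ
      intro hall
      exact hi3 (hall i hi1 hi2)
    exact ⟨δ, hεU hδ2, hδ1⟩
  have hshift : ∀ i, Tendsto (fun δ : ℝ => u i + δ) (𝓝[>] 0) (𝓝 (u i)) := by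
    intro i
    have : Tendsto (fun δ : ℝ => u i + δ) (𝓝 0) (𝓝 (u i + 0)) :=
      (by fun_prop : Continuous (fun δ : ℝ => u i + δ)).tendsto 0
    rw [add_zero] at this
    exact this.mono_left nhdsWithin_le_nhds
  have hbt : ∀ i, Tendsto (fun δ : ℝ => b (u i + δ)) (𝓝[>] 0) (𝓝 (b (u i))) := by
    intro i
    have hca : ContinuousAt b (u i) := hb.continuousAt (isOpen_Ioo.mem_nhds (hus i))
    exact hca.tendsto.comp (hshift i)
  have hlim : Tendsto (fun δ : ℝ => ∑ i ∈ Finset.range n, edist (b (u (i + 1) + δ)) (b (u i + δ)))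
      (𝓝[>] 0) (𝓝 (∑ i ∈ Finset.range n, edist (b (u (i + 1))) (b (u i)))) :=
    tendsto_finsetSum _ fun i _ => (hbt (i + 1)).edist (hbt i)
  have hin : ∀ᶠ δ : ℝ in 𝓝[>] 0, ∀ i ∈ Finset.range (n + 1), u i + δ ∈ Ioc (-π) π := by
    rw [Finset.eventually_all]
    intro i _
    have h3 : ∀ᶠ y in 𝓝 (u i), y ∈ Ioo (-π) π := isOpen_Ioo.mem_nhds (hus i)
    filter_upwards [(hshift i).eventually h3] with δ hδ
    exact ⟨hδ.1, hδ.2.le⟩
  have hfr : ∃ᶠ δ in 𝓝[>] (0 : ℝ), ∑ i ∈ Finset.range n, edist (b (u (i + 1) + δ)) (b (u i + δ)) ∈ Iic V := by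
    refine (h2.and_eventually hin).mono ?_
    rintro δ ⟨hδ1, hδ2⟩
    have h4 : ∑ i ∈ Finset.range n, edist (b (u (i + 1) + δ)) (b (u i + δ)) =
        ∑ i ∈ Finset.range n, edist (f (u (i + 1) + δ)) (f (u i + δ)) := by
      refine Finset.sum_congr rfl fun i hi => ?_
      rw [Finset.mem_range] at hi
      rw [hδ1 i (Finset.mem_range.mpr (by omega)) (hδ2 i (Finset.mem_range.mpr (by omega))),
        hδ1 (i + 1) (Finset.mem_range.mpr (by omega)) (hδ2 (i + 1) (Finset.mem_range.mpr (by omega)))]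
    show _ ≤ V
    rw [h4]
    refine le_trans ?_ hV
    refine eVariationOn.sum_le_of_monotoneOn_Iic (f := f) (u := fun i => u i + δ) ?_ ?_
    · intro i _ j _ hij
      have := hu hij
      show u i + δ ≤ u j + δ
      linarith
    · intro i hi
      have := hδ2 i (Finset.mem_range.mpr (by omega))
      exact ⟨this.1.le, this.2⟩
  exact isClosed_Iic.mem_of_frequently_of_tendsto hfr hlim

/-- the variation bounds the `L¹` norm of the derivative -/
lemma tv_bound (b : ℝ → ℝ) (a a' C : ℝ) (haa : a ≤ a') (hC : 0 ≤ C)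
    (hV : eVariationOn b (Icc a a') ≤ ENNReal.ofReal C) :
    IntervalIntegrable (deriv b) volume a a' ∧ ∫ s in a..a', |deriv b s| ≤ C := by
  have hbv : BoundedVariationOn b (Icc a a') := ne_top_of_le_ne_top ENNReal.ofReal_ne_top hV
  have hlb := hbv.locallyBoundedVariationOn
  have hbv' : BoundedVariationOn b (uIcc a a') := by rwa [uIcc_of_le haa]
  have hi : IntervalIntegrable (deriv b) volume a a' := hbv'.intervalIntegrable_deriv
  refine ⟨hi, ?_⟩
  set V : ℝ → ℝ := variationOnFromTo b (Icc a a') a with hVd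
  have ha : a ∈ Icc a a' := ⟨le_rfl, haa⟩
  have ha' : a' ∈ Icc a a' := ⟨haa, le_rfl⟩
  have hmono : MonotoneOn V (Icc a a') := variationOnFromTo.monotoneOn hlb ha
  have hmono' : MonotoneOn V (uIcc a a') := by rwa [uIcc_of_le haa]
  have hVi := hmono'.intervalIntegrable_deriv
  have hVe := hmono'.intervalIntegral_deriv_mem_uIcc
  have hVa : V a = 0 := variationOnFromTo.self _ _ _
  have hVa' : V a' ≤ C := by
    have h1 : V a' = (eVariationOn b (Icc a a' ∩ Icc a a')).toReal :=
      variationOnFromTo.eq_of_le _ _ haa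
    rw [h1, inter_self]
    exact ENNReal.toReal_le_of_le_ofReal hC hV
  have hVa0 : 0 ≤ V a' := by
    rw [← hVa]
    exact hmono ha ha' haa
  have hle : ∫ s in a..a', deriv V s ≤ V a' := by
    rw [hVa, sub_zero, uIcc_of_le hVa0] at hVe
    exact hVe.2
  refine le_trans ?_ (hle.trans hVa')
  refine intervalIntegral.integral_mono_ae_restrict haa hi.abs hVi ?_
  have hVbv : BoundedVariationOn V (uIcc a a') := by
    rw [uIcc_of_le haa]
    have h1 := hmono.eVariationOn_le ha ha'
    rw [inter_self] at h1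
    exact ne_top_of_le_ne_top ENNReal.ofReal_ne_top h1
  rw [Filter.EventuallyLE, ae_restrict_iff' measurableSet_Icc]
  have hne : ∀ᵐ s : ℝ, s ≠ a ∧ s ≠ a' := by
    have h1 : ∀ᵐ s : ℝ, s ≠ a := by simp [ae_iff, measure_singleton]
    have h2 : ∀ᵐ s : ℝ, s ≠ a' := by simp [ae_iff, measure_singleton]
    filter_upwards [h1, h2] with s h3 h4
    exact ⟨h3, h4⟩
  filter_upwards [hbv'.ae_differentiableAt_of_mem_uIcc, hVbv.ae_differentiableAt_of_mem_uIcc, hne]
    with s h1 h2 h3 hs
  have hs' : s ∈ uIcc a a' := by rwa [uIcc_of_le haa]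
  have hb := (h1 hs').hasDerivAt
  have hv := (h2 hs').hasDerivAt
  rw [hasDerivAt_iff_tendsto_slope] at hb hv
  have hb2 := (hb.abs).mono_left (nhdsWithin_mono s (show Ioi s ⊆ {s}ᶜ from fun x hx => ne_of_gt hx))
  have hv2 := hv.mono_left (nhdsWithin_mono s (show Ioi s ⊆ {s}ᶜ from fun x hx => ne_of_gt hx))
  have hslt : s < a' := lt_of_le_of_ne hs.2 h3.2
  refine le_of_tendsto_of_tendsto hb2 hv2 ?_
  filter_upwards [Ioo_mem_nhdsGT hslt] with t ht
  have h5 := variationOnFromTo.abs_sub_le_sub_of_le hlb ha hs ⟨hs.1.trans ht.1.le, ht.2.le⟩ ht.1.le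
  rw [slope_def_field, slope_def_field, abs_div, abs_of_pos (sub_pos.mpr ht.1)]
  exact div_le_div_of_nonneg_right h5 (sub_pos.mpr ht.1).le

end Pool.Agent.Y252.RA
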