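import Pool.Agent.Y252.RA.FacE
import Pool.Agent.Y252.RA.FacJ

/-!
Structure of an integrable function on the circle with vanishing positive Fourier coefficients
whose derivative is a measure after multiplication by `z + 1`.
-/

set_option autoImplicit false

namespace Pool.Agent.Y252.RA

open Complex MeasureTheory Set Filter Topology
open scoped Real ComplexConjugate ENNReal

lemma expc (n : ℤ) : Continuous (fun s : ℝ => exp (n * s * I)) := by fun_prop

lemma expd (n : ℤ) (s : ℝ) : HasDerivAt (fun s : ℝ => exp (n * s * I)) ((n * I) * exp (n * s * I)) s := by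
  have h2 : HasDerivAt (fun s : ℝ => (n : ℂ) * s * I) (n * I) s := by
    have := (Complex.ofRealCLM.hasDerivAt (x := s)).const_mul (n : ℂ)
    have := this.mul_const I
    simpa using this
  have h3 := h2.cexp
  rw [mul_comm] at h3
  exact h3

lemma expn (n : ℤ) (s : ℝ) : ‖exp ((n : ℂ) * s * I)‖ = 1 := by
  have : (n : ℂ) * s * I = (((n : ℝ) * s : ℝ) : ℂ) * I := by push_cast; ring
  rw [this, Complex.norm_exp_ofReal_mul_I]

lemma exps (n : ℤ) (s : ℝ) : exp (((n + 1 : ℤ) : ℂ) * s * I) = exp (n * s * I) * exp (s * I) := by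
  rw [← Complex.exp_add]; congr 1; push_cast; ring

/-- first step: the theorem of F. and M. Riesz applied to `(z + 1) dR` -/
theorem first (R : ℝ → ℂ) (hR : IntervalIntegrable R volume (-π) π)
    (h0 : ∀ n : ℤ, 1 ≤ n → ∫ s in (-π)..π, exp (n * s * I) * R s = 0) (C : ℝ)
    (hB : Bd (fun n => -∫ s in (-π)..π, (I * (n + 1) * exp (((n + 1 : ℤ) : ℂ) * s * I) +
      I * n * exp (n * s * I)) * R s) C) :
    ∃ (Q : ℝ → ℂ) (κ : ℂ), IntervalIntegrable Q volume (-π) π ∧
      ∀ᵐ s : ℝ ∂(volume.restrict (Ioc (-π) π)),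
        (exp (s * I) + 1) * R s = (∫ u in (-π)..s, Q u) + κ := by
  set r : ℤ → ℂ := fun n => ∫ s in (-π)..π, exp (n * s * I) * R s with hr
  have hRi : ∀ n : ℤ, IntervalIntegrable (fun s : ℝ => exp (n * s * I) * R s) volume (-π) π :=
    fun n => hR.continuousOn_mul (expc n).continuousOn
  have hm : ∀ n : ℤ, (-∫ s in (-π)..π, (I * (n + 1) * exp (((n + 1 : ℤ) : ℂ) * s * I) +
      I * n * exp (n * s * I)) * R s) = -(I * (n + 1) * r (n + 1) + I * n * r n) := by
    intro n
    congr 1
    rw [hr]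
    simp only
    rw [← intervalIntegral.integral_const_mul, ← intervalIntegral.integral_const_mul,
      ← intervalIntegral.integral_add]
    · refine intervalIntegral.integral_congr fun s _ => ?_
      show _ = _
      ring
    · exact (hRi (n + 1)).const_mul _
    · exact (hRi n).const_mul _
  have hr0 : ∀ n : ℤ, 1 ≤ n → r n = 0 := h0
  obtain ⟨g, hg, hgm⟩ := fmr _ C hB (by
    intro n hn
    rw [hm, hr0 n hn, hr0 (n + 1) (by omega)]
    ring)
  have hgm' : ∀ n : ℤ, ∫ x in (-π)..π, exp (n * x * I) * g x =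
      -(I * (n + 1) * r (n + 1) + I * n * r n) := by
    intro n
    rw [← hgm n, hm]
  have hEi : IntervalIntegrable (fun s : ℝ => I * exp (s * I) * R s) volume (-π) π :=
    hR.continuousOn_mul (by fun_prop : Continuous (fun s : ℝ => I * exp (s * I))).continuousOn
  set Q : ℝ → ℂ := fun s => g s + I * exp (s * I) * R s with hQ
  have hQi : IntervalIntegrable Q volume (-π) π := hg.add hEi
  have hQm : ∀ n : ℤ, ∫ x in (-π)..π, exp (n * x * I) * Q x = -(I * n * (r (n + 1) + r n)) := by
    intro n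
    have e1 : ∫ x in (-π)..π, exp (n * x * I) * Q x = (∫ x in (-π)..π, exp (n * x * I) * g x) +
        I * r (n + 1) := by
      rw [hr]
      simp only
      rw [← intervalIntegral.integral_const_mul, ← intervalIntegral.integral_add]
      · refine intervalIntegral.integral_congr fun s _ => ?_
        show _ = _
        rw [hQ, exps]
        ring
      · exact hg.continuousOn_mul (expc n).continuousOn
      · exact (hRi (n + 1)).const_mul _
    rw [e1, hgm']
    ring
  have hQ0 : ∫ x in (-π)..π, Q x = 0 := by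
    have := hQm 0
    simpa using this
  set q : ℝ → ℂ := fun s => ∫ u in (-π)..s, Q u with hq
  have hqc : Continuous (fun s => ∫ u in (-π)..s, Q u) → True := fun _ => trivial
  have hqi : IntervalIntegrable q volume (-π) π := by
    have h1 : ContinuousOn q (uIcc (-π) π) := by
      refine intervalIntegral.continuousOn_primitive_interval ?_
      rw [uIcc_of_le mpi]
      have := hQi
      rwa [intervalIntegrable_iff_integrableOn_Icc_of_le mpi] at this
    exact h1.intervalIntegrable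
  have hqm : ∀ n : ℤ, n ≠ 0 → ∫ s in (-π)..π, exp (n * s * I) * q s = r (n + 1) + r n := by
    intro n hn
    have h1 := parts (fun s : ℝ => exp (n * s * I)) (fun s : ℝ => (n * I) * exp (n * s * I))
      (expd n) (by fun_prop) ‖(n : ℂ) * I‖ (fun s => by rw [norm_mul, expn, mul_one]) Q hQi
    rw [hQ0, mul_zero, hQm n, zero_sub, neg_neg] at h1
    have h2 : ∫ s in (-π)..π, ((n : ℂ) * I * exp (n * s * I)) * (∫ u in (-π)..s, Q u) =
        (n * I) * ∫ s in (-π)..π, exp (n * s * I) * q s := by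
      rw [← intervalIntegral.integral_const_mul]
      refine intervalIntegral.integral_congr fun s _ => ?_
      show _ = _
      rw [hq]
      ring
    rw [h2] at h1
    have h3 : ((n : ℂ) * I) ≠ 0 := mul_ne_zero (by exact_mod_cast hn) I_ne_zero
    apply mul_left_cancel₀ h3
    rw [h1]
    ring
  have hSi : IntervalIntegrable (fun s : ℝ => (exp (s * I) + 1) * R s) volume (-π) π :=
    hR.continuousOn_mul (by fun_prop : Continuous (fun s : ℝ => (exp (s * I) + 1))).continuousOn
  have hSm : ∀ n : ℤ, ∫ s in (-π)..π, exp (n * s * I) * ((exp (s * I) + 1) * R s) = r (n + 1) + r n := by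
    intro n
    rw [hr]
    simp only
    rw [← intervalIntegral.integral_add]
    · refine intervalIntegral.integral_congr fun s _ => ?_
      show _ = _
      rw [exps]
      ring
    · exact hRi (n + 1)
    · exact hRi n
  obtain ⟨κ, hκ⟩ := fu_const (fun s => (exp (s * I) + 1) * R s - q s) (hSi.sub hqi) (by
    intro n hn
    have e1 : ∫ s in (-π)..π, exp (n * s * I) * ((exp (s * I) + 1) * R s - q s) =
        (∫ s in (-π)..π, exp (n * s * I) * ((exp (s * I) + 1) * R s)) -
          ∫ s in (-π)..π, exp (n * s * I) * q s := by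
      rw [← intervalIntegral.integral_sub]
      · refine intervalIntegral.integral_congr fun s _ => ?_
        show _ = _
        ring
      · exact hSi.continuousOn_mul (expc n).continuousOn
      · exact hqi.continuousOn_mul (expc n).continuousOn
    rw [e1, hSm, hqm n hn, sub_self])
  refine ⟨Q, κ, hQi, ?_⟩
  filter_upwards [hκ] with s hs
  linear_combination hs

lemma tan_inv (s : ℝ) (hs : s ∈ Ioo (-π) π) :
    (exp (s * I) + 1) * ((1 / 2 : ℂ) * (1 - I * ((Real.tan (s / 2) : ℝ) : ℂ))) = 1 := by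
  have hc : 0 < Real.cos (s / 2) := Real.cos_pos_of_mem_Ioo ⟨by linarith [hs.1], by linarith [hs.2]⟩
  have hcc : ((Real.cos (s / 2) : ℝ) : ℂ) ≠ 0 := by exact_mod_cast hc.ne'
  have e6 : exp (s * I) = (((Real.cos (s / 2) : ℝ) : ℂ) + ((Real.sin (s / 2) : ℝ) : ℂ) * I) ^ 2 := by
    have e7 : exp (s * I) = exp (((s / 2 : ℝ) : ℂ) * I) ^ 2 := by
      rw [← Complex.exp_nat_mul]; congr 1; push_cast; ring
    rw [e7, Complex.exp_mul_I, ← Complex.ofReal_cos, ← Complex.ofReal_sin]
  have e8 : ((Real.cos (s / 2) : ℝ) : ℂ) ^ 2 + ((Real.sin (s / 2) : ℝ) : ℂ) ^ 2 = 1 := by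
    have := Real.cos_sq_add_sin_sq (s / 2)
    exact_mod_cast this
  rw [e6, Real.tan_eq_sin_div_cos, Complex.ofReal_div]
  set c : ℂ := ((Real.cos (s / 2) : ℝ) : ℂ)
  set d : ℂ := ((Real.sin (s / 2) : ℝ) : ℂ)
  have h1 : (1 / 2 : ℂ) * (1 - I * (d / c)) = (c - I * d) / (2 * c) := by
    field_simp
  rw [h1, mul_div_assoc', div_eq_one_iff_eq (mul_ne_zero two_ne_zero hcc)]
  linear_combination (c + d * I) * e8 - (c + d * I) * d ^ 2 * I_sq

/-- second step: the imaginary part is absolutely continuous -/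
theorem second (R : ℝ → ℂ) (Q : ℝ → ℂ) (κ : ℂ) (hQ : IntervalIntegrable Q volume (-π) π)
    (hRQ : ∀ᵐ s : ℝ ∂(volume.restrict (Ioc (-π) π)),
      (exp (s * I) + 1) * R s = (∫ u in (-π)..s, Q u) + κ)
    (bf : ℝ → ℝ) (hbf : ∀ᵐ s : ℝ ∂(volume.restrict (Ioc (-π) π)), (R s).im = bf s) (C : ℝ) (hC : 0 ≤ C)
    (hV : eVariationOn bf (Icc (-π) π) ≤ ENNReal.ofReal C) :
    ∃ (h : ℝ → ℝ) (b0 : ℝ), IntervalIntegrable h volume (-π) π ∧ ∫ s in (-π)..π, |h s| ≤ C ∧
      ∀ᵐ s : ℝ ∂(volume.restrict (Ioc (-π) π)), (R s).im = b0 + ∫ u in (-π)..s, h u := by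
  have hpi := Real.pi_pos
  set q1 : ℝ → ℝ := fun s => ∫ u in (-π)..s, (Q u).re with hq1
  set q2 : ℝ → ℝ := fun s => ∫ u in (-π)..s, (Q u).im with hq2
  have hQre : IntervalIntegrable (fun s => (Q s).re) volume (-π) π := ⟨hQ.1.re, hQ.2.re⟩
  have hQim : IntervalIntegrable (fun s => (Q s).im) volume (-π) π := ⟨hQ.1.im, hQ.2.im⟩
  set b : ℝ → ℝ := fun s => (1 / 2) * ((q2 s + κ.im) - (q1 s + κ.re) * Real.tan (s / 2)) with hb
  have hne : ∀ᵐ s : ℝ, s ≠ π := by simp [ae_iff, measure_singleton]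
  -- `b` is the imaginary part of `R` almost everywhere
  have hRb : ∀ᵐ s : ℝ ∂(volume.restrict (Ioc (-π) π)), (R s).im = b s := by
    rw [ae_restrict_iff' measurableSet_Ioc] at hRQ ⊢
    filter_upwards [hRQ, hne] with s h1 h2 hs
    have hs' : s ∈ Ioo (-π) π := ⟨hs.1, lt_of_le_of_ne hs.2 h2⟩
    have h3 := h1 hs
    have h4 := tan_inv s hs'
    have h5 : R s = ((∫ u in (-π)..s, Q u) + κ) * ((1 / 2 : ℂ) * (1 - I * ((Real.tan (s / 2) : ℝ) : ℂ))) := by
      rw [← h3]
      linear_combination (-(R s)) * h4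
    have h6 : ∫ u in (-π)..s, Q u = ((q1 s : ℝ) : ℂ) + ((q2 s : ℝ) : ℂ) * I := by
      have hQs : IntervalIntegrable Q volume (-π) s := by
        refine hQ.mono_set ?_
        rw [uIcc_of_le mpi, uIcc_of_le hs.1.le]
        exact Icc_subset_Icc_right hs.2
      have e1 : (∫ u in (-π)..s, Q u).re = q1 s := by
        rw [hq1]
        have := (Complex.reCLM.intervalIntegral_comp_comm hQs)
        simpa using this.symm
      have e2 : (∫ u in (-π)..s, Q u).im = q2 s := by
        rw [hq2]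
        have := (Complex.imCLM.intervalIntegral_comp_comm hQs)
        simpa using this.symm
      rw [← e1, ← e2, Complex.re_add_im]
    rw [h5, h6]
    have e3 : ((((q1 s : ℝ) : ℂ) + ((q2 s : ℝ) : ℂ) * I) + κ) *
        ((1 / 2 : ℂ) * (1 - I * ((Real.tan (s / 2) : ℝ) : ℂ))) =
        (((1 / 2) * ((q1 s + κ.re) + (q2 s + κ.im) * Real.tan (s / 2)) : ℝ) : ℂ) +
        (((1 / 2) * ((q2 s + κ.im) - (q1 s + κ.re) * Real.tan (s / 2)) : ℝ) : ℂ) * I := by
      conv_lhs => rw [← Complex.re_add_im κ]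
      push_cast
      linear_combination (-(1 / 2 : ℂ) * ((q2 s : ℂ) + (κ.im : ℂ)) * Complex.tan ((s : ℂ) / 2)) * I_sq
    rw [e3, Complex.add_im, Complex.ofReal_im, Complex.mul_I_im, Complex.ofReal_re, zero_add]
  have hAC : ∀ a a' : ℝ, a ∈ Ioo (-π) π → a' ∈ Ioo (-π) π → AbsolutelyContinuousOnInterval b a a' := by
    intro a a' ha ha'
    have hsub : uIcc a a' ⊆ Ioo (-π) π := by
      intro x hx
      rw [mem_uIcc] at hx
      rcases hx with hx | hx
      · exact ⟨lt_of_lt_of_le ha.1 hx.1, lt_of_le_of_lt hx.2 ha'.2⟩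
      · exact ⟨lt_of_lt_of_le ha'.1 hx.1, lt_of_le_of_lt hx.2 ha.2⟩
    have hsub2 : uIcc a a' ⊆ uIcc (-π) π := by
      rw [uIcc_of_le mpi]
      exact hsub.trans Ioo_subset_Icc_self
    have h1 : AbsolutelyContinuousOnInterval q1 a a' :=
      (hQre.absolutelyContinuousOnInterval_intervalIntegral left_mem_uIcc).mono hsub2
    have h2 : AbsolutelyContinuousOnInterval q2 a a' :=
      (hQim.absolutelyContinuousOnInterval_intervalIntegral left_mem_uIcc).mono hsub2
    have hc : ∀ c : ℝ, AbsolutelyContinuousOnInterval (fun _ : ℝ => c) a a' := fun c =>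
      (contDiffOn_const).absolutelyContinuousOnInterval
    have ht : AbsolutelyContinuousOnInterval (fun s : ℝ => Real.tan (s / 2)) a a' := by
      refine ContDiffOn.absolutelyContinuousOnInterval ?_
      intro x hx
      have hx' := hsub hx
      have hcx : Real.cos (x / 2) ≠ 0 :=
        (Real.cos_pos_of_mem_Ioo ⟨by linarith [hx'.1], by linarith [hx'.2]⟩).ne'
      have h3 : ContDiffAt ℝ 1 (fun s : ℝ => Real.tan (s / 2)) x :=
        ContDiffAt.comp (g := Real.tan) (f := fun s : ℝ => s / 2) x (Real.contDiffAt_tan.mpr hcx)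
          (by fun_prop)
      exact h3.contDiffWithinAt
    have h4 := ((h2.add (hc κ.im)).sub ((h1.add (hc κ.re)).mul ht)).const_mul (1 / 2)
    exact h4
  have hcont : ContinuousOn b (Ioo (-π) π) := by
    intro x hx
    obtain ⟨a, ha1, ha2⟩ := exists_between hx.1
    obtain ⟨a', ha1', ha2'⟩ := exists_between hx.2
    have h1 := (hAC a a' ⟨ha1, ha2.trans hx.2⟩ ⟨hx.1.trans ha1', ha2'⟩).continuousOn
    rw [uIcc_of_le (ha2.le.trans ha1'.le)] at h1
    exact (h1.continuousAt (Icc_mem_nhds ha2 ha1')).continuousWithinAt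
  have hVb : eVariationOn b (Ioo (-π) π) ≤ ENNReal.ofReal C := by
    refine var_ae b bf _ hV hcont ?_
    filter_upwards [hRb, hbf] with s h1 h2
    rw [← h1, h2]
  have hloc : ∀ a a' : ℝ, a ∈ Ioo (-π) π → a' ∈ Ioo (-π) π → a ≤ a' →
      IntervalIntegrable (deriv b) volume a a' ∧ ∫ s in a..a', |deriv b s| ≤ C := by
    intro a a' ha ha' haa
    refine tv_bound b a a' C haa hC ((eVariationOn.mono b ?_).trans hVb)
    exact fun x hx => ⟨lt_of_lt_of_le ha.1 hx.1, lt_of_le_of_lt hx.2 ha'.2⟩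
  set A : ℕ → ℝ := fun i => -π + π / (i + 2) with hA
  set B : ℕ → ℝ := fun i => π - π / (i + 2) with hB
  have hlt : ∀ i : ℕ, 0 < π / ((i : ℝ) + 2) ∧ π / ((i : ℝ) + 2) < π := by
    intro i
    have : (0 : ℝ) < (i : ℝ) + 2 := by positivity
    refine ⟨by positivity, ?_⟩
    rw [div_lt_iff₀ this]
    nlinarith [(Nat.cast_nonneg i : (0 : ℝ) ≤ i)]
  have hle2 : ∀ i : ℕ, π / ((i : ℝ) + 2) ≤ π / 2 := by
    intro i
    apply div_le_div_of_nonneg_left hpi.le (by norm_num)
    have := (Nat.cast_nonneg i : (0 : ℝ) ≤ i)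
    linarith
  have hAm : ∀ i, A i ∈ Ioo (-π) π := fun i => by
    have := hlt i
    constructor <;> simp only [hA] <;> linarith
  have hBm : ∀ i, B i ∈ Ioo (-π) π := fun i => by
    have := hlt i
    constructor <;> simp only [hB] <;> linarith
  have hAB : ∀ i, A i ≤ B i := fun i => by
    have := hle2 i
    simp only [hA, hB]
    linarith
  have hlim0 : Tendsto (fun i : ℕ => π / ((i : ℝ) + 2)) atTop (𝓝 0) :=
    Tendsto.div_atTop tendsto_const_nhds
      (tendsto_atTop_add_const_right _ _ tendsto_natCast_atTop_atTop)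
  have hAt : Tendsto A atTop (𝓝 (-π)) := by
    have := hlim0.const_add (-π)
    rwa [add_zero] at this
  have hBt : Tendsto B atTop (𝓝 π) := by
    have := hlim0.const_sub π
    rwa [sub_zero] at this
  have hint : IntegrableOn (deriv b) (Ioc (-π) π) := by
    refine integrableOn_Ioc_of_intervalIntegral_norm_bounded (I := C) (a := A) (b := B) (l := atTop)
      ?_ hAt hBt ?_
    · intro i
      have := (hloc _ _ (hAm i) (hBm i) (hAB i)).1
      rwa [intervalIntegrable_iff_integrableOn_Ioc_of_le (hAB i)] at this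
    · refine Filter.Eventually.of_forall fun i => ?_
      have := (hloc _ _ (hAm i) (hBm i) (hAB i)).2
      rwa [intervalIntegral.integral_of_le (hAB i)] at this
  have hintI : IntervalIntegrable (deriv b) volume (-π) π := by
    rwa [intervalIntegrable_iff_integrableOn_Ioc_of_le mpi]
  have hsubI : ∀ x y : ℝ, x ∈ Icc (-π) π → y ∈ Icc (-π) π → IntervalIntegrable (deriv b) volume x y := by
    intro x y hx hy
    refine hintI.mono_set ?_
    rw [uIcc_of_le mpi]
    exact uIcc_subset_Icc hx hy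
  refine ⟨deriv b, b 0 - ∫ u in (-π)..0, deriv b u, hintI, ?_, ?_⟩
  · have hF : ContinuousOn (fun x => ∫ u in (-π)..x, |deriv b u|) (Icc (-π) π) := by
      have := intervalIntegral.continuousOn_primitive_interval (a := -π) (b := π)
        (f := fun u => |deriv b u|) (μ := volume) (by
          rw [uIcc_of_le mpi]
          have := hintI.abs
          rwa [intervalIntegrable_iff_integrableOn_Icc_of_le mpi] at this)
      rwa [uIcc_of_le mpi] at this
    have h1 : Tendsto (fun i => (∫ u in (-π)..(B i), |deriv b u|) - ∫ u in (-π)..(A i), |deriv b u|) atTop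
        (𝓝 ((∫ u in (-π)..π, |deriv b u|) - ∫ u in (-π)..(-π), |deriv b u|)) := by
      refine Tendsto.sub ?_ ?_
      · have h2 := hF π ⟨mpi, le_rfl⟩
        exact h2.tendsto.comp (tendsto_nhdsWithin_iff.mpr ⟨hBt, Filter.Eventually.of_forall
          fun i => ⟨(hBm i).1.le, (hBm i).2.le⟩⟩)
      · have h2 := hF (-π) ⟨le_rfl, mpi⟩
        exact h2.tendsto.comp (tendsto_nhdsWithin_iff.mpr ⟨hAt, Filter.Eventually.of_forall
          fun i => ⟨(hAm i).1.le, (hAm i).2.le⟩⟩)
    rw [intervalIntegral.integral_same, sub_zero] at h1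
    refine le_of_tendsto h1 (Filter.Eventually.of_forall fun i => ?_)
    have h3 := (hloc _ _ (hAm i) (hBm i) (hAB i)).2
    have h4 : (∫ u in (-π)..(B i), |deriv b u|) - ∫ u in (-π)..(A i), |deriv b u| =
        ∫ u in (A i)..(B i), |deriv b u| := by
      rw [intervalIntegral.integral_interval_sub_left]
      · exact (hsubI _ _ ⟨le_rfl, mpi⟩ ⟨(hBm i).1.le, (hBm i).2.le⟩).abs
      · exact (hsubI _ _ ⟨le_rfl, mpi⟩ ⟨(hAm i).1.le, (hAm i).2.le⟩).abs
    rw [h4]
    exact h3
  · rw [ae_restrict_iff' measurableSet_Ioc] at hRb ⊢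
    filter_upwards [hRb, hne] with s h1 h2 hs
    have hs' : s ∈ Ioo (-π) π := ⟨hs.1, lt_of_le_of_ne hs.2 h2⟩
    rw [h1 hs]
    have h3 := (hAC 0 s ⟨by linarith, hpi⟩ hs').integral_deriv_eq_sub
    have h4 := intervalIntegral.integral_add_adjacent_intervals
      (hsubI (-π) 0 ⟨le_rfl, mpi⟩ ⟨by linarith, hpi.le⟩)
      (hsubI 0 s ⟨by linarith, hpi.le⟩ ⟨hs.1.le, hs.2⟩)
    linarith

end Pool.Agent.Y252.RA
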