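import Pool.Agent.Y252.RA.FacK

/-!
The real part of a function with vanishing positive Fourier coefficients whose imaginary part is
absolutely continuous is a logarithmic potential.
-/

set_option autoImplicit false

namespace Pool.Agent.Y252.RA

open Complex MeasureTheory Set Filter Topology
open scoped Real ComplexConjugate ENNReal

lemma expnat (n : ℕ) (s : ℝ) : exp (((n : ℤ) : ℂ) * s * I) = exp ((n : ℂ) * s * I) := by
  push_cast; rfl

lemma ofR {f : ℝ → ℝ} {a b : ℝ} (hf : IntervalIntegrable f volume a b) :
    IntervalIntegrable (fun s => (f s : ℂ)) volume a b := ⟨hf.1.ofReal, hf.2.ofReal⟩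

theorem third (R : ℝ → ℂ) (hR : IntervalIntegrable R volume (-π) π)
    (h0 : ∀ n : ℕ, 1 ≤ n → ∫ s in (-π)..π, exp ((n : ℂ) * s * I) * R s = 0)
    (h : ℝ → ℝ) (hh : IntervalIntegrable h volume (-π) π) (b0 : ℝ)
    (hb : ∀ᵐ s : ℝ ∂(volume.restrict (Ioc (-π) π)), (R s).im = b0 + ∫ u in (-π)..s, h u) :
    ∃ κ : ℝ, ∀ᵐ s : ℝ ∂(volume.restrict (Ioc (-π) π)),
      (R s).re = κ + (1 / π) * ((∫ u in (-π)..π, h u) * lk s π - pot h s) := by
  have hpi := Real.pi_pos
  have hpic : (π : ℂ) ≠ 0 := by exact_mod_cast hpi.ne'
  set H : ℝ := ∫ u in (-π)..π, h u with hH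
  have hre : IntervalIntegrable (fun s => (R s).re) volume (-π) π := ⟨hR.1.re, hR.2.re⟩
  have him : IntervalIntegrable (fun s => (R s).im) volume (-π) π := ⟨hR.1.im, hR.2.im⟩
  have hlk : IntervalIntegrable (fun s => lk s π) volume (-π) π := lk_int π (-π) π
  have hpot := pot_int h hh
  set D : ℝ → ℝ := fun s => (R s).re - (1 / π) * (H * lk s π - pot h s) with hD
  have hDi : IntervalIntegrable D volume (-π) π :=
    hre.sub (((hlk.const_mul H).sub hpot).const_mul (1 / π))
  have hec : ∀ n : ℕ, Continuous (fun s : ℝ => exp ((n : ℂ) * s * I)) := fun n => by fun_prop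
  have hpos : ∀ n : ℕ, 1 ≤ n → ∫ s in (-π)..π, exp ((n : ℂ) * s * I) * (D s : ℂ) = 0 := by
    intro n hn
    have hn0 : (n : ℂ) ≠ 0 := by exact_mod_cast (by omega : n ≠ 0)
    -- the primitive of `h`
    have e1 : ∫ s in (-π)..π, exp ((n : ℂ) * s * I) * ((R s).im : ℂ) =
        (exp ((n : ℂ) * π * I) * H - ∫ s in (-π)..π, exp ((n : ℂ) * s * I) * (h s : ℂ)) / (n * I) := by
      have h1 := parts (fun s : ℝ => exp (((n : ℤ) : ℂ) * s * I))
        (fun s : ℝ => (((n : ℤ) : ℂ) * I) * exp (((n : ℤ) : ℂ) * s * I))
        (expd n) (by fun_prop) ‖((n : ℤ) : ℂ) * I‖ (fun s => by rw [norm_mul, expn, mul_one])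
        (fun s => (h s : ℂ)) (ofR hh)
      simp only [expnat, Int.cast_natCast] at h1
      rw [eq_div_iff (mul_ne_zero hn0 I_ne_zero)]
      have h2 : (∫ u in (-π)..π, (h u : ℂ)) = (H : ℂ) := by
        rw [intervalIntegral.integral_ofReal]
      rw [h2] at h1
      rw [← h1]
      have h3 : ∫ s in (-π)..π, exp ((n : ℂ) * s * I) * ((R s).im : ℂ) =
          ∫ s in (-π)..π, (exp ((n : ℂ) * s * I) * (b0 : ℂ) +
            exp ((n : ℂ) * s * I) * (∫ u in (-π)..s, (h u : ℂ))) := by
        rw [intervalIntegral.integral_of_le mpi, intervalIntegral.integral_of_le mpi]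
        refine integral_congr_ae ?_
        filter_upwards [hb] with s hs
        rw [hs, intervalIntegral.integral_ofReal]
        push_cast
        ring
      have hprim : IntervalIntegrable (fun s => ∫ u in (-π)..s, (h u : ℂ)) volume (-π) π := by
        have h5 : ContinuousOn (fun s => ∫ u in (-π)..s, (h u : ℂ)) (uIcc (-π) π) := by
          refine intervalIntegral.continuousOn_primitive_interval ?_
          rw [uIcc_of_le mpi]
          have := ofR hh
          rwa [intervalIntegrable_iff_integrableOn_Icc_of_le mpi] at this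
        exact h5.intervalIntegrable
      rw [h3, intervalIntegral.integral_add, intervalIntegral.integral_mul_const]
      · have h4 : ∫ s in (-π)..π, exp ((n : ℂ) * s * I) = 0 := by
          have hper : Function.Periodic (fun s : ℝ => exp ((n : ℂ) * s * I)) (2 * π) := by
            intro s
            show exp (n * ((s + 2 * π : ℝ) : ℂ) * I) = exp (n * s * I)
            rw [ek, exp_per, ← ek]
          have h3 := hper.intervalIntegral_add_eq (-π) 0
          rw [show -π + 2 * π = π by ring, zero_add] at h3
          rw [h3]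
          have h6 := int_exp (n : ℤ)
          simp only [expnat] at h6
          rw [h6, if_neg (by omega)]
          norm_num
        rw [h4, zero_mul, zero_add, ← intervalIntegral.integral_mul_const]
        refine intervalIntegral.integral_congr fun s _ => ?_
        show _ = _
        ring
      · exact (by fun_prop : Continuous (fun s : ℝ => exp ((n : ℂ) * s * I) * (b0 : ℂ))).intervalIntegrable _ _
      · exact hprim.continuousOn_mul (hec n).continuousOn
    have e2 : ∫ s in (-π)..π, exp ((n : ℂ) * s * I) * R s =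
        (∫ s in (-π)..π, exp ((n : ℂ) * s * I) * ((R s).re : ℂ)) +
        I * ∫ s in (-π)..π, exp ((n : ℂ) * s * I) * ((R s).im : ℂ) := by
      rw [← intervalIntegral.integral_const_mul, ← intervalIntegral.integral_add]
      · refine intervalIntegral.integral_congr fun s _ => ?_
        show _ = _
        conv_lhs => rw [← Complex.re_add_im (R s)]
        ring
      · exact (ofR hre).continuousOn_mul (hec n).continuousOn
      · exact ((ofR him).continuousOn_mul (hec n).continuousOn).const_mul _
    rw [h0 n hn, e1] at e2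
    have e3 : ∫ s in (-π)..π, exp ((n : ℂ) * s * I) * (D s : ℂ) =
        (∫ s in (-π)..π, exp ((n : ℂ) * s * I) * ((R s).re : ℂ)) -
        (1 / π) * (H * (∫ s in (-π)..π, exp ((n : ℂ) * s * I) * (lk s π : ℂ)) -
          ∫ s in (-π)..π, exp ((n : ℂ) * s * I) * (pot h s : ℂ)) := by
      rw [← intervalIntegral.integral_const_mul, ← intervalIntegral.integral_sub,
        ← intervalIntegral.integral_const_mul, ← intervalIntegral.integral_sub]
      · refine intervalIntegral.integral_congr fun s _ => ?_
        show _ = _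
        rw [hD]
        push_cast
        ring
      · exact (ofR hre).continuousOn_mul (hec n).continuousOn
      · exact ((((ofR hlk).continuousOn_mul (hec n).continuousOn).const_mul _).sub
          ((ofR hpot).continuousOn_mul (hec n).continuousOn)).const_mul _
      · exact ((ofR hlk).continuousOn_mul (hec n).continuousOn).const_mul _
      · exact (ofR hpot).continuousOn_mul (hec n).continuousOn
    rw [e3, lk_fourier n hn π, pot_fourier h hh n hn]
    have e4 : ∫ s in (-π)..π, exp ((n : ℂ) * s * I) * ((R s).re : ℂ) =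
        -(I * ((exp ((n : ℂ) * π * I) * H - ∫ s in (-π)..π, exp ((n : ℂ) * s * I) * (h s : ℂ)) / (n * I))) := by
      linear_combination -e2
    rw [e4]
    field_simp
    ring
  obtain ⟨c, hc⟩ := fu_const (fun s => (D s : ℂ)) (ofR hDi) (by
    intro n hn
    rcases lt_or_gt_of_ne hn with hn | hn
    · obtain ⟨k, hk⟩ : ∃ k : ℕ, n = -(k : ℤ) := ⟨n.natAbs, by omega⟩
      have h1 := hpos k (by omega)
      have h2 : ∫ s in (-π)..π, conj (exp ((k : ℂ) * s * I) * (D s : ℂ)) = 0 := by
        have h3 := congrArg conj h1
        rw [map_zero] at h3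
        rw [← h3, intervalIntegral.integral_of_le mpi, intervalIntegral.integral_of_le mpi, integral_conj]
      rw [← h2]
      refine intervalIntegral.integral_congr fun s _ => ?_
      show _ = _
      rw [map_mul, Complex.conj_ofReal, ← Complex.exp_conj, hk]
      congr 2
      simp only [map_mul, Complex.conj_ofReal, Complex.conj_I, Complex.conj_natCast]
      push_cast
      ring
    · obtain ⟨k, hk⟩ : ∃ k : ℕ, n = (k : ℤ) := ⟨n.natAbs, by omega⟩
      have h1 := hpos k (by omega)
      rw [hk]
      simp only [expnat]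
      exact h1)
  refine ⟨c.re, ?_⟩
  filter_upwards [hc] with s hs
  have h1 : D s = c.re := by
    rw [← hs, Complex.ofReal_re]
  rw [← h1, hD]
  ring

end Pool.Agent.Y252.RA
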