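import Pool.Agent.Y252.RA.FacJ

/-!
`(z + 1) ℓ` has bounded variation if `ℓ` is integrable, increases on `(-π, c]` and decreases on
`[c, π)`.
-/

set_option autoImplicit false

namespace Pool.Agent.Y252.RA

open Complex MeasureTheory Set Filter Topology
open scoped Real ComplexConjugate ENNReal

lemma evar_comp {E F : Type*} [PseudoEMetricSpace E] [PseudoEMetricSpace F] (v : ℝ → E) (W : ℝ → F)
    (S : Set ℝ) (h : ∀ x ∈ S, ∀ y ∈ S, x ≤ y → edist (v y) (v x) ≤ edist (W y) (W x)) :
    eVariationOn v S ≤ eVariationOn W S := by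
  unfold eVariationOn
  refine iSup_mono fun p => Finset.sum_le_sum fun i _ => ?_
  exact h _ (p.2.2.2 i) _ (p.2.2.2 (i + 1)) (p.2.2.1 (Nat.le_succ i))

lemma E_lip (s t : ℝ) : ‖exp (t * I) - exp (s * I)‖ ≤ |t - s| := by
  have h := Real.norm_exp_I_mul_ofReal_sub_one_le (x := t - s)
  have e : exp (t * I) - exp (s * I) = exp (s * I) * (exp (I * ((t - s : ℝ) : ℂ)) - 1) := by
    rw [mul_sub, ← Complex.exp_add, mul_one]
    congr 2
    push_cast; ring
  rw [e, norm_mul, Complex.norm_exp_ofReal_mul_I, one_mul]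
  simpa using h

lemma E_left (s : ℝ) : ‖exp (s * I) + 1‖ ≤ |s + π| := by
  have h := E_lip (-π) s
  have e : exp (((-π : ℝ) : ℂ) * I) = -1 := by
    push_cast
    rw [neg_mul, Complex.exp_neg, Complex.exp_pi_mul_I]; norm_num
  rw [e, sub_neg_eq_add, sub_neg_eq_add] at h
  exact h

lemma E_right (s : ℝ) : ‖exp (s * I) + 1‖ ≤ |π - s| := by
  have h := E_lip π s
  rw [Complex.exp_pi_mul_I, sub_neg_eq_add] at h
  rwa [abs_sub_comm] at h

/-- left half -/
lemma var_left (l : ℝ → ℝ) (c : ℝ) (hc : -π < c) (hi : IntervalIntegrable l volume (-π) c)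
    (hneg : ∀ s, l s ≤ 0) (hm : MonotoneOn l (Ioc (-π) c)) :
    eVariationOn (fun s : ℝ => (exp (s * I) + 1) * (l s : ℂ)) (Icc (-π) c) ≠ ⊤ := by
  set W : ℝ → ℝ := fun s => (s + π) * l s - 2 * ∫ u in (-π)..s, l u with hW
  have hint : ∀ x y : ℝ, x ∈ Icc (-π) c → y ∈ Icc (-π) c → IntervalIntegrable l volume x y := by
    intro x y hx hy
    refine hi.mono_set ?_
    rw [uIcc_of_le hc.le]
    exact uIcc_subset_Icc hx hy
  have key : ∀ x ∈ Icc (-π) c, ∀ y ∈ Icc (-π) c, x ≤ y →
      ‖(exp (y * I) + 1) * (l y : ℂ) - (exp (x * I) + 1) * (l x : ℂ)‖ ≤ W y - W x := by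
    intro x hx y hy hxy
    rcases eq_or_lt_of_le hxy with rfl | hlt
    · simp
    have hyI : y ∈ Ioc (-π) c := ⟨lt_of_le_of_lt hx.1 hlt, hy.2⟩
    have hI : ∫ u in x..y, l u ≤ (y - x) * l y := by
      have h1 : ∫ u in x..y, l u ≤ ∫ u in x..y, l y := by
        refine intervalIntegral.integral_mono_on_of_le_Ioo hxy (hint x y hx hy)
          intervalIntegrable_const ?_
        intro u hu
        exact hm ⟨lt_of_le_of_lt hx.1 hu.1, hu.2.le.trans hy.2⟩ hyI hu.2.le
      rwa [intervalIntegral.integral_const, smul_eq_mul] at h1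
    have hsplit : (∫ u in (-π)..y, l u) = (∫ u in (-π)..x, l u) + ∫ u in x..y, l u :=
      (intervalIntegral.integral_add_adjacent_intervals (hint _ _ ⟨le_rfl, hc.le⟩ hx)
        (hint _ _ hx hy)).symm
    have hWd : W y - W x = (y + π) * l y - (x + π) * l x - 2 * ∫ u in x..y, l u := by
      simp only [hW]
      rw [hsplit]; ring
    have hly := hneg y
    rcases eq_or_lt_of_le hx.1 with hx0 | hx0
    · -- left end point
      have e0 : exp ((x : ℂ) * I) + 1 = 0 := by
        rw [← hx0]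
        push_cast
        rw [neg_mul, Complex.exp_neg, Complex.exp_pi_mul_I]; norm_num
      rw [e0, zero_mul, sub_zero, norm_mul, Complex.norm_real, Real.norm_eq_abs, hWd]
      have h2 := E_left y
      rw [abs_of_pos (by linarith [hyI.1])] at h2
      rw [abs_of_nonpos hly]
      have h3 : ‖exp ((y : ℂ) * I) + 1‖ * (-l y) ≤ (y + π) * (-l y) :=
        mul_le_mul_of_nonneg_right h2 (by linarith)
      have h4 : x = -π := hx0.symm
      rw [h4] at hI ⊢
      nlinarith
    · have hxI : x ∈ Ioc (-π) c := ⟨hx0, hx.2⟩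
      have hmxy := hm hxI hyI hxy
      have e1 : (exp (y * I) + 1) * (l y : ℂ) - (exp (x * I) + 1) * (l x : ℂ) =
          (exp (y * I) - exp (x * I)) * (l y : ℂ) + (exp (x * I) + 1) * ((l y - l x : ℝ) : ℂ) := by
        push_cast; ring
      rw [e1, hWd]
      refine (norm_add_le _ _).trans ?_
      rw [norm_mul, norm_mul, Complex.norm_real, Complex.norm_real, Real.norm_eq_abs, Real.norm_eq_abs]
      have h2 := E_left x
      have h3 := E_lip x y
      rw [abs_of_pos (by linarith)] at h2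
      rw [abs_of_pos (by linarith)] at h3
      rw [abs_of_nonpos hly, abs_of_nonneg (by linarith : 0 ≤ l y - l x)]
      have h4 : ‖exp ((y : ℂ) * I) - exp ((x : ℂ) * I)‖ * (-l y) ≤ (y - x) * (-l y) :=
        mul_le_mul_of_nonneg_right h3 (by linarith)
      have h5 : ‖exp ((x : ℂ) * I) + 1‖ * (l y - l x) ≤ (x + π) * (l y - l x) :=
        mul_le_mul_of_nonneg_right h2 (by linarith)
      nlinarith
  have hWm : MonotoneOn W (Icc (-π) c) := by
    intro x hx y hy hxy
    have := (norm_nonneg _).trans (key x hx y hy hxy)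
    linarith
  have h1 : eVariationOn (fun s : ℝ => (exp (s * I) + 1) * (l s : ℂ)) (Icc (-π) c) ≤
      eVariationOn W (Icc (-π) c) := by
    refine evar_comp _ _ _ ?_
    intro x hx y hy hxy
    rw [edist_dist, edist_dist, dist_eq_norm, Real.dist_eq]
    exact ENNReal.ofReal_le_ofReal ((key x hx y hy hxy).trans (le_abs_self _))
  have h2 := (hWm.eVariationOn_eq (left_mem_Icc.mpr hc.le) (right_mem_Icc.mpr hc.le)).le
  rw [inter_self] at h2
  exact ne_top_of_le_ne_top ENNReal.ofReal_ne_top (h1.trans h2)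

/-- right half -/
lemma var_right (l : ℝ → ℝ) (c : ℝ) (hc : c < π) (hi : IntervalIntegrable l volume c π)
    (hneg : ∀ s, l s ≤ 0) (hm : AntitoneOn l (Ico c π)) :
    eVariationOn (fun s : ℝ => (exp (s * I) + 1) * (l s : ℂ)) (Icc c π) ≠ ⊤ := by
  set W : ℝ → ℝ := fun s => -((π - s) * l s - 2 * ∫ u in s..π, l u) with hW
  have hint : ∀ x y : ℝ, x ∈ Icc c π → y ∈ Icc c π → IntervalIntegrable l volume x y := by
    intro x y hx hy
    refine hi.mono_set ?_
    rw [uIcc_of_le hc.le]
    exact uIcc_subset_Icc hx hy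
  have key : ∀ x ∈ Icc c π, ∀ y ∈ Icc c π, x ≤ y →
      ‖(exp (y * I) + 1) * (l y : ℂ) - (exp (x * I) + 1) * (l x : ℂ)‖ ≤ W y - W x := by
    intro x hx y hy hxy
    rcases eq_or_lt_of_le hxy with rfl | hlt
    · simp
    have hxI : x ∈ Ico c π := ⟨hx.1, lt_of_lt_of_le hlt hy.2⟩
    have hI : ∫ u in x..y, l u ≤ (y - x) * l x := by
      have h1 : ∫ u in x..y, l u ≤ ∫ u in x..y, l x := by
        refine intervalIntegral.integral_mono_on_of_le_Ioo hxy (hint x y hx hy)
          intervalIntegrable_const ?_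
        intro u hu
        exact hm hxI ⟨hx.1.trans hu.1.le, lt_of_lt_of_le hu.2 hy.2⟩ hu.1.le
      rwa [intervalIntegral.integral_const, smul_eq_mul] at h1
    have hsplit : (∫ u in x..π, l u) = (∫ u in x..y, l u) + ∫ u in y..π, l u :=
      (intervalIntegral.integral_add_adjacent_intervals (hint _ _ hx hy)
        (hint _ _ hy ⟨hc.le, le_rfl⟩)).symm
    have hWd : W y - W x = (π - x) * l x - (π - y) * l y - 2 * ∫ u in x..y, l u := by
      simp only [hW]
      rw [hsplit]; ring
    have hlx := hneg x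
    rcases eq_or_lt_of_le hy.2 with hy0 | hy0
    · have e0 : exp ((y : ℂ) * I) + 1 = 0 := by
        rw [hy0, Complex.exp_pi_mul_I]; norm_num
      rw [e0, zero_mul, zero_sub, norm_neg, norm_mul, Complex.norm_real, Real.norm_eq_abs, hWd]
      have h2 := E_right x
      rw [abs_of_pos (by linarith [hxI.2])] at h2
      rw [abs_of_nonpos hlx]
      have h3 : ‖exp ((x : ℂ) * I) + 1‖ * (-l x) ≤ (π - x) * (-l x) :=
        mul_le_mul_of_nonneg_right h2 (by linarith)
      rw [hy0] at hI ⊢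
      nlinarith
    · have hyI : y ∈ Ico c π := ⟨hy.1, hy0⟩
      have hmxy := hm hxI hyI hxy
      have e1 : (exp (y * I) + 1) * (l y : ℂ) - (exp (x * I) + 1) * (l x : ℂ) =
          (exp (y * I) - exp (x * I)) * (l x : ℂ) - (exp (y * I) + 1) * ((l x - l y : ℝ) : ℂ) := by
        push_cast; ring
      rw [e1, hWd]
      refine (norm_sub_le _ _).trans ?_
      rw [norm_mul, norm_mul, Complex.norm_real, Complex.norm_real, Real.norm_eq_abs, Real.norm_eq_abs]
      have h2 := E_right y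
      have h3 := E_lip x y
      rw [abs_of_pos (by linarith)] at h2
      rw [abs_of_pos (by linarith)] at h3
      rw [abs_of_nonpos hlx, abs_of_nonneg (by linarith : 0 ≤ l x - l y)]
      have h4 : ‖exp ((y : ℂ) * I) - exp ((x : ℂ) * I)‖ * (-l x) ≤ (y - x) * (-l x) :=
        mul_le_mul_of_nonneg_right h3 (by linarith)
      have h5 : ‖exp ((y : ℂ) * I) + 1‖ * (l x - l y) ≤ (π - y) * (l x - l y) :=
        mul_le_mul_of_nonneg_right h2 (by linarith)
      nlinarith
  have hWm : MonotoneOn W (Icc c π) := by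
    intro x hx y hy hxy
    have := (norm_nonneg _).trans (key x hx y hy hxy)
    linarith
  have h1 : eVariationOn (fun s : ℝ => (exp (s * I) + 1) * (l s : ℂ)) (Icc c π) ≤
      eVariationOn W (Icc c π) := by
    refine evar_comp _ _ _ ?_
    intro x hx y hy hxy
    rw [edist_dist, edist_dist, dist_eq_norm, Real.dist_eq]
    exact ENNReal.ofReal_le_ofReal ((key x hx y hy hxy).trans (le_abs_self _))
  have h2 := (hWm.eVariationOn_eq (left_mem_Icc.mpr hc.le) (right_mem_Icc.mpr hc.le)).le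
  rw [inter_self] at h2
  exact ne_top_of_le_ne_top ENNReal.ofReal_ne_top (h1.trans h2)

lemma var_full (l : ℝ → ℝ) (c : ℝ) (hc1 : -π < c) (hc2 : c < π) (hi : IntervalIntegrable l volume (-π) π)
    (hneg : ∀ s, l s ≤ 0) (hm1 : MonotoneOn l (Ioc (-π) c)) (hm2 : AntitoneOn l (Ico c π)) :
    eVariationOn (fun s : ℝ => (exp (s * I) + 1) * (l s : ℂ)) (Icc (-π) π) ≠ ⊤ := by
  have h1 := var_left l c hc1 (hi.mono_set (by
    rw [uIcc_of_le mpi, uIcc_of_le hc1.le]
    exact Icc_subset_Icc_right hc2.le)) hneg hm1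
  have h2 := var_right l c hc2 (hi.mono_set (by
    rw [uIcc_of_le mpi, uIcc_of_le hc2.le]
    exact Icc_subset_Icc_left hc1.le)) hneg hm2
  have h3 := eVariationOn.Icc_add_Icc (fun s : ℝ => (exp (s * I) + 1) * (l s : ℂ)) (s := univ)
    hc1.le hc2.le (mem_univ c)
  simp only [univ_inter] at h3
  rw [← h3]
  exact ENNReal.add_ne_top.mpr ⟨h1, h2⟩

end Pool.Agent.Y252.RA
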