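import Pool.Agent.Y252.RA.FacL
import Pool.Agent.Y252.RA.FacM
import Pool.Agent.Helper649.ReaH

/-!
The necessary condition in its sharp form, at the point `-1`.
-/

set_option autoImplicit false

namespace Pool.Agent.Y252.RA

open Complex MeasureTheory Set Filter Topology
open scoped Real ComplexConjugate ENNReal
open Pool.Agent.Helper649.ReD (Lift lift_exists)

/-- `log |φ(e^{is}) - φ(-1)|` -/
noncomputable def ll (φ : Circle ≃ₜ Circle) (s : ℝ) : ℝ :=
  Real.log ‖(φ (Circle.exp s) : ℂ) - φ (Circle.exp π)‖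

lemma cexp_pi : Circle.exp π = Circle.exp (-π) := by
  ext
  rw [Circle.coe_exp, Circle.coe_exp, Complex.exp_pi_mul_I]
  push_cast
  rw [neg_mul, Complex.exp_neg, Complex.exp_pi_mul_I]; norm_num

/-- shape of `ll` -/
lemma ll_shape (φ : Circle ≃ₜ Circle) : ∃ c ∈ Ioo (-π) π, MonotoneOn (ll φ) (Ioc (-π) c) ∧
    AntitoneOn (ll φ) (Ico c π) := by
  have hpi := Real.pi_pos
  have hlogm : ∀ x y : ℝ, 0 < x → x ≤ y → y ≤ π →
      Real.log (2 * Real.sin (x / 2)) ≤ Real.log (2 * Real.sin (y / 2)) := by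
    intro x y hx hxy hy
    have h1 : 0 < Real.sin (x / 2) := Real.sin_pos_of_pos_of_lt_pi (by linarith) (by linarith)
    refine Real.log_le_log (by linarith) ?_
    have := Real.sin_le_sin_of_le_of_le_pi_div_two (x := x / 2) (y := y / 2) (by linarith) (by linarith)
      (by linarith)
    linarith
  have hloga : ∀ x y : ℝ, π ≤ x → x ≤ y → y < 2 * π →
      Real.log (2 * Real.sin (y / 2)) ≤ Real.log (2 * Real.sin (x / 2)) := by
    intro x y hx hxy hy
    have h1 := hlogm (2 * π - y) (2 * π - x) (by linarith) (by linarith) (by linarith)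
    have e1 : Real.sin ((2 * π - y) / 2) = Real.sin (y / 2) := by
      rw [show (2 * π - y) / 2 = π - y / 2 by ring, Real.sin_pi_sub]
    have e2 : Real.sin ((2 * π - x) / 2) = Real.sin (x / 2) := by
      rw [show (2 * π - x) / 2 = π - x / 2 by ring, Real.sin_pi_sub]
    rwa [e1, e2] at h1
  have hform : ∀ (a b : ℝ), 0 ≤ a - b → a - b ≤ 2 * π →
      ‖((Circle.exp a : Circle) : ℂ) - (Circle.exp b : Circle)‖ = 2 * Real.sin ((a - b) / 2) := by
    intro a b h1 h2
    rw [← nrm (a - b) h1 h2, Circle.coe_exp, Circle.coe_exp]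
    have e : exp (a * I) - exp (b * I) = exp (b * I) * (exp (((a - b : ℝ) : ℂ) * I) - 1) := by
      rw [mul_sub, ← Complex.exp_add, mul_one]
      congr 2
      push_cast; ring
    rw [e, norm_mul, Complex.norm_exp_ofReal_mul_I, one_mul]
  obtain ⟨Ψ, h | h⟩ := lift_exists φ
  · obtain ⟨hc, hm, hp, hΨ⟩ := h
    have hΨπ : Ψ π = Ψ (-π) + 2 * π := by
      have := hp (-π)
      rwa [show -π + 2 * π = π by ring] at this
    obtain ⟨c, hcI, hcv⟩ : ∃ c ∈ Icc (-π) π, Ψ c = Ψ (-π) + π := by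
      have := intermediate_value_Icc mpi hc.continuousOn
      exact this ⟨by linarith, by rw [hΨπ]; linarith⟩
    have hc1 : -π < c := by
      rcases eq_or_lt_of_le hcI.1 with h1 | h1
      · exfalso
        rw [← h1] at hcv
        linarith
      · exact h1
    have hc2 : c < π := by
      rcases eq_or_lt_of_le hcI.2 with h1 | h1
      · exfalso
        rw [h1, hΨπ] at hcv
        linarith
      · exact h1
    have hll : ∀ s ∈ Ioo (-π) π, ll φ s = Real.log (2 * Real.sin ((Ψ s - Ψ (-π)) / 2)) ∧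
        0 < Ψ s - Ψ (-π) ∧ Ψ s - Ψ (-π) < 2 * π := by
      intro s hs
      have h1 := hm hs.1
      have h2 := hm hs.2
      rw [hΨπ] at h2
      refine ⟨?_, by linarith, by linarith⟩
      unfold ll
      rw [cexp_pi, hΨ, hΨ, hform _ _ (by linarith) (by linarith)]
    refine ⟨c, ⟨hc1, hc2⟩, ?_, ?_⟩
    · intro x hx y hy hxy
      obtain ⟨e1, p1, p2⟩ := hll x ⟨hx.1, lt_of_le_of_lt hx.2 hc2⟩
      obtain ⟨e2, p3, p4⟩ := hll y ⟨hy.1, lt_of_le_of_lt hy.2 hc2⟩
      rw [e1, e2]
      have h1 := hm.monotone hxy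
      have h2 := hm.monotone hy.2
      exact hlogm _ _ p1 (by linarith) (by linarith)
    · intro x hx y hy hxy
      obtain ⟨e1, p1, p2⟩ := hll x ⟨lt_of_lt_of_le hc1 hx.1, hx.2⟩
      obtain ⟨e2, p3, p4⟩ := hll y ⟨lt_of_lt_of_le hc1 hy.1, hy.2⟩
      rw [e1, e2]
      have h1 := hm.monotone hxy
      have h2 := hm.monotone hx.1
      exact hloga _ _ (by linarith) (by linarith) p4
  · obtain ⟨hc, hm, hp, hΨ⟩ := h
    have hΨ' : ∀ t : ℝ, φ (Circle.exp t) = Circle.exp (Ψ (-t)) := by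
      intro t
      rw [← hΨ (-t)]
      show φ (Circle.exp t) = φ ((Circle.exp (-t))⁻¹)
      rw [← Circle.exp_neg, neg_neg]
    have hΨπ : Ψ π = Ψ (-π) + 2 * π := by
      have := hp (-π)
      rwa [show -π + 2 * π = π by ring] at this
    obtain ⟨c, hcI, hcv⟩ : ∃ c ∈ Icc (-π) π, Ψ c = Ψ (-π) + π := by
      have := intermediate_value_Icc mpi hc.continuousOn
      exact this ⟨by linarith, by rw [hΨπ]; linarith⟩
    have hc1 : -π < c := by
      rcases eq_or_lt_of_le hcI.1 with h1 | h1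
      · exfalso
        rw [← h1] at hcv
        linarith
      · exact h1
    have hc2 : c < π := by
      rcases eq_or_lt_of_le hcI.2 with h1 | h1
      · exfalso
        rw [h1, hΨπ] at hcv
        linarith
      · exact h1
    have hll : ∀ s ∈ Ioo (-π) π, ll φ s = Real.log (2 * Real.sin ((Ψ (-s) - Ψ (-π)) / 2)) ∧
        0 < Ψ (-s) - Ψ (-π) ∧ Ψ (-s) - Ψ (-π) < 2 * π := by
      intro s hs
      have h1 := hm (show -s < π by linarith [hs.1])
      have h2 := hm (show -π < -s by linarith [hs.2])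
      rw [hΨπ] at h1
      refine ⟨?_, by linarith, by linarith⟩
      unfold ll
      rw [hΨ', hΨ', hform _ _ (by linarith) (by linarith)]
    refine ⟨-c, ⟨by linarith, by linarith⟩, ?_, ?_⟩
    · intro x hx y hy hxy
      obtain ⟨e1, p1, p2⟩ := hll x ⟨hx.1, lt_of_le_of_lt hx.2 (by linarith)⟩
      obtain ⟨e2, p3, p4⟩ := hll y ⟨hy.1, lt_of_le_of_lt hy.2 (by linarith)⟩
      rw [e1, e2]
      have h1 := hm.monotone (show -y ≤ -x by linarith)
      have h2 := hm.monotone (show c ≤ -y by linarith [hy.2])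
      exact hloga _ _ (by linarith) (by linarith) p2
    · intro x hx y hy hxy
      obtain ⟨e1, p1, p2⟩ := hll x ⟨lt_of_lt_of_le (by linarith) hx.1, hx.2⟩
      obtain ⟨e2, p3, p4⟩ := hll y ⟨lt_of_lt_of_le (by linarith) hy.1, hy.2⟩
      rw [e1, e2]
      have h1 := hm.monotone (show -y ≤ -x by linarith)
      have h2 := hm.monotone (show -x ≤ c by linarith [hx.1])
      exact hlogm _ _ p3 (by linarith) (by linarith)

end Pool.Agent.Y252.RA
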