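import Pool.Agent.Y252.RA.FacN

/-!
The necessary condition in its sharp form, at the point `-1`: assembly.
-/

set_option autoImplicit false

namespace Pool.Agent.Y252.RA

open Complex MeasureTheory Set Filter Topology
open scoped Real ComplexConjugate ENNReal
open Pool.Agent.Helper649.ReH (stj)
open Pool.Agent.Helper649.ReDef (CondBV)

lemma per_pi (n : ℤ) : exp ((n : ℂ) * (π : ℝ) * I) = exp ((n : ℂ) * ((-π : ℝ) : ℂ) * I) := by
  have h1 : exp ((n : ℂ) * (π : ℝ) * I) = exp (((π : ℝ) : ℂ) * I) ^ n := by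
    rw [← Complex.exp_int_mul]; congr 1; ring
  have h2 : exp ((n : ℂ) * ((-π : ℝ) : ℂ) * I) = exp (((-π : ℝ) : ℂ) * I) ^ n := by
    rw [← Complex.exp_int_mul]; congr 1; ring
  rw [h1, h2]
  congr 1
  rw [Complex.exp_pi_mul_I]
  push_cast
  rw [neg_mul, Complex.exp_neg, Complex.exp_pi_mul_I]; norm_num

lemma two_le (J : ℕ) (e : ℕ → ℤ) (a : ℕ → ℂ) (M : ℝ)
    (hM : ∀ x : ℝ, ‖∑ j ∈ Finset.range J, a j * exp (e j * x * I)‖ ≤ M) (x : ℝ) :
    ‖∑ j ∈ Finset.range J, a j * (exp (((e j + 1 : ℤ) : ℂ) * x * I) + exp (e j * x * I))‖ ≤ 2 * M := by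
  have h1 : ∑ j ∈ Finset.range J, a j * (exp (((e j + 1 : ℤ) : ℂ) * x * I) + exp (e j * x * I)) =
      (exp (x * I) + 1) * ∑ j ∈ Finset.range J, a j * exp (e j * x * I) := by
    rw [Finset.mul_sum]
    refine Finset.sum_congr rfl fun j _ => ?_
    rw [exps]; ring
  have h2 : ‖exp ((x : ℂ) * I) + 1‖ ≤ 2 := by
    refine (norm_add_le _ _).trans ?_
    rw [Complex.norm_exp_ofReal_mul_I, norm_one]; norm_num
  rw [h1, norm_mul]
  exact mul_le_mul h2 (hM x) (norm_nonneg _) (by norm_num)

lemma sum_der (J : ℕ) (e : ℕ → ℤ) (a : ℕ → ℂ) (s : ℝ) :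
    HasDerivAt (fun s : ℝ => ∑ j ∈ Finset.range J, a j * exp (e j * s * I))
      (∑ j ∈ Finset.range J, a j * ((e j * I) * exp (e j * s * I))) s := by
  have := HasDerivAt.fun_sum (u := Finset.range J) (A := fun j => fun s : ℝ => a j * exp (e j * s * I))
    (A' := fun j => a j * ((e j * I) * exp (e j * s * I))) (x := s)
    (fun j _ => (expd (e j) s).const_mul (a j))
  exact this

lemma sum_der2 (J : ℕ) (e : ℕ → ℤ) (a : ℕ → ℂ) (s : ℝ) :
    HasDerivAt (fun s : ℝ => ∑ j ∈ Finset.range J,
        a j * (exp (((e j + 1 : ℤ) : ℂ) * s * I) + exp (e j * s * I)))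
      (∑ j ∈ Finset.range J, a j * ((((e j + 1 : ℤ) : ℂ) * I) * exp (((e j + 1 : ℤ) : ℂ) * s * I) +
        (e j * I) * exp (e j * s * I))) s := by
  have := HasDerivAt.fun_sum (u := Finset.range J)
    (A := fun j => fun s : ℝ => a j * (exp (((e j + 1 : ℤ) : ℂ) * s * I) + exp (e j * s * I)))
    (A' := fun j => a j * ((((e j + 1 : ℤ) : ℂ) * I) * exp (((e j + 1 : ℤ) : ℂ) * s * I) +
        (e j * I) * exp (e j * s * I))) (x := s)
    (fun j _ => ((expd (e j + 1) s).add (expd (e j) s)).const_mul (a j))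
  exact this

theorem nec1 (φ : Circle ≃ₜ Circle) (C : ℝ) (hC : 0 ≤ C) (hφ : CondBV φ C) :
    ∃ β h : ℝ → ℝ, eVariationOn β (Icc (-π) π) ≤ ENNReal.ofReal C ∧
      IntervalIntegrable h volume (-π) π ∧ ∫ s in (-π)..π, |h s| ≤ C ∧
      ∀ᵐ s : ℝ ∂(volume.restrict (Ioc (-π) π)),
        ll φ s = (-∫ u in (-π)..π, h u) * lk s π + β s + pot h s := by
  have hpi := Real.pi_pos
  obtain ⟨hint, β, hβ, hmom⟩ := hφ (φ (Circle.exp π))
  have hlI : IntervalIntegrable (ll φ) volume (-π) π := hint
  have hl2 : 0 ≤ Real.log 2 := Real.log_nonneg (by norm_num)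
  -- `λ = ll - log 2 ≤ 0`
  set lam : ℝ → ℝ := fun s => ll φ s - Real.log 2 with hlam
  have hlamI : IntervalIntegrable lam volume (-π) π := hlI.sub intervalIntegrable_const
  have hneg : ∀ s, lam s ≤ 0 := by
    intro s
    simp only [hlam, ll]
    have h1 : ‖(φ (Circle.exp s) : ℂ) - φ (Circle.exp π)‖ ≤ 2 := by
      refine (norm_sub_le _ _).trans ?_
      rw [Circle.norm_coe, Circle.norm_coe]; norm_num
    rcases eq_or_lt_of_le (norm_nonneg ((φ (Circle.exp s) : ℂ) - φ (Circle.exp π))) with h2 | h2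
    · rw [← h2, Real.log_zero]; linarith
    · have := Real.log_le_log h2 h1
      linarith
  obtain ⟨c, hcI, hm1, hm2⟩ := ll_shape φ
  have hvar := var_full lam c hcI.1 hcI.2 hlamI hneg
    (fun x hx y hy hxy => by
      have := hm1 hx hy hxy
      simp only [hlam]; linarith)
    (fun x hx y hy hxy => by
      have := hm2 hx hy hxy
      simp only [hlam]; linarith)
  set Cv : ℝ := (eVariationOn (fun s : ℝ => (exp (s * I) + 1) * (lam s : ℂ)) (Icc (-π) π)).toReal with hCv
  have hCv0 : 0 ≤ Cv := ENNReal.toReal_nonneg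
  have hCvle : eVariationOn (fun s : ℝ => (exp (s * I) + 1) * (lam s : ℂ)) (Icc (-π) π) ≤
      ENNReal.ofReal Cv := by
    rw [hCv, ENNReal.ofReal_toReal hvar]
  set L1 : ℝ := ∫ s in (-π)..π, |lam s| with hL1
  have hβI : IntervalIntegrable β volume (-π) π :=
    (stj β C hC hβ (fun _ => 0) (fun _ => 0) (fun s => hasDerivAt_const s 0) continuous_const rfl 0
      (by intro s; simp)).1
  set R : ℝ → ℂ := fun s => β s - (ll φ s : ℂ) with hR
  have hRI : IntervalIntegrable R volume (-π) π := hβI.sub (ofR hlI)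
  set β2 : ℝ → ℂ := fun s => β s - ((Real.log 2 : ℝ) : ℂ) with hβ2
  have hβ2V : eVariationOn β2 (Icc (-π) π) ≤ ENNReal.ofReal C := by
    refine le_trans (evar_comp _ β _ ?_) hβ
    intro x _ y _ _
    simp only [hβ2]
    rw [edist_sub_right]
  have hRe : ∀ s, R s = β2 s - (lam s : ℂ) := by
    intro s
    simp only [hR, hβ2, hlam]
    push_cast; ring
  have hβ2I : IntervalIntegrable β2 volume (-π) π := hβI.sub intervalIntegrable_const
  have h0 : ∀ n : ℕ, 1 ≤ n → ∫ s in (-π)..π, exp ((n : ℂ) * s * I) * R s = 0 := by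
    intro n hn
    have e1 : ∫ s in (-π)..π, exp ((n : ℂ) * s * I) * R s =
        (∫ s in (-π)..π, exp ((n : ℂ) * s * I) * β s) -
        ∫ s in (-π)..π, exp ((n : ℂ) * s * I) * (ll φ s : ℂ) := by
      rw [← intervalIntegral.integral_sub]
      · refine intervalIntegral.integral_congr fun s _ => ?_
        show _ = _
        simp only [hR]; ring
      · exact hβI.continuousOn_mul (by fun_prop : Continuous (fun s : ℝ => exp ((n : ℂ) * s * I))).continuousOn
      · exact (ofR hlI).continuousOn_mul (by fun_prop : Continuous (fun s : ℝ => exp ((n : ℂ) * s * I))).continuousOn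
    rw [e1, sub_eq_zero]
    exact (hmom n hn).symm
  have h0' : ∀ n : ℤ, 1 ≤ n → ∫ s in (-π)..π, exp (n * s * I) * R s = 0 := by
    intro n hn
    obtain ⟨k, hk⟩ : ∃ k : ℕ, n = (k : ℤ) := ⟨n.natAbs, by omega⟩
    rw [hk]
    simp only [expnat]
    exact h0 k (by omega)
  -- boundedness
  have hB : Bd (fun n => -∫ s in (-π)..π, (I * (n + 1) * exp (((n + 1 : ℤ) : ℂ) * s * I) +
      I * n * exp (n * s * I)) * R s) (2 * C * 2 + (2 * Cv + L1)) := by
    intro J e a M hM
    have hM0 : 0 ≤ M := (norm_nonneg _).trans (hM 0)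
    set g' : ℝ → ℂ := fun s => ∑ j ∈ Finset.range J,
      a j * ((((e j + 1 : ℤ) : ℂ) * I) * exp (((e j + 1 : ℤ) : ℂ) * s * I) +
        (e j * I) * exp (e j * s * I)) with hg'
    have hg'c : Continuous g' := by
      rw [hg']
      fun_prop
    have e1 : ∑ j ∈ Finset.range J, a j * (-∫ s in (-π)..π,
        (I * ((e j : ℤ) + 1) * exp (((e j + 1 : ℤ) : ℂ) * s * I) + I * (e j : ℤ) * exp ((e j : ℤ) * s * I)) * R s) =
        -∫ s in (-π)..π, g' s * R s := by
      have e2 : ∫ s in (-π)..π, g' s * R s = ∑ j ∈ Finset.range J, ∫ s in (-π)..π,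
          (a j * ((((e j + 1 : ℤ) : ℂ) * I) * exp (((e j + 1 : ℤ) : ℂ) * s * I) +
            (e j * I) * exp (e j * s * I))) * R s := by
        rw [← intervalIntegral.integral_finsetSum]
        · refine intervalIntegral.integral_congr fun s _ => ?_
          show g' s * R s = _
          rw [hg']
          simp only
          rw [Finset.sum_mul]
        · intro j _
          exact hRI.continuousOn_mul (by fun_prop : Continuous (fun s : ℝ =>
            (a j * ((((e j + 1 : ℤ) : ℂ) * I) * exp (((e j + 1 : ℤ) : ℂ) * s * I) +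
            (e j * I) * exp (e j * s * I))))).continuousOn
      rw [e2, ← Finset.sum_neg_distrib]
      refine Finset.sum_congr rfl fun j _ => ?_
      rw [mul_neg, ← intervalIntegral.integral_const_mul]
      congr 1
      refine intervalIntegral.integral_congr fun s _ => ?_
      show _ = _
      push_cast
      ring
    rw [e1, norm_neg]
    have e3 : ∫ s in (-π)..π, g' s * R s = (∫ s in (-π)..π, g' s * β2 s) -
        ∫ s in (-π)..π, g' s * (lam s : ℂ) := by
      rw [← intervalIntegral.integral_sub]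
      · refine intervalIntegral.integral_congr fun s _ => ?_
        show _ = _
        rw [hRe]; ring
      · exact hβ2I.continuousOn_mul hg'c.continuousOn
      · exact (ofR hlamI).continuousOn_mul hg'c.continuousOn
    have hpart1 : ‖∫ s in (-π)..π, g' s * β2 s‖ ≤ 2 * C * (2 * M) := by
      refine (stj β2 C hC hβ2V _ g' (fun s => sum_der2 J e a s) hg'c ?_ (2 * M) ?_).2
      · refine Finset.sum_congr rfl fun j _ => ?_
        rw [per_pi, per_pi]
      · exact two_le J e a M hM
    -- the part with `lam`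
    set t' : ℝ → ℂ := fun s => ∑ j ∈ Finset.range J, a j * ((e j * I) * exp (e j * s * I)) with ht'
    have ht'c : Continuous t' := by
      rw [ht']
      fun_prop
    set t : ℝ → ℂ := fun s => ∑ j ∈ Finset.range J, a j * exp (e j * s * I) with ht
    have htc : Continuous t := by
      rw [ht]
      fun_prop
    have e4 : ∀ s : ℝ, g' s * (lam s : ℂ) = t' s * ((exp (s * I) + 1) * (lam s : ℂ)) +
        (t s * (I * exp (s * I))) * (lam s : ℂ) := by
      intro s
      have : g' s = t' s * (exp (s * I) + 1) + t s * (I * exp (s * I)) := by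
        rw [hg', ht', ht]
        simp only
        rw [Finset.sum_mul, Finset.sum_mul, ← Finset.sum_add_distrib]
        refine Finset.sum_congr rfl fun j _ => ?_
        rw [exps]
        push_cast
        ring
      rw [this]; ring
    have hvI : IntervalIntegrable (fun s : ℝ => (exp (s * I) + 1) * (lam s : ℂ)) volume (-π) π :=
      (ofR hlamI).continuousOn_mul (by fun_prop : Continuous (fun s : ℝ => (exp (s * I) + 1))).continuousOn
    have hpart2 : ‖∫ s in (-π)..π, t' s * ((exp (s * I) + 1) * (lam s : ℂ))‖ ≤ 2 * Cv * M := by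
      refine (stj _ Cv hCv0 hCvle t t' (fun s => sum_der J e a s) ht'c ?_ M hM).2
      rw [ht]
      refine Finset.sum_congr rfl fun j _ => ?_
      rw [per_pi]
    have hpart3 : ‖∫ s in (-π)..π, (t s * (I * exp (s * I))) * (lam s : ℂ)‖ ≤ L1 * M := by
      refine (intervalIntegral.norm_integral_le_integral_norm mpi).trans ?_
      rw [hL1, ← intervalIntegral.integral_mul_const]
      refine intervalIntegral.integral_mono_on mpi ?_ ?_ ?_
      · exact ((ofR hlamI).continuousOn_mul (by fun_prop : Continuous (fun s : ℝ =>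
          (t s * (I * exp (s * I))))).continuousOn).norm
      · exact hlamI.abs.mul_const _
      · intro s _
        rw [norm_mul, norm_mul, norm_mul, Complex.norm_I, Complex.norm_exp_ofReal_mul_I, one_mul, mul_one,
          Complex.norm_real, Real.norm_eq_abs, mul_comm]
        exact mul_le_mul_of_nonneg_left (hM s) (abs_nonneg _)
    have e5 : ∫ s in (-π)..π, g' s * (lam s : ℂ) =
        (∫ s in (-π)..π, t' s * ((exp (s * I) + 1) * (lam s : ℂ))) +
        ∫ s in (-π)..π, (t s * (I * exp (s * I))) * (lam s : ℂ) := by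
      rw [← intervalIntegral.integral_add]
      · exact intervalIntegral.integral_congr fun s _ => e4 s
      · exact hvI.continuousOn_mul ht'c.continuousOn
      · exact (ofR hlamI).continuousOn_mul (by fun_prop : Continuous (fun s : ℝ =>
          (t s * (I * exp (s * I))))).continuousOn
    rw [e3, e5]
    calc ‖(∫ s in (-π)..π, g' s * β2 s) - ((∫ s in (-π)..π, t' s * ((exp (s * I) + 1) * (lam s : ℂ))) +
        ∫ s in (-π)..π, (t s * (I * exp (s * I))) * (lam s : ℂ))‖ ≤
        2 * C * (2 * M) + (2 * Cv * M + L1 * M) :=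
          (norm_sub_le _ _).trans (add_le_add hpart1 ((norm_add_le _ _).trans (add_le_add hpart2 hpart3)))
      _ = (2 * C * 2 + (2 * Cv + L1)) * M := by ring
  obtain ⟨Q, κ, hQI, hQ⟩ := first R hRI h0' _ hB
  have him : eVariationOn (fun s => (β s).im) (Icc (-π) π) ≤ ENNReal.ofReal C := by
    refine le_trans (evar_comp _ β _ ?_) hβ
    intro x _ y _ _
    rw [edist_dist, edist_dist, Real.dist_eq, dist_eq_norm, ← Complex.sub_im]
    exact ENNReal.ofReal_le_ofReal (Complex.abs_im_le_norm _)
  have hre : eVariationOn (fun s => (β s).re) (Icc (-π) π) ≤ ENNReal.ofReal C := by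
    refine le_trans (evar_comp _ β _ ?_) hβ
    intro x _ y _ _
    rw [edist_dist, edist_dist, Real.dist_eq, dist_eq_norm, ← Complex.sub_re]
    exact ENNReal.ofReal_le_ofReal (Complex.abs_re_le_norm _)
  obtain ⟨h, b0, hh, hh1, hhb⟩ := second R Q κ hQI hQ (fun s => (β s).im)
    (Filter.Eventually.of_forall fun s => by simp [hR]) C hC him
  obtain ⟨κ', hκ'⟩ := third R hRI h0 h hh b0 hhb
  refine ⟨fun s => (β s).re - κ', fun s => h s * (1 / π), ?_, hh.mul_const _, ?_, ?_⟩
  · refine le_trans (evar_comp _ (fun s => (β s).re) _ ?_) hre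
    intro x _ y _ _
    rw [edist_sub_right]
  · have e6 : ∫ s in (-π)..π, |h s * (1 / π)| = (∫ s in (-π)..π, |h s|) * (1 / π) := by
      rw [← intervalIntegral.integral_mul_const]
      refine intervalIntegral.integral_congr fun s _ => ?_
      show _ = _
      rw [abs_mul, abs_of_pos (by positivity : (0 : ℝ) < 1 / π)]
    rw [e6]
    have h3 : 1 / π ≤ 1 := by
      rw [div_le_one hpi]
      linarith [Real.pi_gt_three]
    have h4 : 0 ≤ ∫ s in (-π)..π, |h s| :=
      intervalIntegral.integral_nonneg mpi fun s _ => abs_nonneg _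
    calc (∫ s in (-π)..π, |h s|) * (1 / π) ≤ (∫ s in (-π)..π, |h s|) * 1 :=
          mul_le_mul_of_nonneg_left h3 h4
      _ ≤ C := by rw [mul_one]; exact hh1
  · filter_upwards [hκ'] with s hs
    have e7 : ll φ s = (β s).re - (R s).re := by simp [hR]
    have e8 : pot (fun s => h s * (1 / π)) s = pot h s * (1 / π) := by
      unfold pot
      rw [← intervalIntegral.integral_mul_const]
      refine intervalIntegral.integral_congr fun t _ => ?_
      show _ = _
      ring
    rw [e7, hs, e8, intervalIntegral.integral_mul_const]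
    ring

end Pool.Agent.Y252.RA
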