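import Pool.Agent.Y252.RA.FacO

/-!
Rotations; the necessary condition at every point.
-/

set_option autoImplicit false

namespace Pool.Agent.Y252.RA

open Complex MeasureTheory Set Filter Topology
open scoped Real ComplexConjugate ENNReal
open Pool.Agent.Helper649.ReH (cond_bv)
open Pool.Agent.Helper649.ReD (cond_meas)
open Pool.Agent.Helper649.ReDef (CondBV Cond)

lemma exp_surj (a : Circle) : ∃ γ : ℝ, Circle.exp γ = a := ⟨Complex.arg a, Circle.exp_arg a⟩

lemma cexp_per (s : ℝ) : Circle.exp (s + 2 * π) = Circle.exp s := by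
  ext
  rw [Circle.coe_exp, Circle.coe_exp, exp_per]

/-- shift of an integral of a periodic function -/
lemma shift_int (F : ℝ → ℂ) (hF : Function.Periodic F (2 * π)) (γ : ℝ) :
    ∫ s in (-π)..π, F (s + γ) = ∫ s in (-π)..π, F s := by
  have h1 := hF.intervalIntegral_add_eq (-π) (-π + γ)
  rw [show -π + 2 * π = π by ring] at h1
  rw [h1]
  have h3 := intervalIntegral.integral_comp_add_right (a := -π) (b := π) F γ
  rw [show π + γ = -π + γ + 2 * π by ring] at h3
  exact h3

lemma cond_rot (φ : Circle ≃ₜ Circle) (C : ℝ) (h : Cond φ C) (a : Circle) :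
    Cond ((Homeomorph.mulLeft a).trans φ) C := by
  obtain ⟨γ, rfl⟩ := exp_surj a
  intro x
  obtain ⟨h1, h2⟩ := h x
  have hval : ∀ s : ℝ, ((Homeomorph.mulLeft (Circle.exp γ)).trans φ) (Circle.exp s) =
      φ (Circle.exp (s + γ)) := by
    intro s
    show φ (Circle.exp γ * Circle.exp s) = _
    rw [← Circle.exp_add, add_comm]
  have hper : Function.Periodic (fun s : ℝ => Real.log ‖(φ (Circle.exp s) : ℂ) - x‖) (2 * π) := by
    intro s
    show Real.log ‖(φ (Circle.exp (s + 2 * π)) : ℂ) - x‖ = _
    rw [cexp_per]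
  refine ⟨?_, ?_⟩
  · have h3 : IntervalIntegrable (fun s : ℝ => Real.log ‖(φ (Circle.exp s) : ℂ) - x‖) volume (-π + γ) (π + γ) := by
      refine hper.intervalIntegrable (by positivity) (t := -π) ?_ _ _
      rw [show -π + 2 * π = π by ring]
      exact h1
    have h4 := h3.comp_add_right γ
    simp only [add_sub_cancel_right] at h4
    refine h4.congr ?_
    intro s _
    show Real.log ‖(φ (Circle.exp (s + γ)) : ℂ) - x‖ =
      Real.log ‖(((Homeomorph.mulLeft (Circle.exp γ)).trans φ) (Circle.exp s) : ℂ) - x‖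
    rw [hval]
  · intro p M hM
    set w : ℂ := ((Circle.exp (-γ) : Circle) : ℂ) with hw
    set q : Polynomial ℂ := p.comp (Polynomial.C w * Polynomial.X) with hq
    have hqe : ∀ z, q.eval z = p.eval (w * z) := by
      intro z
      rw [hq, Polynomial.eval_comp]
      simp
    have hqd : ∀ z, q.derivative.eval z = w * p.derivative.eval (w * z) := by
      intro z
      rw [hq, Polynomial.derivative_comp]
      simp
    have hqM : ∀ z : ℂ, ‖z‖ ≤ 1 → ‖q.eval z‖ ≤ M := by
      intro z hz
      rw [hqe]
      refine hM _ ?_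
      rw [norm_mul, hw, Circle.norm_coe, one_mul]
      exact hz
    have h3 := h2 q M hqM
    refine le_trans (le_of_eq ?_) h3
    congr 1
    set F : ℝ → ℂ := fun s => exp (s * I) * q.derivative.eval (exp (s * I)) *
        (Real.log ‖(φ (Circle.exp s) : ℂ) - x‖ : ℝ) with hF
    have hFp : Function.Periodic F (2 * π) := by
      intro s
      simp only [hF]
      rw [exp_per, cexp_per]
    rw [← shift_int F hFp γ]
    refine intervalIntegral.integral_congr fun s _ => ?_
    show exp (s * I) * p.derivative.eval (exp (s * I)) *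
      ((Real.log ‖(((Homeomorph.mulLeft (Circle.exp γ)).trans φ) (Circle.exp s) : ℂ) - x‖ : ℝ) : ℂ) = F (s + γ)
    simp only [hF]
    rw [hval, hqd]
    have e1 : w * exp (((s + γ : ℝ) : ℂ) * I) = exp (s * I) := by
      rw [hw, Circle.coe_exp, ← Complex.exp_add]
      congr 1
      push_cast; ring
    rw [e1]
    have e2 : exp (((s + γ : ℝ) : ℂ) * I) * (w * p.derivative.eval (exp (s * I))) =
        (w * exp (((s + γ : ℝ) : ℂ) * I)) * p.derivative.eval (exp (s * I)) := by ring
    rw [e2, e1]

/-- logarithmic potential on `(0, 2π)` -/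
noncomputable def pot2 (h : ℝ → ℝ) (s : ℝ) : ℝ := ∫ t in (0 : ℝ)..(2 * π), lk s t * h t

theorem nec2 (φ : Circle ≃ₜ Circle) (C : ℝ) (hC : 0 ≤ C) (hφ : Cond φ C) (y : Circle) :
    ∃ β h : ℝ → ℝ, eVariationOn β (Icc 0 (2 * π)) ≤ ENNReal.ofReal C ∧
      IntervalIntegrable h volume 0 (2 * π) ∧ ∫ s in (0 : ℝ)..(2 * π), |h s| ≤ C ∧
      ∀ᵐ s : ℝ ∂(volume.restrict (Ioc 0 (2 * π))),
        IntervalIntegrable (fun t => lk s t * h t) volume 0 (2 * π) ∧
        Real.log ‖(φ (y * Circle.exp s) : ℂ) - φ y‖ =
          (-∫ u in (0 : ℝ)..(2 * π), h u) * lk s 0 + β s + pot2 h s := by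
  have hpi := Real.pi_pos
  have h1 := cond_rot φ C hφ (y * Circle.exp π)
  have h2 := cond_bv _ C ((cond_meas _ C).mp h1)
  obtain ⟨β, h, hβ, hh, hh1, hae⟩ := nec1 _ C hC h2
  have e0 : (0 : ℝ) - π = -π := by ring
  have e1 : 2 * π - π = π := by ring
  have hsh : ∀ G : ℝ → ℝ, ∫ s in (0 : ℝ)..(2 * π), G (s - π) = ∫ s in (-π)..π, G s := by
    intro G
    rw [intervalIntegral.integral_comp_sub_right G π, e0, e1]
  have hshI : ∀ G : ℝ → ℝ, IntervalIntegrable G volume (-π) π →
      IntervalIntegrable (fun s => G (s - π)) volume 0 (2 * π) := by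
    intro G hG
    have := hG.comp_sub_right π
    rwa [show -π + π = (0 : ℝ) by ring, show π + π = 2 * π by ring] at this
  refine ⟨fun s => β (s - π), fun s => h (s - π), ?_, hshI h hh, ?_, ?_⟩
  · refine le_trans (le_of_eq ?_) hβ
    have h3 := eVariationOn.comp_eq_of_monotoneOn β (t := Icc 0 (2 * π)) (fun s : ℝ => s - π)
      (fun a _ b _ hab => by show a - π ≤ b - π; linarith)
    have h4 : (fun s : ℝ => s - π) '' Icc 0 (2 * π) = Icc (-π) π := by
      rw [image_sub_const_Icc, e0, e1]
    rw [h4] at h3
    exact h3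
  · rw [hsh (fun s => |h s|)]
    exact hh1
  · have hae2 : ∀ᵐ s : ℝ, s ∈ Ioc (-π) π → IntervalIntegrable (fun t => lk s t * h t) volume (-π) π ∧
        ll ((Homeomorph.mulLeft (y * Circle.exp π)).trans φ) s =
          (-∫ u in (-π)..π, h u) * lk s π + β s + pot h s := by
      rw [← ae_restrict_iff' measurableSet_Ioc]
      filter_upwards [hae, pot_ae h hh] with s a b
      exact ⟨b, a⟩
    have hq := (measurePreserving_sub_right (volume : Measure ℝ) π).quasiMeasurePreserving
    have hae3 := hq.ae hae2
    rw [ae_restrict_iff' measurableSet_Ioc]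
    filter_upwards [hae3] with s hs hs2
    obtain ⟨h5, h6⟩ := hs ⟨by linarith [hs2.1], by linarith [hs2.2]⟩
    have hlk : ∀ t : ℝ, lk s t = lk (s - π) (t - π) := by
      intro t
      have := lk_shift (s - π) (t - π) π
      rw [sub_add_cancel, sub_add_cancel] at this
      exact this
    refine ⟨?_, ?_⟩
    · have h7 := hshI (fun t => lk (s - π) t * h t) h5
      refine h7.congr ?_
      intro t _
      show lk (s - π) (t - π) * h (t - π) = lk s t * h (t - π)
      rw [hlk]
    · have h8 : ll ((Homeomorph.mulLeft (y * Circle.exp π)).trans φ) (s - π) =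
          Real.log ‖(φ (y * Circle.exp s) : ℂ) - φ y‖ := by
        unfold ll
        have e2 : ((Homeomorph.mulLeft (y * Circle.exp π)).trans φ) (Circle.exp (s - π)) =
            φ (y * Circle.exp s) := by
          show φ (y * Circle.exp π * Circle.exp (s - π)) = _
          rw [mul_assoc, ← Circle.exp_add]
          congr 3
          ring
        have e3 : ((Homeomorph.mulLeft (y * Circle.exp π)).trans φ) (Circle.exp π) = φ y := by
          show φ (y * Circle.exp π * Circle.exp π) = _
          rw [mul_assoc, ← Circle.exp_add]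
          have : Circle.exp (π + π) = 1 := by
            have := cexp_per 0
            rw [zero_add, Circle.exp_zero, two_mul] at this
            exact this
          rw [this, mul_one]
        rw [e2, e3]
      rw [← h8, h6, hsh h]
      have h9 : lk (s - π) π = lk s 0 := by
        rw [hlk 0]
        have := lk_per (s - π) (-π)
        simp only at this
        rw [zero_sub, lk_symm (s - π) (-π), ← this, lk_symm]
        congr 1
        ring
      have h10 : pot2 (fun t => h (t - π)) s = pot h (s - π) := by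
        unfold pot2 pot
        rw [← hsh (fun t => lk (s - π) t * h t)]
        refine intervalIntegral.integral_congr fun t _ => ?_
        show lk s t * h (t - π) = lk (s - π) (t - π) * h (t - π)
        rw [hlk]
      rw [h9, h10]

end Pool.Agent.Y252.RA
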