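import Pool.Agent.Y252.RA.FacP

/-!
The sufficient condition.
-/

set_option autoImplicit false

namespace Pool.Agent.Y252.RA

open Complex MeasureTheory Set Filter Topology
open scoped Real ComplexConjugate ENNReal
open Pool.Agent.Helper649.ReH (stj)
open Pool.Agent.Helper649.ReDef (CondBV Cond)

lemma kq_cont (q : Polynomial ℂ) :
    Continuous (fun s : ℝ => exp (s * I) * q.derivative.eval (exp (s * I))) := by
  have h1 : Continuous (fun s : ℝ => exp ((s : ℂ) * I)) := by fun_prop
  exact h1.mul (q.derivative.continuous.comp h1)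

lemma kq_lk (q : Polynomial ℂ) (t : ℝ) :
    ∫ s in (-π)..π, exp (s * I) * q.derivative.eval (exp (s * I)) * (lk s t : ℂ) =
      -π * (q.eval (exp (t * I)) - q.eval 0) := by
  have hlk := ofR (lk_int t (-π) π)
  induction q using Polynomial.induction_on' with
  | add q1 q2 ih1 ih2 =>
    have e1 : ∫ s in (-π)..π, exp (s * I) * (q1 + q2).derivative.eval (exp (s * I)) * (lk s t : ℂ) =
        (∫ s in (-π)..π, exp (s * I) * q1.derivative.eval (exp (s * I)) * (lk s t : ℂ)) +
        ∫ s in (-π)..π, exp (s * I) * q2.derivative.eval (exp (s * I)) * (lk s t : ℂ) := by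
      rw [← intervalIntegral.integral_add]
      · refine intervalIntegral.integral_congr fun s _ => ?_
        show _ = _
        rw [Polynomial.derivative_add, Polynomial.eval_add]; ring
      · exact hlk.continuousOn_mul (kq_cont q1).continuousOn
      · exact hlk.continuousOn_mul (kq_cont q2).continuousOn
    rw [e1, ih1, ih2, Polynomial.eval_add, Polynomial.eval_add]
    ring
  | monomial n a =>
    rcases Nat.eq_zero_or_pos n with hn | hn
    · subst hn; simp
    · have e1 : ∫ s in (-π)..π, exp (s * I) * (Polynomial.monomial n a).derivative.eval (exp (s * I)) *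
          (lk s t : ℂ) = (a * n) * ∫ s in (-π)..π, exp (n * s * I) * (lk s t : ℂ) := by
        rw [← intervalIntegral.integral_const_mul]
        refine intervalIntegral.integral_congr fun s _ => ?_
        show _ = _
        rw [Polynomial.derivative_monomial, Polynomial.eval_monomial, ek]
        obtain ⟨m, rfl⟩ : ∃ m, n = m + 1 := ⟨n - 1, by omega⟩
        simp only [Nat.add_sub_cancel]
        rw [pow_succ]; ring
      have hn0 : (n : ℂ) ≠ 0 := by exact_mod_cast (by omega : n ≠ 0)
      rw [e1, lk_fourier n hn t, Polynomial.eval_monomial, Polynomial.eval_monomial, ek,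
        zero_pow (by omega)]
      field_simp
      ring

theorem suff1 (c C : ℝ) (β h l : ℝ → ℝ) (hC : 0 ≤ C) (hc : |c| ≤ C)
    (hβ : eVariationOn β (Icc (-π) π) ≤ ENNReal.ofReal C)
    (hh : IntervalIntegrable h volume (-π) π) (hh1 : ∫ s in (-π)..π, |h s| ≤ C)
    (hl : ∀ᵐ s : ℝ ∂(volume.restrict (Ioc (-π) π)), l s = c * lk s π + β s + pot h s) :
    IntervalIntegrable l volume (-π) π ∧ ∀ (q : Polynomial ℂ) (M : ℝ),
      (∀ z : ℂ, ‖z‖ ≤ 1 → ‖q.eval z‖ ≤ M) →
      ‖∫ s in (-π)..π, exp (s * I) * q.derivative.eval (exp (s * I)) * (l s : ℂ)‖ ≤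
        ((4 * π + 2) * C) * M := by
  have hpi := Real.pi_pos
  have hβc : eVariationOn (fun s => (β s : ℂ)) (Icc (-π) π) ≤ ENNReal.ofReal C := by
    refine le_trans (evar_comp _ β _ ?_) hβ
    intro x _ y _ _
    rw [edist_dist, edist_dist, Complex.dist_eq, Real.dist_eq, ← Complex.ofReal_sub, Complex.norm_real,
      Real.norm_eq_abs]
  have hβI' : IntervalIntegrable (fun s => (β s : ℂ)) volume (-π) π :=
    (stj _ C hC hβc (fun _ => 0) (fun _ => 0) (fun s => hasDerivAt_const s 0) continuous_const rfl 0
      (by intro s; simp)).1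
  have hβI : IntervalIntegrable β volume (-π) π := by
    have := (⟨hβI'.1.re, hβI'.2.re⟩ : IntervalIntegrable (fun s => ((β s : ℂ)).re) volume (-π) π)
    exact this
  have hlk := lk_int π (-π) π
  have hpot := pot_int h hh
  have hsum : IntervalIntegrable (fun s => c * lk s π + β s + pot h s) volume (-π) π :=
    ((hlk.const_mul c).add hβI).add hpot
  refine ⟨?_, ?_⟩
  · rw [intervalIntegrable_iff_integrableOn_Ioc_of_le mpi] at hsum ⊢
    refine hsum.congr ?_
    filter_upwards [hl] with s hs
    exact hs.symm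
  · intro q M hM
    have hM0 : 0 ≤ M := (norm_nonneg _).trans (hM 0 (by simp))
    set k : ℝ → ℂ := fun s => exp (s * I) * q.derivative.eval (exp (s * I)) with hk
    have hkc : Continuous k := kq_cont q
    have e1 : ∫ s in (-π)..π, k s * (l s : ℂ) =
        c * (∫ s in (-π)..π, k s * (lk s π : ℂ)) + (∫ s in (-π)..π, k s * (β s : ℂ)) +
        ∫ s in (-π)..π, k s * (pot h s : ℂ) := by
      rw [← intervalIntegral.integral_const_mul, ← intervalIntegral.integral_add,
        ← intervalIntegral.integral_add, intervalIntegral.integral_of_le mpi,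
        intervalIntegral.integral_of_le mpi]
      · refine integral_congr_ae ?_
        filter_upwards [hl] with s hs
        rw [hs]; push_cast; ring
      · exact (((ofR hlk).continuousOn_mul hkc.continuousOn).const_mul _).add
          (hβI'.continuousOn_mul hkc.continuousOn)
      · exact (ofR hpot).continuousOn_mul hkc.continuousOn
      · exact ((ofR hlk).continuousOn_mul hkc.continuousOn).const_mul _
      · exact hβI'.continuousOn_mul hkc.continuousOn
    have hq2 : ∀ t : ℝ, ‖∫ s in (-π)..π, k s * (lk s t : ℂ)‖ ≤ 2 * π * M := by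
      intro t
      rw [hk]
      simp only
      rw [kq_lk, norm_mul, norm_neg, Complex.norm_real, Real.norm_of_nonneg hpi.le]
      have h1 : ‖q.eval (exp (t * I)) - q.eval 0‖ ≤ 2 * M := by
        refine (norm_sub_le _ _).trans ?_
        have h2 := hM (exp (t * I)) (by rw [Complex.norm_exp_ofReal_mul_I])
        have h3 := hM 0 (by simp)
        linarith
      calc π * ‖q.eval (exp (t * I)) - q.eval 0‖ ≤ π * (2 * M) := mul_le_mul_of_nonneg_left h1 hpi.le
        _ = 2 * π * M := by ring
    have hb : ‖∫ s in (-π)..π, k s * (β s : ℂ)‖ ≤ 2 * C * M := by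
      have hder : ∀ s : ℝ, HasDerivAt (fun s : ℝ => -I * q.eval (exp ((s : ℂ) * I))) (k s) s := by
        intro s
        have h1 : HasDerivAt (fun s : ℝ => exp ((s : ℂ) * I)) (exp ((s : ℂ) * I) * I) s := by
          have h0 : HasDerivAt (fun s : ℝ => (s : ℂ) * I) I s := by
            have := (Complex.ofRealCLM.hasDerivAt (x := s)).mul_const I
            simpa using this
          exact h0.cexp
        have h2 := HasDerivAt.scomp (𝕜 := ℝ) (𝕜' := ℂ) s (q.hasDerivAt (exp ((s : ℂ) * I))) h1
        have h3 := h2.const_mul (-I)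
        have e : k s = -I * ((exp ((s : ℂ) * I) * I) • q.derivative.eval (exp ((s : ℂ) * I))) := by
          rw [smul_eq_mul, hk]
          linear_combination (exp ((s : ℂ) * I) * q.derivative.eval (exp ((s : ℂ) * I))) * I_sq
        rw [e]
        exact h3
      refine (stj _ C hC hβc _ k hder hkc ?_ M ?_).2
      · have e : exp ((π : ℂ) * I) = exp (((-π : ℝ) : ℂ) * I) := by
          rw [Complex.exp_pi_mul_I]
          push_cast
          rw [neg_mul, Complex.exp_neg, Complex.exp_pi_mul_I]; norm_num
        show -I * q.eval (exp ((π : ℂ) * I)) = -I * q.eval (exp (((-π : ℝ) : ℂ) * I))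
        rw [e]
      · intro s
        have := hM (exp ((s : ℂ) * I)) (by rw [Complex.norm_exp_ofReal_mul_I])
        simpa using this
    have hp : ‖∫ s in (-π)..π, k s * (pot h s : ℂ)‖ ≤ C * (2 * π * M) := by
      obtain ⟨M', hM'⟩ : ∃ M', ∀ s, ‖k s‖ ≤ M' := by
        have hper : Function.Periodic k (2 * π) := by
          intro s
          simp only [hk]
          rw [exp_per]
        obtain ⟨M', hM'⟩ := (isCompact_Icc (a := (0 : ℝ)) (b := 2 * π)).exists_bound_of_continuousOn
          hkc.continuousOn
        refine ⟨M', fun s => ?_⟩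
        obtain ⟨y, hy, hys⟩ := hper.exists_mem_Ico₀ (by positivity) s
        rw [hys]
        exact hM' y ⟨hy.1, hy.2.le⟩
      rw [pot_swap h hh k hkc M' hM']
      refine (intervalIntegral.norm_integral_le_integral_norm mpi).trans ?_
      have hbd : ∀ t : ℝ, ‖(∫ s in (-π)..π, k s * (lk s t : ℂ)) * (h t : ℂ)‖ ≤ |h t| * (2 * π * M) := by
        intro t
        rw [norm_mul, Complex.norm_real, Real.norm_eq_abs, mul_comm]
        exact mul_le_mul_of_nonneg_left (hq2 t) (abs_nonneg _)
      have h5 : ∫ t in (-π)..π, ‖(∫ s in (-π)..π, k s * (lk s t : ℂ)) * (h t : ℂ)‖ ≤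
          ∫ t in (-π)..π, |h t| * (2 * π * M) := by
        have hfun : (fun t : ℝ => (∫ s in (-π)..π, k s * (lk s t : ℂ)) * (h t : ℂ)) =
            fun t : ℝ => (-π * (q.eval (exp (t * I)) - q.eval 0)) * (h t : ℂ) := by
          funext t
          rw [hk]
          simp only
          rw [kq_lk]
        refine intervalIntegral.integral_mono_on mpi ?_ (hh.abs.mul_const _) (fun t _ => hbd t)
        refine IntervalIntegrable.norm ?_
        rw [hfun]
        refine (ofR hh).continuousOn_mul (Continuous.continuousOn ?_)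
        have h1 : Continuous (fun s : ℝ => exp ((s : ℂ) * I)) := by fun_prop
        exact continuous_const.mul ((q.continuous.comp h1).sub continuous_const)
      refine h5.trans ?_
      rw [intervalIntegral.integral_mul_const]
      exact mul_le_mul_of_nonneg_right hh1 (by positivity)
    show ‖∫ s in (-π)..π, k s * (l s : ℂ)‖ ≤ _
    rw [e1]
    refine (norm_add_le _ _).trans ((add_le_add ((norm_add_le _ _).trans (add_le_add ?_ hb)) hp).trans
      (le_of_eq (?_ : C * (2 * π * M) + 2 * C * M + C * (2 * π * M) = (4 * π + 2) * C * M)))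
    · rw [norm_mul, Complex.norm_real, Real.norm_eq_abs]
      exact mul_le_mul hc (hq2 π) (norm_nonneg _) hC
    · ring

theorem suff2 (φ : Circle ≃ₜ Circle) (C : ℝ) (hC : 0 ≤ C)
    (hyp : ∀ y : Circle, ∃ (c : ℝ) (β h : ℝ → ℝ), |c| ≤ C ∧
      eVariationOn β (Icc 0 (2 * π)) ≤ ENNReal.ofReal C ∧
      IntervalIntegrable h volume 0 (2 * π) ∧ ∫ s in (0 : ℝ)..(2 * π), |h s| ≤ C ∧
      ∀ᵐ s : ℝ ∂(volume.restrict (Ioc 0 (2 * π))),
        Real.log ‖(φ (y * Circle.exp s) : ℂ) - φ y‖ = c * lk s 0 + β s + pot2 h s) :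
    Cond φ ((4 * π + 2) * C) := by
  have hpi := Real.pi_pos
  intro x
  obtain ⟨c, β, h, hc, hβ, hh, hh1, hae⟩ := hyp (φ.symm x)
  rw [φ.apply_symm_apply] at hae
  obtain ⟨θ, hθ⟩ := exp_surj (φ.symm x)
  rw [← hθ] at hae
  have e0 : -π + π = (0 : ℝ) := by ring
  have e1 : π + π = 2 * π := by ring
  have hsh : ∀ G : ℝ → ℝ, ∫ s in (-π)..π, G (s + π) = ∫ s in (0 : ℝ)..(2 * π), G s := by
    intro G
    rw [intervalIntegral.integral_comp_add_right G π, e0, e1]
  set l : ℝ → ℝ := fun s => Real.log ‖(φ (Circle.exp (s + (θ + π))) : ℂ) - x‖ with hl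
  have hval : ∀ s : ℝ, Circle.exp θ * Circle.exp (s + π) = Circle.exp (s + (θ + π)) := by
    intro s
    rw [← Circle.exp_add]
    congr 1; ring
  have hhI : IntervalIntegrable (fun s => h (s + π)) volume (-π) π := by
    have := hh.comp_add_right π
    rwa [show (0 : ℝ) - π = -π by ring, show 2 * π - π = π by ring] at this
  have hform : ∀ᵐ s : ℝ ∂(volume.restrict (Ioc (-π) π)),
      l s = c * lk s π + β (s + π) + pot (fun t => h (t + π)) s := by
    rw [ae_restrict_iff' measurableSet_Ioc] at hae ⊢
    have hq := (measurePreserving_add_right (volume : Measure ℝ) π).quasiMeasurePreserving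
    filter_upwards [hq.ae hae] with s hs hs2
    have h5 := hs ⟨by linarith [hs2.1], by linarith [hs2.2]⟩
    rw [hval] at h5
    rw [hl]
    simp only
    rw [h5]
    have h9 : lk (s + π) 0 = lk s π := by
      have h10 := lk_shift s (-π) π
      rw [neg_add_cancel] at h10
      rw [h10, lk_symm s (-π), lk_symm s π]
      have h11 := lk_per s (-π)
      simp only at h11
      rw [← h11]
      congr 1; ring
    have h12 : pot2 h (s + π) = pot (fun t => h (t + π)) s := by
      unfold pot2 pot
      rw [← hsh (fun t => lk (s + π) t * h t)]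
      refine intervalIntegral.integral_congr fun t _ => ?_
      show lk (s + π) (t + π) * h (t + π) = lk s t * h (t + π)
      rw [lk_shift]
    rw [h9, h12]
  have hβ' : eVariationOn (fun s => β (s + π)) (Icc (-π) π) ≤ ENNReal.ofReal C := by
    refine le_trans (le_of_eq ?_) hβ
    have h3 := eVariationOn.comp_eq_of_monotoneOn β (t := Icc (-π) π) (fun s : ℝ => s + π)
      (fun a _ b _ hab => by show a + π ≤ b + π; linarith)
    have h4 : (fun s : ℝ => s + π) '' Icc (-π) π = Icc 0 (2 * π) := by
      rw [image_add_const_Icc, e0, e1]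
    rw [h4] at h3
    exact h3
  obtain ⟨hI, hb⟩ := suff1 c C (fun s => β (s + π)) (fun t => h (t + π)) l hC hc hβ' hhI
    (by rw [hsh (fun t => |h t|)]; exact hh1) hform
  have hper : Function.Periodic (fun s : ℝ => Real.log ‖(φ (Circle.exp s) : ℂ) - x‖) (2 * π) := by
    intro s
    show Real.log ‖(φ (Circle.exp (s + 2 * π)) : ℂ) - x‖ = _
    rw [cexp_per]
  refine ⟨?_, ?_⟩
  · have h3 := hI.comp_sub_right (θ + π)
    have h4 : IntervalIntegrable (fun s : ℝ => Real.log ‖(φ (Circle.exp s) : ℂ) - x‖) volume
        (-π + (θ + π)) (-π + (θ + π) + 2 * π) := by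
      rw [show -π + (θ + π) + 2 * π = π + (θ + π) by ring]
      refine h3.congr ?_
      intro s _
      show l (s - (θ + π)) = _
      rw [hl]
      simp only [sub_add_cancel]
    exact hper.intervalIntegrable (by positivity) h4 _ _
  · intro p M hM
    set w : ℂ := ((Circle.exp (θ + π) : Circle) : ℂ) with hw
    set q : Polynomial ℂ := p.comp (Polynomial.C w * Polynomial.X) with hq
    have hqe : ∀ z, q.eval z = p.eval (w * z) := by
      intro z
      rw [hq, Polynomial.eval_comp]
      simp
    have hqd : ∀ z, q.derivative.eval z = w * p.derivative.eval (w * z) := by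
      intro z
      rw [hq, Polynomial.derivative_comp]
      simp
    have hqM : ∀ z : ℂ, ‖z‖ ≤ 1 → ‖q.eval z‖ ≤ M := by
      intro z hz
      rw [hqe]
      refine hM _ ?_
      rw [norm_mul, hw, Circle.norm_coe, one_mul]
      exact hz
    have h3 := hb q M hqM
    refine le_trans (le_of_eq ?_) h3
    congr 1
    set F : ℝ → ℂ := fun s => exp (s * I) * p.derivative.eval (exp (s * I)) *
        (Real.log ‖(φ (Circle.exp s) : ℂ) - x‖ : ℝ) with hF
    have hFp : Function.Periodic F (2 * π) := by
      intro s
      simp only [hF]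
      rw [exp_per, cexp_per]
    rw [← shift_int F hFp (θ + π)]
    refine intervalIntegral.integral_congr fun s _ => ?_
    show F (s + (θ + π)) = exp (s * I) * q.derivative.eval (exp (s * I)) * (l s : ℂ)
    simp only [hF, hl]
    rw [hqd]
    have e4 : w * exp (s * I) = exp (((s + (θ + π) : ℝ) : ℂ) * I) := by
      rw [hw, Circle.coe_exp, ← Complex.exp_add]
      congr 1
      push_cast; ring
    rw [e4, ← e4]
    ring

end Pool.Agent.Y252.RA
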