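import Pool.Agent.Y252.RA.FacP

/-!
The asymptotics of averages of logarithmic potentials, and the exponent of `φ` at a point.
-/

set_option autoImplicit false

namespace Pool.Agent.Y252.RA

open Complex MeasureTheory Set Filter Topology
open scoped Real ComplexConjugate ENNReal

lemma ylogy (y : ℝ) (hy : 0 ≤ y) : -1 ≤ y * Real.log y := by
  rcases eq_or_lt_of_le hy with h | h
  · rw [← h]; simp
  · have h1 := Real.one_sub_inv_le_log_of_pos h
    have h2 : y * (1 - y⁻¹) ≤ y * Real.log y := mul_le_mul_of_nonneg_left h1 hy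
    have h3 : y * (1 - y⁻¹) = y - 1 := by field_simp
    linarith

lemma ylogy_mono (y : ℝ) (hy : 0 ≤ y) : y * Real.log y ≤ (y + 1) * Real.log (y + 1) := by
  have h1 : 0 ≤ Real.log (y + 1) := Real.log_nonneg (by linarith)
  rcases eq_or_lt_of_le hy with h | h
  · rw [← h]; simp
  · have h2 : Real.log y ≤ Real.log (y + 1) := Real.log_le_log h (by linarith)
    nlinarith

lemma gfun (y : ℝ) : -2 ≤ (y + 1) * Real.log (y + 1) - y * Real.log y := by
  rcases le_or_gt 0 y with h | h
  · have := ylogy_mono y h; linarith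
  · rcases le_or_gt y (-1) with h1 | h1
    · have h2 := ylogy_mono (-y - 1) (by linarith)
      have e1 : Real.log (-y - 1) = Real.log (y + 1) := by
        rw [← Real.log_neg_eq_log]; congr 1; ring
      have e2 : Real.log (-y - 1 + 1) = Real.log y := by
        rw [← Real.log_neg_eq_log]; congr 1; ring
      rw [e1, e2] at h2
      linarith
    · have h2 := ylogy (y + 1) (by linarith)
      have h3 := ylogy (-y) (by linarith)
      rw [Real.log_neg_eq_log] at h3
      linarith

lemma mull (r y : ℝ) (hr : 0 < r) :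
    (r * y) * Real.log (r * y) = r * y * Real.log r + r * (y * Real.log y) := by
  rcases eq_or_ne y 0 with h | h
  · rw [h]; simp
  · rw [Real.log_mul hr.ne' h]; ring

lemma int_log_lower (a r : ℝ) (hr : 0 < r) :
    r * Real.log r - 3 * r ≤ ∫ s in (0 : ℝ)..r, Real.log (s - a) := by
  rw [intervalIntegral.integral_comp_sub_right (fun x => Real.log x) a, integral_log]
  have h := gfun (-a / r)
  have e1 : r - a = r * (-a / r + 1) := by field_simp; ring
  have e2 : 0 - a = r * (-a / r) := by field_simp; ring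
  have h1 := mull r (-a / r + 1) hr
  have h2 := mull r (-a / r) hr
  rw [← e1] at h1
  rw [← e2] at h2
  rw [h1, h2]
  have h3 : -2 * r ≤ r * ((-a / r + 1) * Real.log (-a / r + 1) - (-a / r) * Real.log (-a / r)) := by
    nlinarith
  nlinarith

lemma log_int (a r s : ℝ) : IntervalIntegrable (fun x => Real.log (x - a)) volume r s := by
  have h := (intervalIntegral.intervalIntegrable_log' (a := r - a) (b := s - a)).comp_sub_right a
  rwa [sub_add_cancel, sub_add_cancel] at h

lemma sinlow (x : ℝ) (h0 : 0 ≤ x) (h1 : x ≤ 2 * π) : x * (2 * π - x) / π ^ 2 ≤ 2 * Real.sin (x / 2) := by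
  have hpi := Real.pi_pos
  rcases le_or_gt x π with h | h
  · have h2 := Real.mul_le_sin (x := x / 2) (by linarith) (by linarith)
    refine le_trans ?_ (mul_le_mul_of_nonneg_left h2 zero_le_two)
    rw [div_le_iff₀ (by positivity)]
    have e : 2 * (2 / π * (x / 2)) * π ^ 2 = 2 * x * π := by field_simp
    rw [e]
    nlinarith
  · have h2 := Real.mul_le_sin (x := π - x / 2) (by linarith) (by linarith)
    rw [Real.sin_pi_sub] at h2
    refine le_trans ?_ (mul_le_mul_of_nonneg_left h2 zero_le_two)
    rw [div_le_iff₀ (by positivity)]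
    have e : 2 * (2 / π * (π - x / 2)) * π ^ 2 = 2 * (2 * π - x) * π := by field_simp
    rw [e]
    nlinarith [mul_nonneg (sub_nonneg.mpr h1) (sub_nonneg.mpr h1)]

lemma lk_eq (s t : ℝ) (h0 : 0 ≤ s - t) (h1 : s - t ≤ 2 * π) : lk s t = Real.log (2 * Real.sin ((s - t) / 2)) := by
  have h2 := lk_shift (s - t) 0 t
  rw [sub_add_cancel, zero_add] at h2
  rw [h2]
  unfold lk
  rw [← nrm (s - t) h0 h1]
  simp

lemma pi_b : 3 < π ∧ π < 3.15 := ⟨Real.pi_gt_three, Real.pi_lt_d2⟩

lemma lk_low (s t : ℝ) (hs0 : 0 < s) (hs1 : s ≤ 1) (ht0 : 0 ≤ t) (ht1 : t ≤ 2 * π) :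
    Real.log (s - t) + Real.log (s - (t - 2 * π)) - 12 ≤ lk s t := by
  obtain ⟨hp1, hp2⟩ := pi_b
  have hpi := Real.pi_pos
  have hlp : Real.log (π ^ 2) ≤ 4.3 := by
    rw [Real.log_pow]
    have := Real.log_le_sub_one_of_pos hpi
    push_cast
    linarith
  rcases le_or_gt t s with h | h
  · rw [lk_eq s t (by linarith) (by linarith)]
    rcases eq_or_lt_of_le h with h2 | h2
    · rw [h2]
      have h3 := Real.log_le_sub_one_of_pos (show 0 < s - (s - 2 * π) by linarith)
      simp only [sub_self, Real.log_zero, zero_div, Real.sin_zero, mul_zero]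
      linarith
    · have h3 := sinlow (s - t) (by linarith) (by linarith)
      have h4 : 0 < (s - t) * (2 * π - (s - t)) / π ^ 2 := by
        have : 0 < 2 * π - (s - t) := by linarith
        have : 0 < s - t := by linarith
        positivity
      have h5 := Real.log_le_log h4 h3
      rw [Real.log_div (by nlinarith) (by positivity), Real.log_mul (by linarith) (by linarith)] at h5
      have h6 : 0 ≤ Real.log (2 * π - (s - t)) := Real.log_nonneg (by linarith)
      have h7 := Real.log_le_sub_one_of_pos (show 0 < s - (t - 2 * π) by linarith)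
      linarith
  · rw [lk_symm, lk_eq t s (by linarith) (by linarith)]
    have h3 := sinlow (t - s) (by linarith) (by linarith)
    have h4 : 0 < (t - s) * (2 * π - (t - s)) / π ^ 2 := by
      have : 0 < 2 * π - (t - s) := by linarith
      have : 0 < t - s := by linarith
      positivity
    have h5 := Real.log_le_log h4 h3
    rw [Real.log_div (by nlinarith) (by positivity), Real.log_mul (by linarith) (by linarith)] at h5
    have e1 : Real.log (s - t) = Real.log (t - s) := by
      rw [← Real.log_neg_eq_log]; congr 1; ring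
    have e2 : s - (t - 2 * π) = 2 * π - (t - s) := by ring
    rw [e1, e2]
    linarith

lemma lk_up (s t : ℝ) : lk s t ≤ Real.log 2 := by
  unfold lk
  have h : ‖exp (s * I) - exp (t * I)‖ ≤ 2 := by
    refine (norm_sub_le _ _).trans ?_
    rw [Complex.norm_exp_ofReal_mul_I, Complex.norm_exp_ofReal_mul_I]
    norm_num
  rcases eq_or_lt_of_le (norm_nonneg (exp (s * I) - exp (t * I))) with h1 | h1
  · rw [← h1, Real.log_zero]
    exact Real.log_nonneg (by norm_num)
  · exact Real.log_le_log h1 h

lemma log2_b : 0 ≤ Real.log 2 ∧ Real.log 2 ≤ 1 := by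
  refine ⟨Real.log_nonneg (by norm_num), ?_⟩
  have := Real.log_le_sub_one_of_pos (show (0 : ℝ) < 2 by norm_num)
  linarith

lemma lk_absle (s t : ℝ) : |lk s t| ≤ 2 * Real.log 2 - lk s t := by
  have h1 := lk_up s t
  have h2 := log2_b.1
  rw [abs_le]
  constructor <;> linarith

lemma kr_bound (r t : ℝ) (hr0 : 0 < r) (hr1 : r ≤ 1) (ht0 : 0 ≤ t) (ht1 : t ≤ 2 * π) :
    ∫ s in (0 : ℝ)..r, |lk s t| ≤ r * (20 - 2 * Real.log r) := by
  have h1 : ∫ s in (0 : ℝ)..r, |lk s t| ≤ ∫ s in (0 : ℝ)..r, (2 * Real.log 2 - lk s t) := by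
    refine intervalIntegral.integral_mono_on hr0.le (lk_int t 0 r).abs
      (intervalIntegrable_const.sub (lk_int t 0 r)) (fun s _ => lk_absle s t)
  have h2 : ∫ s in (0 : ℝ)..r, (Real.log (s - t) + Real.log (s - (t - 2 * π)) - 12) ≤
      ∫ s in (0 : ℝ)..r, lk s t := by
    refine intervalIntegral.integral_mono_ae_restrict hr0.le
      (((log_int t 0 r).add (log_int (t - 2 * π) 0 r)).sub intervalIntegrable_const) (lk_int t 0 r) ?_
    have h3 : ∀ᵐ s ∂(volume.restrict (Icc (0 : ℝ) r)), s ≠ 0 := by
      refine ae_restrict_of_ae ?_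
      exact (measure_eq_zero_iff_ae_notMem.mp (measure_singleton (0 : ℝ)) : ∀ᵐ s, s ∉ ({0} : Set ℝ))
    filter_upwards [h3, ae_restrict_mem measurableSet_Icc] with s hs hs2
    exact lk_low s t (lt_of_le_of_ne hs2.1 (Ne.symm hs)) (hs2.2.trans hr1) ht0 ht1
  have h4 := int_log_lower t r hr0
  have h5 := int_log_lower (t - 2 * π) r hr0
  rw [intervalIntegral.integral_sub intervalIntegrable_const (lk_int t 0 r),
    intervalIntegral.integral_const] at h1
  rw [intervalIntegral.integral_sub ((log_int t 0 r).add (log_int (t - 2 * π) 0 r))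
    intervalIntegrable_const, intervalIntegral.integral_add (log_int t 0 r) (log_int (t - 2 * π) 0 r),
    intervalIntegral.integral_const] at h2
  simp only [sub_zero, smul_eq_mul] at h1 h2
  have h6 := log2_b.2
  nlinarith

lemma small (g : ℝ → ℝ) (M : ℝ) (h : ∀ᶠ r in 𝓝[>] (0 : ℝ), |g r| ≤ M * r) :
    Tendsto (fun r => g r / (r * Real.log r)) (𝓝[>] 0) (𝓝 0) := by
  have h1 : Tendsto (fun r => M * |Real.log r|⁻¹) (𝓝[>] 0) (𝓝 0) := by
    have h2 : Tendsto (fun r => |Real.log r|) (𝓝[>] 0) atTop :=
      tendsto_abs_atBot_atTop.comp Real.tendsto_log_nhdsGT_zero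
    have := (tendsto_inv_atTop_zero.comp h2).const_mul M
    simpa using this
  refine squeeze_zero_norm' ?_ h1
  filter_upwards [h, self_mem_nhdsWithin] with r hr hr0
  have hr0' : 0 < r := hr0
  rw [Real.norm_eq_abs, abs_div, abs_mul, abs_of_pos hr0']
  rcases eq_or_lt_of_le (abs_nonneg (Real.log r)) with h3 | h3
  · rw [← h3]; simp
  · rw [div_le_iff₀ (by positivity)]
    have : M * |Real.log r|⁻¹ * (r * |Real.log r|) = M * r := by field_simp
    rw [this]
    exact hr

lemma tpi : (0 : ℝ) ≤ 2 * π := by linarith [Real.pi_pos]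

lemma lk_abs2 (t : ℝ) : ∫ s in (0 : ℝ)..(2 * π), |lk s t| = K0 := by
  have hper : Function.Periodic (fun s : ℝ => |lk s t|) (2 * π) := by
    intro s
    show |lk (s + 2 * π) t| = _
    rw [show lk (s + 2 * π) t = lk s t from lk_per t s]
  have h1 := hper.intervalIntegral_add_eq (-π) 0
  rw [show -π + 2 * π = π by ring, zero_add] at h1
  rw [← h1]
  exact lk_abs t

lemma pot2_prod (h : ℝ → ℝ) (hh : IntervalIntegrable h volume 0 (2 * π)) :
    Integrable (fun p : ℝ × ℝ => lk p.1 p.2 * h p.2)
      ((volume.restrict (Ioc 0 (2 * π))).prod (volume.restrict (Ioc 0 (2 * π)))) := by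
  have hI : Integrable h (volume.restrict (Ioc 0 (2 * π))) := by
    rwa [intervalIntegrable_iff_integrableOn_Ioc_of_le tpi] at hh
  have hm : AEStronglyMeasurable (fun p : ℝ × ℝ => lk p.1 p.2 * h p.2)
      ((volume.restrict (Ioc 0 (2 * π))).prod (volume.restrict (Ioc 0 (2 * π)))) :=
    lk_meas.aestronglyMeasurable.mul hI.aestronglyMeasurable.comp_snd
  rw [integrable_prod_iff' hm]
  refine ⟨?_, ?_⟩
  · refine Filter.Eventually.of_forall fun t => ?_
    have h1 := lk_int t 0 (2 * π)
    rw [intervalIntegrable_iff_integrableOn_Ioc_of_le tpi] at h1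
    show Integrable (fun s : ℝ => lk s t * h t) _
    exact Integrable.mul_const h1 (h t)
  · have h1 : (fun t : ℝ => ∫ s in Ioc 0 (2 * π), ‖lk s t * h t‖) = fun t => K0 * ‖h t‖ := by
      funext t
      have h2 := lk_abs2 t
      rw [intervalIntegral.integral_of_le tpi] at h2
      rw [← h2, ← integral_mul_const]
      refine integral_congr_ae (Filter.Eventually.of_forall fun s => ?_)
      show ‖_ * _‖ = _
      rw [norm_mul, Real.norm_eq_abs, Real.norm_eq_abs]
    show Integrable (fun t : ℝ => ∫ s in Ioc 0 (2 * π), ‖lk s t * h t‖) _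
    rw [h1]
    exact hI.norm.const_mul _

lemma pot2_int (h : ℝ → ℝ) (hh : IntervalIntegrable h volume 0 (2 * π)) :
    IntervalIntegrable (pot2 h) volume 0 (2 * π) := by
  have h1 := (pot2_prod h hh).integral_prod_left
  rw [intervalIntegrable_iff_integrableOn_Ioc_of_le tpi]
  refine h1.congr (Filter.Eventually.of_forall fun s => ?_)
  unfold pot2
  rw [intervalIntegral.integral_of_le tpi]

lemma pot2_swap (h : ℝ → ℝ) (hh : IntervalIntegrable h volume 0 (2 * π)) (r : ℝ) (hr0 : 0 ≤ r)
    (hr1 : r ≤ 2 * π) :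
    ∫ s in (0 : ℝ)..r, pot2 h s = ∫ t in (0 : ℝ)..(2 * π), (∫ s in (0 : ℝ)..r, lk s t) * h t := by
  have h0 : Integrable (fun p : ℝ × ℝ => lk p.1 p.2 * h p.2)
      ((volume.restrict (Ioc 0 r)).prod (volume.restrict (Ioc 0 (2 * π)))) := by
    have h1 := pot2_prod h hh
    rw [Measure.prod_restrict] at h1 ⊢
    exact IntegrableOn.mono_set h1 (prod_mono (Ioc_subset_Ioc_right hr1) subset_rfl)
  rw [intervalIntegral.integral_of_le hr0, intervalIntegral.integral_of_le tpi]
  have h1 : ∫ s in Ioc 0 r, pot2 h s = ∫ s in Ioc 0 r, ∫ t in Ioc 0 (2 * π), lk s t * h t := by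
    refine integral_congr_ae (Filter.Eventually.of_forall fun s => ?_)
    show pot2 h s = ∫ t in Ioc 0 (2 * π), lk s t * h t
    unfold pot2
    rw [intervalIntegral.integral_of_le tpi]
  rw [h1, integral_integral_swap h0]
  refine integral_congr_ae (Filter.Eventually.of_forall fun t => ?_)
  show ∫ s in Ioc 0 r, lk s t * h t = (∫ s in (0 : ℝ)..r, lk s t) * h t
  rw [intervalIntegral.integral_of_le hr0, ← integral_mul_const]

/-- the potential part is negligible -/
lemma lim_pot (h : ℝ → ℝ) (hh : IntervalIntegrable h volume 0 (2 * π)) :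
    Tendsto (fun r => (∫ s in (0 : ℝ)..r, pot2 h s) / (r * Real.log r)) (𝓝[>] 0) (𝓝 0) := by
  have hpi := Real.pi_pos
  have hI : Integrable h (volume.restrict (Ioc 0 (2 * π))) := by
    rwa [intervalIntegrable_iff_integrableOn_Ioc_of_le tpi] at hh
  have hmain : Tendsto (fun r => ∫ t in (0 : ℝ)..(2 * π), ((∫ s in (0 : ℝ)..r, lk s t) / (r * Real.log r)) * h t)
      (𝓝[>] 0) (𝓝 (∫ t in (0 : ℝ)..(2 * π), (0 : ℝ))) := by
    refine intervalIntegral.tendsto_integral_filter_of_dominated_convergence (fun t => 3 * |h t|) ?_ ?_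
      (hh.abs.const_mul 3) ?_
    · filter_upwards [self_mem_nhdsWithin] with r hr
      have hr0 : (0 : ℝ) < r := hr
      rw [uIoc_of_le tpi]
      refine AEStronglyMeasurable.mul ?_ hI.aestronglyMeasurable
      have h1 : StronglyMeasurable (fun t => ∫ s in Ioc 0 r, lk s t) := by
        refine StronglyMeasurable.integral_prod_left (f := fun s t => lk s t) ?_
        exact lk_meas.stronglyMeasurable
      have h2 : (fun t => (∫ s in (0 : ℝ)..r, lk s t) / (r * Real.log r)) =
          fun t => (∫ s in Ioc 0 r, lk s t) / (r * Real.log r) := by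
        funext t
        rw [intervalIntegral.integral_of_le hr0.le]
      rw [h2]
      exact (h1.measurable.div_const _).aestronglyMeasurable
    · have h3 : ∀ᶠ r in 𝓝[>] (0 : ℝ), Real.log r ≤ -20 :=
        Real.tendsto_log_nhdsGT_zero.eventually_le_atBot (-20)
      have h4 : ∀ᶠ r in 𝓝[>] (0 : ℝ), r ≤ 1 := by
        filter_upwards [Ioo_mem_nhdsGT (show (0 : ℝ) < 1 by norm_num)] with r hr
        exact hr.2.le
      filter_upwards [self_mem_nhdsWithin, h3, h4] with r hr h5 h6
      have hr0 : (0 : ℝ) < r := hr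
      refine Filter.Eventually.of_forall fun t ht => ?_
      rw [uIoc_of_le tpi] at ht
      rw [norm_mul, Real.norm_eq_abs, Real.norm_eq_abs]
      refine mul_le_mul_of_nonneg_right ?_ (abs_nonneg _)
      rw [abs_div, abs_mul, abs_of_pos hr0, abs_of_nonpos (show Real.log r ≤ 0 by linarith),
        div_le_iff₀ (mul_pos hr0 (by linarith))]
      have h7 := kr_bound r t hr0 h6 ht.1.le ht.2
      have h8 : |∫ s in (0 : ℝ)..r, lk s t| ≤ ∫ s in (0 : ℝ)..r, |lk s t| :=
        intervalIntegral.abs_integral_le_integral_abs hr0.le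
      nlinarith
    · have h5 : ∀ᵐ t : ℝ, t ≠ 2 * π :=
        (measure_eq_zero_iff_ae_notMem.mp (measure_singleton (2 * π)) : ∀ᵐ s, s ∉ ({2 * π} : Set ℝ))
      filter_upwards [h5] with t ht ht2
      rw [uIoc_of_le tpi] at ht2
      have h6 : Tendsto (fun r => (∫ s in (0 : ℝ)..r, lk s t) / (r * Real.log r)) (𝓝[>] 0) (𝓝 0) := by
        have hne : exp (((0 : ℝ) : ℂ) * I) - exp (t * I) ≠ 0 := by
          rw [← norm_ne_zero_iff, norm_sub_rev]
          have h7 := nrm t ht2.1.le ht2.2
          rw [Complex.ofReal_zero, zero_mul, Complex.exp_zero, h7]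
          have h8 := Real.sin_pos_of_pos_of_lt_pi (x := t / 2) (by linarith [ht2.1])
            (by have := lt_of_le_of_ne ht2.2 ht; linarith)
          linarith
        have hc : ContinuousAt (fun s => lk s t) 0 := by
          unfold lk
          refine ContinuousAt.log ?_ (norm_ne_zero_iff.mpr hne)
          fun_prop
        have h9 : ∀ᶠ s in 𝓝 (0 : ℝ), |lk s t| ≤ |lk 0 t| + 1 := by
          have := hc.abs.eventually_le_const (u := |lk 0 t| + 1) (by linarith)
          exact this
        rw [Metric.eventually_nhds_iff] at h9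
        obtain ⟨ε, hε, h9⟩ := h9
        refine small _ (|lk 0 t| + 1) ?_
        filter_upwards [Ioo_mem_nhdsGT hε] with r hr
        have h10 := intervalIntegral.norm_integral_le_of_norm_le_const (a := 0) (b := r)
          (f := fun s => lk s t) (C := |lk 0 t| + 1) (fun s hs => by
            rw [uIoc_of_le hr.1.le] at hs
            refine h9 ?_
            rw [Real.dist_eq, sub_zero, abs_of_pos hs.1]
            exact lt_of_le_of_lt hs.2 hr.2)
        rw [Real.norm_eq_abs, sub_zero, abs_of_pos hr.1] at h10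
        exact h10
      have := h6.mul_const (h t)
      rwa [zero_mul] at this
  rw [intervalIntegral.integral_zero] at hmain
  refine hmain.congr' ?_
  filter_upwards [Ioo_mem_nhdsGT (show (0 : ℝ) < 2 * π by linarith)] with r hr
  rw [pot2_swap h hh r hr.1.le hr.2.le, ← intervalIntegral.integral_div]
  refine intervalIntegral.integral_congr fun t _ => ?_
  show _ = _
  ring

end Pool.Agent.Y252.RA
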