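import Pool.Agent.Y252.RA.FacR

/-!
The exponent: limit of `f(s) / log |e^{is} - 1|` at `0` for monotone `f`.
-/

set_option autoImplicit false

namespace Pool.Agent.Y252.RA

open Complex MeasureTheory Set Filter Topology
open scoped Real ComplexConjugate ENNReal

lemma lk_log (s : ℝ) (h0 : 0 < s) (h1 : s ≤ π) :
    Real.log s - 1 ≤ lk s 0 ∧ lk s 0 ≤ Real.log s := by
  obtain ⟨hp1, hp2⟩ := pi_b
  have hpi := Real.pi_pos
  rw [lk_eq s 0 (by linarith) (by linarith), sub_zero]
  have h2 := Real.mul_le_sin (x := s / 2) (by linarith) (by linarith)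
  have h3 : (2 / π) * s ≤ 2 * Real.sin (s / 2) := by
    have : 2 / π * (s / 2) * 2 = (2 / π) * s := by ring
    linarith
  have h4 : 2 * Real.sin (s / 2) ≤ s := by
    have := Real.sin_le (x := s / 2) (by linarith)
    linarith
  have h5 : 0 < (2 / π) * s := by positivity
  refine ⟨?_, Real.log_le_log (lt_of_lt_of_le h5 h3) h4⟩
  have h6 := Real.log_le_log h5 h3
  rw [Real.log_mul (by positivity) h0.ne'] at h6
  have h7 := Real.one_sub_inv_le_log_of_pos (show 0 < 2 / π by positivity)
  rw [inv_div] at h7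
  have h8 : π / 2 ≤ 1.6 := by linarith
  linarith

lemma log_ev (M : ℝ) : ∀ᶠ r in 𝓝[>] (0 : ℝ), Real.log r ≤ M :=
  Real.tendsto_log_nhdsGT_zero.eventually_le_atBot M

lemma r_ev (ε : ℝ) (h : 0 < ε) : ∀ᶠ r in 𝓝[>] (0 : ℝ), 0 < r ∧ r < ε := by
  filter_upwards [Ioo_mem_nhdsGT h] with r hr
  exact hr

lemma lim_lk : Tendsto (fun r => (∫ s in (0 : ℝ)..r, lk s 0) / (r * Real.log r)) (𝓝[>] 0) (𝓝 1) := by
  have hpi := Real.pi_pos
  have h1 : Tendsto (fun r => ((∫ s in (0 : ℝ)..r, lk s 0) - r * Real.log r) / (r * Real.log r))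
      (𝓝[>] 0) (𝓝 0) := by
    refine small _ 2 ?_
    filter_upwards [r_ev 1 one_pos] with r hr
    have h2 : ∫ s in (0 : ℝ)..r, lk s 0 ≤ ∫ s in (0 : ℝ)..r, Real.log s := by
      refine intervalIntegral.integral_mono_on_of_le_Ioo hr.1.le (lk_int 0 0 r)
        intervalIntegral.intervalIntegrable_log' (fun s hs => (lk_log s hs.1 (by
          have := hs.2; linarith [pi_b.1])).2)
    have h3 : ∫ s in (0 : ℝ)..r, (Real.log s - 1) ≤ ∫ s in (0 : ℝ)..r, lk s 0 := by
      refine intervalIntegral.integral_mono_on_of_le_Ioo hr.1.le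
        (intervalIntegral.intervalIntegrable_log'.sub intervalIntegrable_const) (lk_int 0 0 r)
        (fun s hs => (lk_log s hs.1 (by have := hs.2; linarith [pi_b.1])).1)
    rw [intervalIntegral.integral_sub intervalIntegral.intervalIntegrable_log' intervalIntegrable_const,
      intervalIntegral.integral_const] at h3
    rw [integral_log] at h2 h3
    simp only [zero_mul, sub_zero, add_zero, smul_eq_mul, mul_one] at h2 h3
    rw [abs_le]
    constructor <;> linarith [hr.1]
  have h2 := h1.add_const 1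
  rw [zero_add] at h2
  refine h2.congr' ?_
  filter_upwards [r_ev 1 one_pos, log_ev (-1)] with r hr hl
  have : r * Real.log r ≠ 0 := mul_ne_zero hr.1.ne' (by linarith)
  rw [sub_div, div_self this]
  ring

lemma lim_avg (c B : ℝ) (f β h : ℝ → ℝ) (hβ : ∀ s ∈ Icc 0 (2 * π), |β s| ≤ B)
    (hβI : IntervalIntegrable β volume 0 (2 * π)) (hh : IntervalIntegrable h volume 0 (2 * π))
    (hae : ∀ᵐ s ∂(volume.restrict (Ioc 0 (2 * π))), f s = c * lk s 0 + β s + pot2 h s) :
    IntervalIntegrable f volume 0 (2 * π) ∧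
    Tendsto (fun r => (∫ s in (0 : ℝ)..r, f s) / (r * Real.log r)) (𝓝[>] 0) (𝓝 c) := by
  have hpi := Real.pi_pos
  have hp := pot2_int h hh
  have hsum : IntervalIntegrable (fun s => c * lk s 0 + β s + pot2 h s) volume 0 (2 * π) :=
    (((lk_int 0 0 (2 * π)).const_mul c).add hβI).add hp
  refine ⟨?_, ?_⟩
  · rw [intervalIntegrable_iff_integrableOn_Ioc_of_le tpi] at hsum ⊢
    refine hsum.congr ?_
    filter_upwards [hae] with s hs
    exact hs.symm
  · have h1 : Tendsto (fun r => (∫ s in (0 : ℝ)..r, β s) / (r * Real.log r)) (𝓝[>] 0) (𝓝 0) := by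
      refine small _ B ?_
      filter_upwards [r_ev (2 * π) (by linarith)] with r hr
      have h10 := intervalIntegral.norm_integral_le_of_norm_le_const (a := 0) (b := r)
        (f := β) (C := B) (fun s hs => by
          rw [uIoc_of_le hr.1.le] at hs
          exact hβ s ⟨hs.1.le, hs.2.trans hr.2.le⟩)
      rw [Real.norm_eq_abs, sub_zero, abs_of_pos hr.1] at h10
      exact h10
    have h2 := ((lim_lk.const_mul c).add h1).add (lim_pot h hh)
    rw [mul_one, add_zero, add_zero] at h2
    refine h2.congr' ?_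
    filter_upwards [r_ev (2 * π) (by linarith)] with r hr
    have hsub : uIcc 0 r ⊆ uIcc 0 (2 * π) := by
      rw [uIcc_of_le hr.1.le, uIcc_of_le tpi]
      exact Icc_subset_Icc_right hr.2.le
    have h3 : ∫ s in (0 : ℝ)..r, f s = c * (∫ s in (0 : ℝ)..r, lk s 0) + (∫ s in (0 : ℝ)..r, β s) +
        ∫ s in (0 : ℝ)..r, pot2 h s := by
      rw [← intervalIntegral.integral_const_mul, ← intervalIntegral.integral_add,
        ← intervalIntegral.integral_add, intervalIntegral.integral_of_le hr.1.le,
        intervalIntegral.integral_of_le hr.1.le]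
      · refine integral_congr_ae ?_
        exact ae_restrict_of_ae_restrict_of_subset (Ioc_subset_Ioc_right hr.2.le) hae
      · exact ((lk_int 0 0 r).const_mul c).add (hβI.mono_set hsub)
      · exact hp.mono_set hsub
      · exact (lk_int 0 0 r).const_mul c
      · exact hβI.mono_set hsub
    rw [h3]
    ring

lemma two_ev : Tendsto (fun r : ℝ => 2 * r) (𝓝[>] 0) (𝓝[>] 0) := by
  refine tendsto_nhdsWithin_iff.mpr ⟨?_, ?_⟩
  · have h1 : Tendsto (fun r : ℝ => 2 * r) (𝓝 0) (𝓝 (2 * 0)) := (continuous_const.mul continuous_id).tendsto 0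
    rw [mul_zero] at h1
    exact h1.mono_left nhdsWithin_le_nhds
  · filter_upwards [self_mem_nhdsWithin] with r hr
    have : (0 : ℝ) < r := hr
    show (0 : ℝ) < 2 * r
    linarith

lemma inv_log : Tendsto (fun r : ℝ => (Real.log r)⁻¹) (𝓝[>] 0) (𝓝 0) :=
  tendsto_inv_atBot_zero.comp Real.tendsto_log_nhdsGT_zero

/-- the right-hand exponent -/
theorem lim_right (c B d : ℝ) (f β h : ℝ → ℝ) (hd : 0 < d) (hm : MonotoneOn f (Ioc 0 d))
    (hβ : ∀ s ∈ Icc 0 (2 * π), |β s| ≤ B)
    (hβI : IntervalIntegrable β volume 0 (2 * π)) (hh : IntervalIntegrable h volume 0 (2 * π))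
    (hae : ∀ᵐ s ∂(volume.restrict (Ioc 0 (2 * π))), f s = c * lk s 0 + β s + pot2 h s) :
    Tendsto (fun s => f s / lk s 0) (𝓝[>] 0) (𝓝 c) := by
  have hpi := Real.pi_pos
  obtain ⟨hfI, hQ⟩ := lim_avg c B f β h hβ hβI hh hae
  have hQ2 := hQ.comp two_ev
  have hlog2 : Tendsto (fun r : ℝ => Real.log (2 * r) * (Real.log r)⁻¹) (𝓝[>] 0) (𝓝 1) := by
    have h1 := (inv_log.const_mul (Real.log 2)).add_const 1
    rw [mul_zero, zero_add] at h1
    refine h1.congr' ?_
    filter_upwards [r_ev 1 one_pos, log_ev (-1)] with r hr hl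
    rw [Real.log_mul two_ne_zero hr.1.ne']
    have : Real.log r ≠ 0 := by linarith
    field_simp
  have hlow : Tendsto (fun r : ℝ => 2 * ((∫ s in (0 : ℝ)..(2 * r), f s) / (2 * r * Real.log (2 * r))) *
      (Real.log (2 * r) * (Real.log r)⁻¹) - (∫ s in (0 : ℝ)..r, f s) / (r * Real.log r)) (𝓝[>] 0) (𝓝 c) := by
    have h1 := ((hQ2.const_mul 2).mul hlog2).sub hQ
    rw [show 2 * c * 1 - c = c by ring] at h1
    exact h1
  have hfl : Tendsto (fun r => f r / Real.log r) (𝓝[>] 0) (𝓝 c) := by
    refine tendsto_of_tendsto_of_tendsto_of_le_of_le' hlow hQ ?_ ?_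
    · filter_upwards [r_ev (min (d / 2) (min 1 π)) (by positivity), log_ev (-1), log_ev (-10)] with r hr hl hl10
      have hr1 : r < d / 2 := lt_of_lt_of_le hr.2 (min_le_left _ _)
      have hr2 : r < 1 := lt_of_lt_of_le hr.2 ((min_le_right _ _).trans (min_le_left _ _))
      have hr3 : r < π := lt_of_lt_of_le hr.2 ((min_le_right _ _).trans (min_le_right _ _))
      have hs1 : IntervalIntegrable f volume 0 r := hfI.mono_set (by
        rw [uIcc_of_le hr.1.le, uIcc_of_le tpi]; exact Icc_subset_Icc_right (by linarith))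
      have hs2 : IntervalIntegrable f volume r (2 * r) := hfI.mono_set (by
        rw [uIcc_of_le (by linarith [hr.1]), uIcc_of_le tpi]
        exact Icc_subset_Icc hr.1.le (by linarith))
      have h2 : (2 * r - r) * f r ≤ ∫ s in r..(2 * r), f s := by
        have h3 : ∫ s in r..(2 * r), f r ≤ ∫ s in r..(2 * r), f s := by
          refine intervalIntegral.integral_mono_on (by linarith [hr.1]) intervalIntegrable_const hs2
            (fun s hs => hm ⟨hr.1, by linarith⟩ ⟨by linarith [hs.1, hr.1], by linarith [hs.2]⟩ hs.1)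
        rw [intervalIntegral.integral_const, smul_eq_mul] at h3
        exact h3
      have h4 := intervalIntegral.integral_add_adjacent_intervals hs1 hs2
      have hl2 : Real.log (2 * r) < 0 := by
        rw [Real.log_mul two_ne_zero hr.1.ne']
        linarith [log2_b.2]
      have h5 : 2 * ((∫ s in (0 : ℝ)..(2 * r), f s) / (2 * r * Real.log (2 * r))) *
          (Real.log (2 * r) * (Real.log r)⁻¹) - (∫ s in (0 : ℝ)..r, f s) / (r * Real.log r) =
          ((∫ s in r..(2 * r), f s) / r) / Real.log r := by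
        rw [← h4]
        have h6 : Real.log r ≠ 0 := by linarith
        have h7 := hr.1.ne'
        have h8 := hl2.ne
        field_simp
        ring
      rw [h5]
      refine div_le_div_of_nonpos_of_le (by linarith) ?_
      rw [le_div_iff₀ hr.1]
      linarith
    · filter_upwards [r_ev (min d (min 1 π)) (by positivity), log_ev (-1)] with r hr hl
      have hr1 : r < d := lt_of_lt_of_le hr.2 (min_le_left _ _)
      have hr2 : r < 1 := lt_of_lt_of_le hr.2 ((min_le_right _ _).trans (min_le_left _ _))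
      have hr3 : r < π := lt_of_lt_of_le hr.2 ((min_le_right _ _).trans (min_le_right _ _))
      have hs1 : IntervalIntegrable f volume 0 r := hfI.mono_set (by
        rw [uIcc_of_le hr.1.le, uIcc_of_le tpi]; exact Icc_subset_Icc_right (by linarith))
      have h2 : ∫ s in (0 : ℝ)..r, f s ≤ r * f r := by
        have h3 : ∫ s in (0 : ℝ)..r, f s ≤ ∫ s in (0 : ℝ)..r, f r := by
          refine intervalIntegral.integral_mono_on_of_le_Ioo hr.1.le hs1 intervalIntegrable_const
            (fun s hs => hm ⟨hs.1, by linarith [hs.2]⟩ ⟨hr.1, hr1.le⟩ hs.2.le)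
        rw [intervalIntegral.integral_const, smul_eq_mul, sub_zero] at h3
        exact h3
      have h5 : (∫ s in (0 : ℝ)..r, f s) / (r * Real.log r) =
          ((∫ s in (0 : ℝ)..r, f s) / r) / Real.log r := by
        rw [div_div]
      rw [h5]
      refine div_le_div_of_nonpos_of_le (by linarith) ?_
      rw [div_le_iff₀ hr.1]
      linarith
  have hlk : Tendsto (fun r => Real.log r / lk r 0) (𝓝[>] 0) (𝓝 1) := by
    have h1 : Tendsto (fun r => lk r 0 / Real.log r) (𝓝[>] 0) (𝓝 1) := by
      have hu : Tendsto (fun r : ℝ => 1 - (Real.log r)⁻¹) (𝓝[>] 0) (𝓝 1) := by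
        have := inv_log.const_sub 1
        rwa [sub_zero] at this
      refine tendsto_of_tendsto_of_tendsto_of_le_of_le' tendsto_const_nhds hu ?_ ?_
      · filter_upwards [r_ev π hpi, log_ev (-1)] with r hr hl
        have h2 := lk_log r hr.1 hr.2.le
        rw [le_div_iff_of_neg (by linarith)]
        linarith
      · filter_upwards [r_ev π hpi, log_ev (-1)] with r hr hl
        have h2 := lk_log r hr.1 hr.2.le
        have h3 : Real.log r ≠ 0 := by linarith
        rw [div_le_iff_of_neg (by linarith)]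
        have : (1 - (Real.log r)⁻¹) * Real.log r = Real.log r - 1 := by field_simp
        linarith
    have h2 := h1.inv₀ one_ne_zero
    rw [inv_one] at h2
    refine h2.congr fun r => ?_
    rw [inv_div]
  have h3 := hfl.mul hlk
  rw [mul_one] at h3
  refine h3.congr' ?_
  filter_upwards [log_ev (-1)] with r hl
  have : Real.log r ≠ 0 := by linarith
  rw [div_mul_div_comm, mul_comm (f r) (Real.log r), mul_div_mul_left _ _ this]

end Pool.Agent.Y252.RA
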