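import Pool.Agent.Y252.RA.FacS

/-!
The exponent at a point of the circle.
-/

set_option autoImplicit false

namespace Pool.Agent.Y252.RA

open Complex MeasureTheory Set Filter Topology
open scoped Real ComplexConjugate ENNReal

lemma bv_bdd (β : ℝ → ℝ) (C : ℝ) (hβ : eVariationOn β (Icc 0 (2 * π)) ≤ ENNReal.ofReal C) :
    (∀ s ∈ Icc 0 (2 * π), |β s| ≤ |β 0| + |C|) ∧ IntervalIntegrable β volume 0 (2 * π) := by
  have hpi := Real.pi_pos
  refine ⟨?_, ?_⟩
  · intro s hs
    have h1 := (eVariationOn.edist_le β hs (⟨le_rfl, by linarith⟩ : (0 : ℝ) ∈ Icc 0 (2 * π))).trans hβ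
    rw [edist_dist, Real.dist_eq] at h1
    have h2 : |β s - β 0| ≤ |C| := by
      have h3 := h1.trans (ENNReal.ofReal_le_ofReal (le_abs_self C))
      rwa [ENNReal.ofReal_le_ofReal_iff (abs_nonneg C)] at h3
    have h4 := abs_sub_abs_le_abs_sub (β s) (β 0)
    linarith
  · have h1 : LocallyBoundedVariationOn β (Icc 0 (2 * π)) :=
      BoundedVariationOn.locallyBoundedVariationOn (ne_top_of_le_ne_top ENNReal.ofReal_ne_top hβ)
    obtain ⟨p, q, hp, hq, he⟩ := h1.exists_monotoneOn_sub_monotoneOn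
    rw [he]
    rw [← uIcc_of_le tpi] at hp hq
    exact hp.intervalIntegrable.sub hq.intervalIntegrable

lemma lk_refl (s t : ℝ) : lk (2 * π - s) (2 * π - t) = lk s t := by
  have h1 : lk (2 * π - s) (2 * π - t) = lk (-s) (-t) := by
    rw [show 2 * π - s = -s + 2 * π by ring, show 2 * π - t = -t + 2 * π by ring]
    exact lk_shift _ _ _
  rw [h1]
  unfold lk
  have h2 : exp (((-s : ℝ) : ℂ) * I) - exp (((-t : ℝ) : ℂ) * I) = conj (exp (s * I) - exp (t * I)) := by
    rw [map_sub, ← Complex.exp_conj, ← Complex.exp_conj, map_mul, map_mul, Complex.conj_I,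
      Complex.conj_ofReal, Complex.conj_ofReal]
    congr 2 <;> push_cast <;> ring
  rw [h2, Complex.norm_conj]

lemma lk_neg0 (s : ℝ) : lk (-s) 0 = lk s 0 := by
  have h1 := lk_refl s 0
  rw [← h1]
  have h2 := lk_shift (-s) 0 (2 * π)
  rw [← h2]
  congr 1 <;> ring

lemma pot2_refl (h : ℝ → ℝ) (s : ℝ) : pot2 h (2 * π - s) = pot2 (fun t => h (2 * π - t)) s := by
  unfold pot2
  have h1 := intervalIntegral.integral_comp_sub_left (a := 0) (b := 2 * π)
    (fun t => lk (2 * π - s) t * h t) (2 * π)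
  rw [sub_self, sub_zero] at h1
  rw [← h1]
  refine intervalIntegral.integral_congr fun t _ => ?_
  show lk (2 * π - s) (2 * π - t) * h (2 * π - t) = _
  rw [lk_refl]

/-- `log |φ(y e^{is}) - φ(y)|` -/
noncomputable def fy (φ : Circle ≃ₜ Circle) (y : Circle) (s : ℝ) : ℝ :=
  Real.log ‖(φ (y * Circle.exp s) : ℂ) - φ y‖

lemma fy_per (φ : Circle ≃ₜ Circle) (y : Circle) (s : ℝ) : fy φ y (s + 2 * π) = fy φ y s := by
  unfold fy
  rw [cexp_per]

lemma fy_shape (φ : Circle ≃ₜ Circle) (y : Circle) : ∃ c ∈ Ioo 0 (2 * π),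
    MonotoneOn (fy φ y) (Ioc 0 c) ∧ AntitoneOn (fy φ y) (Ico c (2 * π)) := by
  obtain ⟨c, hc, h1, h2⟩ := ll_shape ((Homeomorph.mulLeft (y * Circle.exp π)).trans φ)
  have h8 : ∀ s : ℝ, ll ((Homeomorph.mulLeft (y * Circle.exp π)).trans φ) (s - π) = fy φ y s := by
    intro s
    unfold ll fy
    have e2 : ((Homeomorph.mulLeft (y * Circle.exp π)).trans φ) (Circle.exp (s - π)) =
        φ (y * Circle.exp s) := by
      show φ (y * Circle.exp π * Circle.exp (s - π)) = _
      rw [mul_assoc, ← Circle.exp_add]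
      congr 3
      ring
    have e3 : ((Homeomorph.mulLeft (y * Circle.exp π)).trans φ) (Circle.exp π) = φ y := by
      show φ (y * Circle.exp π * Circle.exp π) = _
      rw [mul_assoc, ← Circle.exp_add]
      have : Circle.exp (π + π) = 1 := by
        have := cexp_per 0
        rw [zero_add, Circle.exp_zero, two_mul] at this
        exact this
      rw [this, mul_one]
    rw [e2, e3]
  refine ⟨c + π, ⟨by linarith [hc.1], by linarith [hc.2]⟩, ?_, ?_⟩
  · intro a ha b hb hab
    rw [← h8, ← h8]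
    exact h1 ⟨by linarith [ha.1], by linarith [ha.2]⟩ ⟨by linarith [hb.1], by linarith [hb.2]⟩
      (by linarith)
  · intro a ha b hb hab
    rw [← h8, ← h8]
    exact h2 ⟨by linarith [ha.1], by linarith [ha.2]⟩ ⟨by linarith [hb.1], by linarith [hb.2]⟩
      (by linarith)

/-- the exponent -/
theorem expo (φ : Circle ≃ₜ Circle) (y : Circle) (c C : ℝ) (β h : ℝ → ℝ)
    (hβ : eVariationOn β (Icc 0 (2 * π)) ≤ ENNReal.ofReal C)
    (hh : IntervalIntegrable h volume 0 (2 * π))
    (hae : ∀ᵐ s : ℝ ∂(volume.restrict (Ioc 0 (2 * π))), fy φ y s = c * lk s 0 + β s + pot2 h s) :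
    Tendsto (fun z : Circle => Real.log ‖(φ z : ℂ) - φ y‖ / Real.log ‖(z : ℂ) - y‖) (𝓝[≠] y) (𝓝 c) := by
  have hpi := Real.pi_pos
  obtain ⟨c0, hc0, hmon, hanti⟩ := fy_shape φ y
  obtain ⟨hb, hbI⟩ := bv_bdd β C hβ
  have hR : Tendsto (fun s => fy φ y s / lk s 0) (𝓝[>] 0) (𝓝 c) :=
    lim_right c _ c0 (fy φ y) β h hc0.1 hmon hb hbI hh hae
  have hL : Tendsto (fun s => fy φ y (2 * π - s) / lk s 0) (𝓝[>] 0) (𝓝 c) := by
    refine lim_right c (|β 0| + |C|) (2 * π - c0) (fun s => fy φ y (2 * π - s)) (fun s => β (2 * π - s))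
      (fun t => h (2 * π - t)) (by linarith [hc0.2]) ?_ ?_ ?_ ?_ ?_
    · intro a ha b hb hab
      exact hanti ⟨by linarith [hb.2], by linarith [hb.1]⟩ ⟨by linarith [ha.2], by linarith [ha.1]⟩
        (by linarith)
    · intro s hs
      exact hb _ ⟨by linarith [hs.2], by linarith [hs.1]⟩
    · have := (hbI.comp_sub_left (2 * π)).symm
      rwa [sub_self, sub_zero] at this
    · have := (hh.comp_sub_left (2 * π)).symm
      rwa [sub_self, sub_zero] at this
    · rw [ae_restrict_iff' measurableSet_Ioc] at hae ⊢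
      have hq := (Measure.measurePreserving_sub_left (volume : Measure ℝ) (2 * π)).quasiMeasurePreserving
      have h5 : ∀ᵐ t : ℝ, t ≠ 2 * π :=
        (measure_eq_zero_iff_ae_notMem.mp (measure_singleton (2 * π)) : ∀ᵐ s, s ∉ ({2 * π} : Set ℝ))
      filter_upwards [hq.ae hae, h5] with s hs hs5 hs2
      have h6 := hs ⟨by linarith [lt_of_le_of_ne hs2.2 hs5], by linarith [hs2.1]⟩
      rw [h6, pot2_refl]
      congr 3
      have := lk_refl s 0
      rw [sub_zero, lk_symm, lk_symm s 0] at this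
      rw [lk_symm, lk_symm s 0, ← this]
      have h7 := lk_per (2 * π - s) 0
      simp only at h7
      rw [← h7, zero_add]
  have hL2 : Tendsto (fun s => fy φ y s / lk s 0) (𝓝[<] 0) (𝓝 c) := by
    have h1 : Tendsto (fun s : ℝ => -s) (𝓝[<] 0) (𝓝[>] 0) := by
      have := tendsto_neg_nhdsLT (a := (0 : ℝ))
      rwa [neg_zero] at this
    refine (hL.comp h1).congr fun s => ?_
    show fy φ y (2 * π - -s) / lk (-s) 0 = _
    rw [lk_neg0, sub_neg_eq_add, add_comm, fy_per]
  have hN : Tendsto (fun s => fy φ y s / lk s 0) (𝓝[≠] 0) (𝓝 c) := by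
    rw [← Iio_union_Ioi, nhdsWithin_union]
    exact hL2.sup hR
  have ha : Tendsto (fun z : Circle => Complex.arg ((y⁻¹ * z : Circle) : ℂ)) (𝓝[≠] y) (𝓝[≠] 0) := by
    refine tendsto_nhdsWithin_iff.mpr ⟨?_, ?_⟩
    · have h1 : ContinuousAt (fun z : Circle => Complex.arg ((y⁻¹ * z : Circle) : ℂ)) y := by
        refine ContinuousAt.comp (g := Complex.arg) (f := fun z : Circle => ((y⁻¹ * z : Circle) : ℂ)) ?_ ?_
        · rw [inv_mul_cancel, Circle.coe_one]
          exact Complex.continuousAt_arg (by simp)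
        · exact (continuous_subtype_val.comp (continuous_const.mul continuous_id)).continuousAt
      have h2 := h1.tendsto
      rw [inv_mul_cancel, Circle.coe_one, Complex.arg_one] at h2
      exact h2.mono_left nhdsWithin_le_nhds
    · filter_upwards [self_mem_nhdsWithin] with z hz
      intro h2
      apply hz
      have h3 := Circle.exp_arg (y⁻¹ * z)
      rw [mem_singleton_iff] at h2
      rw [h2, Circle.exp_zero] at h3
      have h4 : y * (y⁻¹ * z) = y * 1 := by rw [← h3]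
      rw [mul_inv_cancel_left, mul_one] at h4
      exact h4
  refine (hN.comp ha).congr fun z => ?_
  show fy φ y (Complex.arg ((y⁻¹ * z : Circle) : ℂ)) / lk (Complex.arg ((y⁻¹ * z : Circle) : ℂ)) 0 = _
  have h3 := Circle.exp_arg (y⁻¹ * z)
  unfold fy
  rw [h3, mul_inv_cancel_left]
  congr 1
  unfold lk
  have h4 : exp ((Complex.arg ((y⁻¹ * z : Circle) : ℂ) : ℂ) * I) = ((y⁻¹ * z : Circle) : ℂ) := by
    rw [← Circle.coe_exp, h3]
  rw [h4, Complex.ofReal_zero, zero_mul, Complex.exp_zero]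
  congr 1
  have h5 : (z : ℂ) - y = y * (((y⁻¹ * z : Circle) : ℂ) - 1) := by
    rw [mul_sub, mul_one, ← Circle.coe_mul, mul_inv_cancel_left]
  rw [h5, norm_mul, Circle.norm_coe, one_mul]

end Pool.Agent.Y252.RA
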