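import Pool.Agent.Y252.RA.FacT
import Pool.Agent.Y252.RA.FacQ

/-!
The exponents of a homeomorphism and of its inverse; the sharp condition.
-/

set_option autoImplicit false

namespace Pool.Agent.Y252.RA

open Complex MeasureTheory Set Filter Topology
open scoped Real ComplexConjugate ENNReal
open Pool.Agent.Helper649.ReDef (CondBV Cond Preserves reA)

/-- the sharp condition -/
def Sharp (φ : Circle → Circle) (b C : ℝ) : Prop := ∀ y : Circle, ∃ (c : ℝ) (β h : ℝ → ℝ),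
  b ≤ c ∧ c ≤ C ∧
  Tendsto (fun z : Circle => Real.log ‖(φ z : ℂ) - φ y‖ / Real.log ‖(z : ℂ) - y‖) (𝓝[≠] y) (𝓝 c) ∧
  eVariationOn β (Icc 0 (2 * π)) ≤ ENNReal.ofReal C ∧
  IntervalIntegrable h volume 0 (2 * π) ∧ ∫ t in (0 : ℝ)..(2 * π), |h t| ≤ C ∧
  ∀ᵐ s : ℝ ∂(volume.restrict (Ioc 0 (2 * π))),
    IntervalIntegrable (fun t : ℝ => Real.log ‖exp (s * I) - exp (t * I)‖ * h t) volume 0 (2 * π) ∧
    Real.log ‖(φ (y * Circle.exp s) : ℂ) - φ y‖ = c * Real.log ‖exp (s * I) - 1‖ + β s +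
      ∫ t in (0 : ℝ)..(2 * π), Real.log ‖exp (s * I) - exp (t * I)‖ * h t

lemma lk0 (s : ℝ) : lk s 0 = Real.log ‖exp (s * I) - 1‖ := by
  unfold lk
  rw [Complex.ofReal_zero, zero_mul, Complex.exp_zero]

lemma cond_nonneg (φ : Circle → Circle) (C : ℝ) (h : Cond φ C) : 0 ≤ C := by
  have h1 := (h 1).2 1 1 (by simp)
  simpa using h1

lemma ev_near (y : Circle) : ∀ᶠ z : Circle in 𝓝[≠] y, 0 < ‖(z : ℂ) - y‖ ∧ ‖(z : ℂ) - y‖ < 1 := by
  have h1 : Tendsto (fun z : Circle => ‖(z : ℂ) - y‖) (𝓝 y) (𝓝 ‖(y : ℂ) - y‖) := by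
    have : Continuous (fun z : Circle => ‖(z : ℂ) - y‖) :=
      (continuous_subtype_val.sub continuous_const).norm
    exact this.tendsto y
  rw [sub_self, norm_zero] at h1
  have h2 := h1.eventually_lt_const (zero_lt_one)
  filter_upwards [h2.filter_mono nhdsWithin_le_nhds, self_mem_nhdsWithin] with z hz hz2
  refine ⟨?_, hz⟩
  rw [norm_pos_iff, sub_ne_zero]
  intro h3
  exact hz2 (Subtype.ext h3)

lemma punct (φ : Circle ≃ₜ Circle) (y : Circle) : Tendsto φ (𝓝[≠] y) (𝓝[≠] (φ y)) := by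
  refine tendsto_nhdsWithin_iff.mpr ⟨(φ.continuous.tendsto y).mono_left nhdsWithin_le_nhds, ?_⟩
  filter_upwards [self_mem_nhdsWithin] with z hz h
  exact hz (φ.injective h)

instance circ_nebot (y : Circle) : NeBot (𝓝[≠] y) := by
  have h : Tendsto (fun s : ℝ => y * Circle.exp s) (𝓝[>] 0) (𝓝[≠] y) := by
    refine tendsto_nhdsWithin_iff.mpr ⟨?_, ?_⟩
    · have h1 : Continuous (fun s : ℝ => y * Circle.exp s) :=
        continuous_const.mul Circle.exp.continuous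
      have h2 := h1.tendsto 0
      rw [Circle.exp_zero, mul_one] at h2
      exact h2.mono_left nhdsWithin_le_nhds
    · filter_upwards [Ioo_mem_nhdsGT Real.pi_pos] with s hs h2
      have h3 : Circle.exp s = 1 := by
        have : y * Circle.exp s = y * 1 := by rw [mul_one]; exact h2
        exact mul_left_cancel this
      have h4 := Circle.arg_exp (x := s) (by linarith [hs.1, Real.pi_pos]) hs.2.le
      rw [h3, Circle.coe_one, Complex.arg_one] at h4
      linarith [hs.1]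
  exact h.neBot

lemma expo_nonneg (φ : Circle ≃ₜ Circle) (y : Circle) (c : ℝ)
    (h : Tendsto (fun z : Circle => Real.log ‖(φ z : ℂ) - φ y‖ / Real.log ‖(z : ℂ) - y‖) (𝓝[≠] y) (𝓝 c)) :
    0 ≤ c := by
  refine ge_of_tendsto h ?_
  filter_upwards [ev_near y, (punct φ y).eventually (ev_near (φ y))] with z h1 h2
  exact div_nonneg_of_nonpos (Real.log_nonpos (norm_nonneg _) h2.2.le)
    (Real.log_nonpos (norm_nonneg _) h1.2.le)

lemma recip (φ : Circle ≃ₜ Circle) (y : Circle) (c c' : ℝ)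
    (h : Tendsto (fun z : Circle => Real.log ‖(φ z : ℂ) - φ y‖ / Real.log ‖(z : ℂ) - y‖) (𝓝[≠] y) (𝓝 c))
    (h' : Tendsto (fun z : Circle => Real.log ‖(φ.symm z : ℂ) - φ.symm (φ y)‖ / Real.log ‖(z : ℂ) - φ y‖)
      (𝓝[≠] (φ y)) (𝓝 c')) : c * c' = 1 := by
  have h1 := h.mul (h'.comp (punct φ y))
  refine tendsto_nhds_unique h1 ?_
  refine tendsto_const_nhds.congr' ?_
  filter_upwards [ev_near y, (punct φ y).eventually (ev_near (φ y))] with z h1 h2
  show 1 = _ * (Real.log ‖(φ.symm (φ z) : ℂ) - φ.symm (φ y)‖ / Real.log ‖(φ z : ℂ) - φ y‖)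
  rw [φ.symm_apply_apply, φ.symm_apply_apply]
  have h3 := Real.log_neg h1.1 h1.2
  have h4 := Real.log_neg h2.1 h2.2
  have h5 := h3.ne
  have h6 := h4.ne
  field_simp

theorem sharp_of_cond (φ : Circle ≃ₜ Circle) (C : ℝ) (h : Cond φ C) : Sharp φ 0 C := by
  intro y
  obtain ⟨β, h, hβ, hh, hh1, hae⟩ := nec2 φ C (cond_nonneg _ C h) h y
  have hlim := expo φ y (-∫ u in (0 : ℝ)..(2 * π), h u) C β h hβ hh (by
    filter_upwards [hae] with s hs
    exact hs.2)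
  refine ⟨-∫ u in (0 : ℝ)..(2 * π), h u, β, h, expo_nonneg φ y _ hlim, ?_, hlim, hβ, hh, hh1, ?_⟩
  · have h1 : |∫ u in (0 : ℝ)..(2 * π), h u| ≤ ∫ u in (0 : ℝ)..(2 * π), |h u| :=
      intervalIntegral.abs_integral_le_integral_abs tpi
    have h2 := neg_abs_le (∫ u in (0 : ℝ)..(2 * π), h u)
    linarith
  · filter_upwards [hae] with s hs
    refine ⟨hs.1, ?_⟩
    rw [← lk0]
    exact hs.2

theorem cond_of_sharp (φ : Circle ≃ₜ Circle) (C : ℝ) (h : Sharp φ 0 C) : Cond φ ((4 * π + 2) * C) := by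
  have hC : 0 ≤ C := by
    obtain ⟨c, β, h, h1, h2, -⟩ := h 1
    linarith
  refine suff2 φ C hC ?_
  intro y
  obtain ⟨c, β, h, h1, h2, h3, h4, h5, h6, h7⟩ := h y
  refine ⟨c, β, h, ?_, h4, h5, h6, ?_⟩
  · rw [abs_of_nonneg h1]; exact h2
  · filter_upwards [h7] with s hs
    rw [lk0]
    exact hs.2

lemma sharp_mono (φ : Circle → Circle) (b b' C C' : ℝ) (hb : b' ≤ b) (hC : C ≤ C') (h : Sharp φ b C) :
    Sharp φ b' C' := by
  intro y
  obtain ⟨c, β, h, h1, h2, h3, h4, h5, h6, h7⟩ := h y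
  exact ⟨c, β, h, hb.trans h1, h2.trans hC, h3, h4.trans (ENNReal.ofReal_le_ofReal hC), h5, h6.trans hC, h7⟩

theorem sharp_pair (φ : Circle ≃ₜ Circle) (C : ℝ) (h : Sharp φ 0 C) (h' : Sharp φ.symm 0 C) :
    0 < C ∧ Sharp φ C⁻¹ C ∧ Sharp φ.symm C⁻¹ C := by
  have key : ∀ (φ : Circle ≃ₜ Circle), Sharp φ 0 C → Sharp φ.symm 0 C → 0 < C ∧ Sharp φ C⁻¹ C := by
    intro φ h h'
    have hy : ∀ y : Circle, ∀ c : ℝ, Tendsto (fun z : Circle => Real.log ‖(φ z : ℂ) - φ y‖ /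
        Real.log ‖(z : ℂ) - y‖) (𝓝[≠] y) (𝓝 c) → 0 < C ∧ C⁻¹ ≤ c := by
      intro y c hc
      obtain ⟨c', -, -, h1', h2', h3', -⟩ := h' (φ y)
      have h8 := recip φ y c c' hc h3'
      have h9 := expo_nonneg φ y c hc
      have h10 : 0 < c' := by
        rcases eq_or_lt_of_le h1' with h11 | h11
        · rw [← h11, mul_zero] at h8
          exact absurd h8 zero_ne_one
        · exact h11
      have hC : 0 < C := lt_of_lt_of_le h10 h2'
      refine ⟨hC, ?_⟩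
      have h12 : c = c'⁻¹ := by
        field_simp
        linarith
      rw [h12]
      exact inv_anti₀ h10 h2'
    refine ⟨?_, ?_⟩
    · obtain ⟨c, -, -, -, -, h3, -⟩ := h 1
      exact (hy 1 c h3).1
    · intro y
      obtain ⟨c, β, g, h1, h2, h3, h4⟩ := h y
      exact ⟨c, β, g, (hy y c h3).2, h2, h3, h4⟩
  refine ⟨(key φ h h').1, (key φ h h').2, ?_⟩
  exact (key φ.symm h' (by rw [Homeomorph.symm_symm]; exact h)).2

end Pool.Agent.Y252.RA
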